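import Mathlib
import Pool.Agent.R333.SubR
import Pool.Agent.W472.AC.RothThm

set_option autoImplicit false

/-!
Numbers `c Y ^ k` with bounded `c` which are close to each other.
-/

open Finset Filter Topology

namespace Pool.Agent.H977.PW

/-- `|A - B| A^(k-1) ≤ |A^k - B^k|` -/
theorem pow_sub_ge (A B : ℝ) (hA : 0 ≤ A) (hB : 0 ≤ B) (k : ℕ) (hk : 1 ≤ k) :
    |A - B| * A ^ (k - 1) ≤ |A ^ k - B ^ k| := by
  obtain ⟨n, rfl⟩ := Nat.exists_eq_add_of_le' hk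
  have h1 : A ^ (n + 1) - B ^ (n + 1) = (A - B) * ∑ i ∈ range (n + 1), A ^ i * B ^ (n + 1 - 1 - i) := by
    rw [mul_comm]
    exact (Commute.all A B).geom_sum₂_mul (n + 1) |>.symm
  rw [h1, abs_mul, Nat.add_sub_cancel]
  apply mul_le_mul_of_nonneg_left _ (abs_nonneg _)
  have h2 : A ^ n ≤ ∑ i ∈ range (n + 1), A ^ i * B ^ (n - i) := by
    calc A ^ n = A ^ n * B ^ (n - n) := by simp
      _ ≤ _ := Finset.single_le_sum (f := fun i => A ^ i * B ^ (n - i))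
        (fun i _ => by positivity) (Finset.mem_range.2 (Nat.lt_succ_self n))
  exact h2.trans (le_abs_self _)

/-- real algebraic numbers are not too close to fractions -/
theorem away (α : ℝ) (hα : 0 < α) (halg : IsAlgebraic ℚ α) : ∃ κ : ℝ, 0 < κ ∧ ∀ Y Z : ℕ, 1 ≤ Y →
    α * Z ≤ 2 * Y → (Y : ℝ) ≠ α * Z → κ * (Y : ℝ) ^ (-(9 / 8) : ℝ) ≤ |(Y : ℝ) - α * Z| := by
  by_cases hirr : Irrational α
  · obtain ⟨c, hc, h⟩ := Pool.Agent.W472.AC.roth α halg hirr (1 / 8) (by norm_num)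
    refine ⟨min 1 (c * (α / 2) ^ (9 / 8 : ℝ)), lt_min one_pos (by positivity), ?_⟩
    intro Y Z hY hZ hne
    have hY0 : (0 : ℝ) < Y := by exact_mod_cast hY
    have hY1 : (1 : ℝ) ≤ Y := by exact_mod_cast hY
    rcases Nat.eq_zero_or_pos Z with h0 | h0
    · subst h0
      have h1 : (Y : ℝ) ^ (-(9 / 8) : ℝ) ≤ 1 := Real.rpow_le_one_of_one_le_of_nonpos hY1 (by norm_num)
      have h2 : (0 : ℝ) < (Y : ℝ) ^ (-(9 / 8) : ℝ) := Real.rpow_pos_of_pos hY0 _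
      simp only [Nat.cast_zero, mul_zero, sub_zero, abs_of_pos hY0]
      calc min 1 (c * (α / 2) ^ (9 / 8 : ℝ)) * (Y : ℝ) ^ (-(9 / 8) : ℝ) ≤ 1 * 1 :=
            mul_le_mul (min_le_left _ _) h1 h2.le zero_le_one
        _ ≤ Y := by linarith
    · have hZ0 : (0 : ℝ) < Z := by exact_mod_cast h0
      have h1 := h Z h0 Y
      have h2 : |(Z : ℝ) * α - ((Y : ℤ) : ℝ)| = |(Y : ℝ) - α * Z| := by
        rw [abs_sub_comm, mul_comm (Z : ℝ) α, Int.cast_natCast]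
      rw [h2] at h1
      have h3 : (Z : ℝ) ^ (1 + 1 / 8 : ℝ) ≤ ((2 / α) * Y) ^ (9 / 8 : ℝ) := by
        have h4 : (1 + 1 / 8 : ℝ) = 9 / 8 := by norm_num
        rw [h4]
        apply Real.rpow_le_rpow hZ0.le _ (by norm_num)
        rw [div_mul_eq_mul_div, le_div_iff₀ hα]
        linarith
      have h4 : c ≤ ((2 / α) * Y) ^ (9 / 8 : ℝ) * |(Y : ℝ) - α * Z| :=
        h1.trans (mul_le_mul_of_nonneg_right h3 (abs_nonneg _))
      have h5 : ((2 / α) * Y) ^ (9 / 8 : ℝ) = (2 / α) ^ (9 / 8 : ℝ) * (Y : ℝ) ^ (9 / 8 : ℝ) :=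
        Real.mul_rpow (by positivity) hY0.le
      have h6 : (α / 2) ^ (9 / 8 : ℝ) * (2 / α) ^ (9 / 8 : ℝ) = 1 := by
        rw [← Real.mul_rpow (by positivity) (by positivity)]
        have : α / 2 * (2 / α) = 1 := by field_simp
        rw [this, Real.one_rpow]
      have h7 : (Y : ℝ) ^ (9 / 8 : ℝ) * (Y : ℝ) ^ (-(9 / 8) : ℝ) = 1 := by
        rw [← Real.rpow_add hY0]; norm_num
      have h8 : 0 < (α / 2) ^ (9 / 8 : ℝ) * (Y : ℝ) ^ (-(9 / 8) : ℝ) := by positivity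
      have h9 := mul_le_mul_of_nonneg_left h4 h8.le
      rw [h5] at h9
      calc min 1 (c * (α / 2) ^ (9 / 8 : ℝ)) * (Y : ℝ) ^ (-(9 / 8) : ℝ)
          ≤ (c * (α / 2) ^ (9 / 8 : ℝ)) * (Y : ℝ) ^ (-(9 / 8) : ℝ) :=
            mul_le_mul_of_nonneg_right (min_le_right _ _) (by positivity)
        _ = (α / 2) ^ (9 / 8 : ℝ) * (Y : ℝ) ^ (-(9 / 8) : ℝ) * c := by ring
        _ ≤ _ := h9
        _ = ((α / 2) ^ (9 / 8 : ℝ) * (2 / α) ^ (9 / 8 : ℝ)) *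
            ((Y : ℝ) ^ (9 / 8 : ℝ) * (Y : ℝ) ^ (-(9 / 8) : ℝ)) * |(Y : ℝ) - α * Z| := by ring
        _ = |(Y : ℝ) - α * Z| := by rw [h6, h7]; ring
  · rw [Irrational, not_not] at hirr
    obtain ⟨q, rfl⟩ := hirr
    have hd : (0 : ℝ) < q.den := by exact_mod_cast q.den_pos
    refine ⟨1 / q.den, by positivity, ?_⟩
    intro Y Z hY hZ hne
    have hY1 : (1 : ℝ) ≤ Y := by exact_mod_cast hY
    have h1 : (Y : ℝ) ^ (-(9 / 8) : ℝ) ≤ 1 := Real.rpow_le_one_of_one_le_of_nonpos hY1 (by norm_num)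
    have h2 : (q : ℝ) = q.num / q.den := by exact_mod_cast (Rat.num_div_den q).symm
    have h3 : (Y : ℝ) - q * Z = ((q.den * Y - q.num * Z : ℤ) : ℝ) / q.den := by
      rw [h2]; push_cast; field_simp
    have h4 : (q.den * Y - q.num * Z : ℤ) ≠ 0 := by
      intro h0
      apply hne
      rw [← sub_eq_zero, h3, h0]; simp
    have h5 : (1 : ℝ) ≤ |((q.den * Y - q.num * Z : ℤ) : ℝ)| := by
      rw [← Int.cast_abs]; exact_mod_cast Int.one_le_abs h4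
    rw [h3, abs_div, abs_of_pos hd]
    calc 1 / (q.den : ℝ) * (Y : ℝ) ^ (-(9 / 8) : ℝ) ≤ 1 / (q.den : ℝ) * 1 :=
          mul_le_mul_of_nonneg_left h1 (by positivity)
      _ ≤ _ := by rw [mul_one]; exact div_le_div_of_nonneg_right h5 hd.le

/-- Two numbers `c Y ^ k`, `k ≥ 3`, are not close to each other. -/
theorem two (k : ℕ) (hk : 3 ≤ k) (c c' : ℕ) (hc : 1 ≤ c) (hc' : 1 ≤ c') :
    ∃ X₀ : ℝ, ∀ Y Z : ℕ, X₀ ≤ (c : ℝ) * (Y : ℝ) ^ k → c * Y ^ k ≠ c' * Z ^ k →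
      ((c : ℝ) * (Y : ℝ) ^ k) ^ (1 / 4 : ℝ) < |(c : ℝ) * (Y : ℝ) ^ k - (c' : ℝ) * (Z : ℝ) ^ k| := by
  have hcR : (1 : ℝ) ≤ c := by exact_mod_cast hc
  have hcR' : (1 : ℝ) ≤ c' := by exact_mod_cast hc'
  have hk0 : k ≠ 0 := by omega
  set α : ℝ := ((c' : ℝ) / c) ^ ((k : ℝ)⁻¹) with hαdef
  have hα : 0 < α := by positivity
  have hαk : α ^ k = (c' : ℝ) / c := Real.rpow_inv_natCast_pow (by positivity) hk0
  have halg : IsAlgebraic ℚ α := by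
    apply IsAlgebraic.of_pow (n := k) (by omega)
    rw [hαk]
    have : ((c' : ℝ) / c) = algebraMap ℚ ℝ ((c' : ℚ) / c) := by simp
    rw [this]
    exact isAlgebraic_algebraMap _
  obtain ⟨κ, hκ, haway⟩ := away α hα halg
  -- the threshold
  set B : ℝ := (1 + 1 / κ) ^ 8 with hB
  refine ⟨(c : ℝ) * (B + 2) ^ k, ?_⟩
  intro Y Z hX hne
  by_contra hcon
  push Not at hcon
  set V : ℝ := (c : ℝ) * (Y : ℝ) ^ k with hV
  have hκ1 : 0 < 1 / κ := by positivity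
  have hB1 : 1 ≤ B := one_le_pow₀ (by linarith)
  have hYB : B + 2 ≤ (Y : ℝ) := by
    have h1 : (B + 2) ^ k ≤ (Y : ℝ) ^ k := le_of_mul_le_mul_left hX (by linarith)
    exact le_of_pow_le_pow_left₀ hk0 (Nat.cast_nonneg Y) h1
  have hY1 : (1 : ℝ) ≤ Y := by linarith
  have hY0 : (0 : ℝ) < Y := by linarith
  have hYn : 1 ≤ Y := by exact_mod_cast hY1
  have hV1 : 1 ≤ V := by
    have : (1 : ℝ) ≤ (Y : ℝ) ^ k := one_le_pow₀ hY1
    nlinarith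
  have hYk : (Y : ℝ) ^ k = Y * (Y : ℝ) ^ (k - 1) := by
    rw [← pow_succ']; congr 1; omega
  -- the difference of the powers
  have h1 : |(Y : ℝ) - α * Z| * (Y : ℝ) ^ (k - 1) ≤ V ^ (1 / 4 : ℝ) / c := by
    have h2 := pow_sub_ge Y (α * Z) hY0.le (by positivity) k (by omega)
    refine h2.trans ?_
    rw [le_div_iff₀ (by linarith), mul_pow, hαk]
    have h3 : |(Y : ℝ) ^ k - (c' : ℝ) / c * (Z : ℝ) ^ k| * c =
        |(c : ℝ) * (Y : ℝ) ^ k - (c' : ℝ) * (Z : ℝ) ^ k| := by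
      have e : (c : ℝ) * (Y : ℝ) ^ k - (c' : ℝ) * (Z : ℝ) ^ k =
          ((Y : ℝ) ^ k - (c' : ℝ) / c * (Z : ℝ) ^ k) * c := by field_simp
      rw [e, abs_mul, abs_of_pos (show (0 : ℝ) < c by linarith)]
    rw [h3]
    exact hcon
  have hYk1 : (1 : ℝ) ≤ (Y : ℝ) ^ (k - 1) := one_le_pow₀ hY1
  have hV4 : V ^ (1 / 4 : ℝ) ≤ V := by
    calc V ^ (1 / 4 : ℝ) ≤ V ^ (1 : ℝ) := Real.rpow_le_rpow_of_exponent_le hV1 (by norm_num)
      _ = V := Real.rpow_one V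
  have h2 : |(Y : ℝ) - α * Z| ≤ Y := by
    have h3 : |(Y : ℝ) - α * Z| * (Y : ℝ) ^ (k - 1) ≤ Y * (Y : ℝ) ^ (k - 1) := by
      refine h1.trans ?_
      rw [div_le_iff₀ (by linarith), ← hYk, mul_comm, ← hV]
      exact hV4
    exact le_of_mul_le_mul_right h3 (by linarith)
  have h3 : α * Z ≤ 2 * Y := by
    have := neg_abs_le ((Y : ℝ) - α * Z)
    linarith
  have hne' : (Y : ℝ) ≠ α * Z := by
    intro h0
    apply hne
    have h4 : (c : ℝ) * (Y : ℝ) ^ k = c' * (Z : ℝ) ^ k := by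
      rw [h0, mul_pow, hαk]; field_simp
    exact_mod_cast h4
  have h4 := haway Y Z hYn h3 hne'
  -- put together
  have h5 : κ * (Y : ℝ) ^ (-(9 / 8) : ℝ) * (Y : ℝ) ^ (k - 1) ≤ V ^ (1 / 4 : ℝ) / c :=
    (mul_le_mul_of_nonneg_right h4 (by positivity)).trans h1
  have h6 : V ^ (1 / 4 : ℝ) / c ≤ (Y : ℝ) ^ ((k : ℝ) / 4) := by
    rw [div_le_iff₀ (by linarith), hV, Real.mul_rpow (by linarith) (by positivity), mul_comm]
    have h7 : ((Y : ℝ) ^ k) ^ (1 / 4 : ℝ) = (Y : ℝ) ^ ((k : ℝ) / 4) := by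
      rw [← Real.rpow_natCast, ← Real.rpow_mul hY0.le]; congr 1; ring
    have h8 : (c : ℝ) ^ (1 / 4 : ℝ) ≤ c := by
      calc (c : ℝ) ^ (1 / 4 : ℝ) ≤ (c : ℝ) ^ (1 : ℝ) :=
            Real.rpow_le_rpow_of_exponent_le hcR (by norm_num)
        _ = c := Real.rpow_one _
    rw [h7]
    exact mul_le_mul_of_nonneg_left h8 (by positivity)
  have h7 : κ * (Y : ℝ) ^ (1 / 8 : ℝ) ≤ 1 := by
    have h8 : (Y : ℝ) ^ (-(9 / 8) : ℝ) * (Y : ℝ) ^ (k - 1) = (Y : ℝ) ^ ((k : ℝ) - 1 - 9 / 8) := by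
      rw [← Real.rpow_natCast, ← Real.rpow_add hY0]
      congr 1
      rw [Nat.cast_sub (by omega)]; push_cast; ring
    have h9 : (Y : ℝ) ^ ((k : ℝ) / 4) * (Y : ℝ) ^ (1 / 8 : ℝ) ≤ (Y : ℝ) ^ ((k : ℝ) - 1 - 9 / 8) := by
      rw [← Real.rpow_add hY0]
      apply Real.rpow_le_rpow_of_exponent_le hY1
      have : (3 : ℝ) ≤ k := by exact_mod_cast hk
      linarith
    have h10 : κ * (Y : ℝ) ^ ((k : ℝ) - 1 - 9 / 8) ≤ (Y : ℝ) ^ ((k : ℝ) / 4) := by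
      rw [← h8, ← mul_assoc]
      exact h5.trans h6
    have h11 : κ * ((Y : ℝ) ^ ((k : ℝ) / 4) * (Y : ℝ) ^ (1 / 8 : ℝ)) ≤ (Y : ℝ) ^ ((k : ℝ) / 4) :=
      (mul_le_mul_of_nonneg_left h9 hκ.le).trans h10
    have h12 : 0 < (Y : ℝ) ^ ((k : ℝ) / 4) := by positivity
    have h13 : (Y : ℝ) ^ ((k : ℝ) / 4) * (κ * (Y : ℝ) ^ (1 / 8 : ℝ)) ≤ (Y : ℝ) ^ ((k : ℝ) / 4) * 1 := by
      rw [mul_one]; calc _ = κ * ((Y : ℝ) ^ ((k : ℝ) / 4) * (Y : ℝ) ^ (1 / 8 : ℝ)) := by ring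
        _ ≤ _ := h11
    exact le_of_mul_le_mul_left h13 h12
  have h8 : 1 + 1 / κ ≤ (Y : ℝ) ^ (1 / 8 : ℝ) := by
    have h9 : (1 + 1 / κ) = (B ^ (1 / 8 : ℝ)) := by
      rw [hB, ← Real.rpow_natCast, ← Real.rpow_mul (by positivity)]
      norm_num
    rw [h9]
    exact Real.rpow_le_rpow (by linarith) (by linarith) (by norm_num)
  have h9 := mul_le_mul_of_nonneg_left h8 hκ.le
  have h10 : κ * (1 + 1 / κ) = κ + 1 := by field_simp
  linarith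

/-- The quadratic case when the ratio is a square. -/
theorem rat2 (c c' : ℕ) (hc : 1 ≤ c) (hc' : 1 ≤ c') (hr : ¬ Irrational (√((c' : ℝ) / c))) :
    ∃ κ : ℝ, 0 < κ ∧ ∀ Y Z : ℕ, c * Y ^ 2 ≠ c' * Z ^ 2 →
      κ * Y ≤ |(c : ℝ) * (Y : ℝ) ^ 2 - (c' : ℝ) * (Z : ℝ) ^ 2| := by
  have hcR : (1 : ℝ) ≤ c := by exact_mod_cast hc
  rw [Irrational, not_not] at hr
  obtain ⟨q, hq⟩ := hr
  have hd : (0 : ℝ) < q.den := by exact_mod_cast q.den_pos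
  have hαk : (q : ℝ) ^ 2 = (c' : ℝ) / c := by rw [hq]; exact Real.sq_sqrt (by positivity)
  have hq0 : (0 : ℝ) ≤ q := by rw [hq]; exact Real.sqrt_nonneg _
  refine ⟨c / q.den, by positivity, ?_⟩
  intro Y Z hne
  have h1 := pow_sub_ge Y (q * Z) (Nat.cast_nonneg Y) (by positivity) 2 (by omega)
  have h2 : (q : ℝ) = q.num / q.den := by exact_mod_cast (Rat.num_div_den q).symm
  have h3 : (Y : ℝ) - q * Z = ((q.den * Y - q.num * Z : ℤ) : ℝ) / q.den := by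
    rw [h2]; push_cast; field_simp
  have h4 : (q.den * Y - q.num * Z : ℤ) ≠ 0 := by
    intro h0
    apply hne
    have h5 : (Y : ℝ) = q * Z := by rw [← sub_eq_zero, h3, h0]; simp
    have h6 : (c : ℝ) * (Y : ℝ) ^ 2 = c' * (Z : ℝ) ^ 2 := by
      rw [h5, mul_pow, hαk]; field_simp
    exact_mod_cast h6
  have h5 : (1 : ℝ) ≤ |((q.den * Y - q.num * Z : ℤ) : ℝ)| := by
    rw [← Int.cast_abs]; exact_mod_cast Int.one_le_abs h4
  have h6 : |(Y : ℝ) ^ 2 - (q * Z) ^ 2| * c = |(c : ℝ) * (Y : ℝ) ^ 2 - (c' : ℝ) * (Z : ℝ) ^ 2| := by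
    have e : (c : ℝ) * (Y : ℝ) ^ 2 - (c' : ℝ) * (Z : ℝ) ^ 2 =
        ((Y : ℝ) ^ 2 - (q * Z) ^ 2) * c := by rw [mul_pow, hαk]; field_simp
    rw [e, abs_mul, abs_of_pos (show (0 : ℝ) < c by linarith)]
  rw [← h6]
  have h7 : 1 / (q.den : ℝ) ≤ |(Y : ℝ) - q * Z| := by
    rw [h3, abs_div, abs_of_pos hd]
    exact div_le_div_of_nonneg_right h5 hd.le
  calc (c : ℝ) / q.den * Y = (1 / q.den * Y) * c := by ring
    _ ≤ (|(Y : ℝ) - q * Z| * (Y : ℝ) ^ (2 - 1)) * c := by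
        apply mul_le_mul_of_nonneg_right _ (by linarith)
        rw [show 2 - 1 = 1 from rfl, pow_one]
        exact mul_le_mul_of_nonneg_right h7 (Nat.cast_nonneg Y)
    _ ≤ _ := mul_le_mul_of_nonneg_right h1 (by linarith)

end Pool.Agent.H977.PW
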