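import Mathlib
import Pool.Agent.H977.PW.Close

set_option autoImplicit false

/-!
Three numbers `c Y ^ 2` with bounded `c` are not close to each other.
-/

open Finset Filter Topology

namespace Pool.Agent.H977.PW

theorem prod_zero (c c' : ℕ) (hc : 1 ≤ c) (hc' : 1 ≤ c') (hirr : Irrational (√((c' : ℝ) / c)))
    (x y : ℤ) (r : ℚ) (h : 2 * ((x : ℝ) / √c) * ((y : ℝ) / √c') = r) : x = 0 ∨ y = 0 := by
  have hcR : (0 : ℝ) < c := by exact_mod_cast hc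
  have hcR' : (0 : ℝ) < c' := by exact_mod_cast hc'
  have h1 : (0 : ℝ) < √c := Real.sqrt_pos.2 hcR
  have h1' : (0 : ℝ) < √c' := Real.sqrt_pos.2 hcR'
  by_contra hcon
  push Not at hcon
  apply hirr
  refine ⟨r * c' / (2 * x * y), ?_⟩
  have hx : (x : ℝ) ≠ 0 := by exact_mod_cast hcon.1
  have hy : (y : ℝ) ≠ 0 := by exact_mod_cast hcon.2
  push_cast
  rw [← h, Real.sqrt_div hcR'.le]
  have h2 : √(c' : ℝ) * √(c' : ℝ) = c' := Real.mul_self_sqrt hcR'.le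
  field_simp
  linear_combination (-1) * h2

theorem indep (c₁ c₂ c₃ : ℕ) (h₁ : 1 ≤ c₁) (h₂ : 1 ≤ c₂) (h₃ : 1 ≤ c₃)
    (i₁₂ : Irrational (√((c₂ : ℝ) / c₁))) (i₁₃ : Irrational (√((c₃ : ℝ) / c₁)))
    (i₂₃ : Irrational (√((c₃ : ℝ) / c₂))) (x y z : ℤ)
    (h : (x : ℝ) / √c₁ + (y : ℝ) / √c₂ + (z : ℝ) / √c₃ = 0) : x = 0 ∧ y = 0 ∧ z = 0 := by
  have p₁ : (0 : ℝ) < c₁ := by exact_mod_cast h₁
  have p₂ : (0 : ℝ) < c₂ := by exact_mod_cast h₂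
  have p₃ : (0 : ℝ) < c₃ := by exact_mod_cast h₃
  have q₁ : ((x : ℝ) / √c₁) ^ 2 = x ^ 2 / c₁ := by rw [div_pow, Real.sq_sqrt p₁.le]
  have q₂ : ((y : ℝ) / √c₂) ^ 2 = y ^ 2 / c₂ := by rw [div_pow, Real.sq_sqrt p₂.le]
  have q₃ : ((z : ℝ) / √c₃) ^ 2 = z ^ 2 / c₃ := by rw [div_pow, Real.sq_sqrt p₃.le]
  have e₁₂ : x = 0 ∨ y = 0 := by
    apply prod_zero c₁ c₂ h₁ h₂ i₁₂ x y ((z : ℚ) ^ 2 / c₃ - x ^ 2 / c₁ - y ^ 2 / c₂)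
    push_cast
    rw [← q₁, ← q₂, ← q₃]
    have : (z : ℝ) / √c₃ = -((x : ℝ) / √c₁ + (y : ℝ) / √c₂) := by linarith
    rw [this]; ring
  have e₁₃ : x = 0 ∨ z = 0 := by
    apply prod_zero c₁ c₃ h₁ h₃ i₁₃ x z ((y : ℚ) ^ 2 / c₂ - x ^ 2 / c₁ - z ^ 2 / c₃)
    push_cast
    rw [← q₁, ← q₂, ← q₃]
    have : (y : ℝ) / √c₂ = -((x : ℝ) / √c₁ + (z : ℝ) / √c₃) := by linarith
    rw [this]; ring
  have e₂₃ : y = 0 ∨ z = 0 := by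
    apply prod_zero c₂ c₃ h₂ h₃ i₂₃ y z ((x : ℚ) ^ 2 / c₁ - y ^ 2 / c₂ - z ^ 2 / c₃)
    push_cast
    rw [← q₁, ← q₂, ← q₃]
    have : (x : ℝ) / √c₁ = -((y : ℝ) / √c₂ + (z : ℝ) / √c₃) := by linarith
    rw [this]; ring
  have hz : ∀ (w : ℤ) (c : ℕ), 1 ≤ c → (w : ℝ) / √c = 0 → w = 0 := by
    intro w c hc hw
    have hc0 : (0 : ℝ) < √c := Real.sqrt_pos.2 (by exact_mod_cast hc)
    rcases div_eq_zero_iff.1 hw with h0 | h0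
    · exact_mod_cast h0
    · exact absurd h0 hc0.ne'
  rcases e₁₂ with hx | hy
  · subst hx
    rcases e₂₃ with hy | hz'
    · subst hy
      exact ⟨rfl, rfl, hz z c₃ h₃ (by simpa using h)⟩
    · subst hz'
      exact ⟨rfl, hz y c₂ h₂ (by simpa using h), rfl⟩
  · subst hy
    rcases e₁₃ with hx | hz'
    · subst hx
      exact ⟨rfl, rfl, hz z c₃ h₃ (by simpa using h)⟩
    · subst hz'
      exact ⟨hz x c₁ h₁ (by simpa using h), rfl, rfl⟩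

/-- the three numbers are close -/
def Near (c₁ c₂ c₃ : ℕ) (Y : Fin 3 → ℕ) : Prop :=
  |(c₁ : ℝ) * (Y 0 : ℝ) ^ 2 - (c₂ : ℝ) * (Y 1 : ℝ) ^ 2| ≤ ((c₁ : ℝ) * (Y 0 : ℝ) ^ 2) ^ (1 / 8 : ℝ) ∧
  |(c₁ : ℝ) * (Y 0 : ℝ) ^ 2 - (c₃ : ℝ) * (Y 2 : ℝ) ^ 2| ≤ ((c₁ : ℝ) * (Y 0 : ℝ) ^ 2) ^ (1 / 8 : ℝ)

theorem vpow_le (c : ℕ) (hc : 1 ≤ c) (Y : ℝ) (hY : 1 ≤ Y) :
    ((c : ℝ) * Y ^ 2) ^ (1 / 8 : ℝ) ≤ c * Y ^ (1 / 4 : ℝ) := by
  have hcR : (1 : ℝ) ≤ c := by exact_mod_cast hc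
  rw [Real.mul_rpow (by linarith) (by positivity)]
  have h1 : (Y ^ 2) ^ (1 / 8 : ℝ) = Y ^ (1 / 4 : ℝ) := by
    rw [← Real.rpow_natCast, ← Real.rpow_mul (by linarith)]; congr 1; norm_num
  rw [h1]
  apply mul_le_mul_of_nonneg_right _ (by positivity)
  calc (c : ℝ) ^ (1 / 8 : ℝ) ≤ (c : ℝ) ^ (1 : ℝ) :=
        Real.rpow_le_rpow_of_exponent_le hcR (by norm_num)
    _ = c := Real.rpow_one _

theorem form_small (c₁ c₂ : ℕ) (h₁ : 1 ≤ c₁) (Y Z : ℕ) (m : ℕ) (hY : 2 ^ m ≤ Y)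
    (h : |(c₁ : ℝ) * (Y : ℝ) ^ 2 - (c₂ : ℝ) * (Z : ℝ) ^ 2| ≤ ((c₁ : ℝ) * (Y : ℝ) ^ 2) ^ (1 / 8 : ℝ)) :
    |√c₁ * Y - √c₂ * Z| ≤ c₁ * (2 : ℝ) ^ (-(3 / 4) * (m : ℝ) : ℝ) := by
  have hY2 : ((2 : ℝ) ^ m) ≤ Y := by exact_mod_cast hY
  have hm : (1 : ℝ) ≤ 2 ^ m := one_le_pow₀ (by norm_num)
  have hY1 : (1 : ℝ) ≤ Y := hm.trans hY2
  have hc1 : (1 : ℝ) ≤ c₁ := by exact_mod_cast h₁
  have hs : 1 ≤ √(c₁ : ℝ) := by rw [Real.one_le_sqrt]; exact hc1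
  have h1 := pow_sub_ge (√c₁ * Y) (√c₂ * Z) (by positivity) (by positivity) 2 (by omega)
  rw [mul_pow (√(c₁ : ℝ)) (Y : ℝ) 2, mul_pow (√(c₂ : ℝ)) (Z : ℝ) 2, Real.sq_sqrt (by positivity),
    Real.sq_sqrt (by positivity)] at h1
  have h2 := h1.trans (h.trans (vpow_le c₁ h₁ Y hY1))
  rw [show 2 - 1 = 1 from rfl, pow_one] at h2
  have h3 : |√c₁ * Y - √c₂ * Z| * Y ≤ c₁ * (Y : ℝ) ^ (1 / 4 : ℝ) := by
    refine le_trans ?_ h2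
    apply mul_le_mul_of_nonneg_left _ (abs_nonneg _)
    nlinarith
  have h4 : (Y : ℝ) ^ (1 / 4 : ℝ) = (Y : ℝ) ^ (-(3 / 4) : ℝ) * Y := by
    conv_rhs => rw [← Real.rpow_one (Y : ℝ), ← Real.rpow_mul (by linarith), ← Real.rpow_add (by linarith)]
    norm_num
  rw [h4, ← mul_assoc] at h3
  have h5 := le_of_mul_le_mul_right h3 (by linarith)
  refine h5.trans (mul_le_mul_of_nonneg_left ?_ (by linarith))
  have h6 : (2 : ℝ) ^ (-(3 / 4) * (m : ℝ) : ℝ) = ((2 : ℝ) ^ m) ^ (-(3 / 4) : ℝ) := by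
    rw [← Real.rpow_natCast, ← Real.rpow_mul (by norm_num)]; congr 1; ring
  rw [h6]
  exact Real.rpow_le_rpow_of_nonpos (by positivity) hY2 (by norm_num)

theorem three_irr (c₁ c₂ c₃ : ℕ) (h₁ : 1 ≤ c₁) (h₂ : 1 ≤ c₂) (h₃ : 1 ≤ c₃)
    (i₁₂ : Irrational (√((c₂ : ℝ) / c₁))) (i₁₃ : Irrational (√((c₃ : ℝ) / c₁)))
    (i₂₃ : Irrational (√((c₃ : ℝ) / c₂))) :
    ∃ Y₀ : ℕ, ∀ Y : Fin 3 → ℕ, Y₀ ≤ Y 0 → ¬ Near c₁ c₂ c₃ Y := by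
  by_contra hcon
  push Not at hcon
  have p₁ : (1 : ℝ) ≤ c₁ := by exact_mod_cast h₁
  have s₁ : (0 : ℝ) < √c₁ := Real.sqrt_pos.2 (by linarith)
  have s₁' : 1 ≤ √(c₁ : ℝ) := by rw [Real.one_le_sqrt]; exact p₁
  have s₂ : (0 : ℝ) < √c₂ := Real.sqrt_pos.2 (by exact_mod_cast h₂)
  have s₂' : 1 ≤ √(c₂ : ℝ) := by rw [Real.one_le_sqrt]; exact_mod_cast h₂
  have s₃ : (0 : ℝ) < √c₃ := Real.sqrt_pos.2 (by exact_mod_cast h₃)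
  have s₃' : 1 ≤ √(c₃ : ℝ) := by rw [Real.one_le_sqrt]; exact_mod_cast h₃
  set P : ℕ → Prop := fun m => ∃ Y : Fin 3 → ℕ, 2 ^ m ≤ Y 0 ∧ Y 0 < 2 ^ (m + 1) ∧ Near c₁ c₂ c₃ Y
    with hP
  have hfreq : ∃ᶠ m in atTop, P m := by
    rw [Filter.frequently_atTop]
    intro M
    obtain ⟨Y, hY1, hY2⟩ := hcon (2 ^ M)
    have hY0 : Y 0 ≠ 0 := by have := Nat.one_le_two_pow (n := M); omega
    refine ⟨Nat.log 2 (Y 0), Nat.le_log_of_pow_le (by norm_num) hY1, Y,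
      Nat.pow_log_le_self 2 hY0, Nat.lt_pow_succ_log_self (by norm_num) _, hY2⟩
  have hex : ∀ m, ∃ Y : Fin 3 → ℕ, P m → (2 ^ m ≤ Y 0 ∧ Y 0 < 2 ^ (m + 1) ∧ Near c₁ c₂ c₃ Y) := by
    intro m
    by_cases h : P m
    · obtain ⟨Y, hY⟩ := h
      exact ⟨Y, fun _ => hY⟩
    · exact ⟨0, fun h' => absurd h' h⟩
  choose Y hY using hex
  have hsm : ∀ m, P m → |√c₁ * (Y m 0 : ℝ) - √c₂ * (Y m 1 : ℝ)| ≤ c₁ * (2 : ℝ) ^ (-(3 / 4) * (m : ℝ) : ℝ) ∧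
      |√c₁ * (Y m 0 : ℝ) - √c₃ * (Y m 2 : ℝ)| ≤ c₁ * (2 : ℝ) ^ (-(3 / 4) * (m : ℝ) : ℝ) := by
    intro m hm
    obtain ⟨h1, h2, h3, h4⟩ := hY m hm
    exact ⟨form_small c₁ c₂ h₁ _ _ m h1 h3, form_small c₁ c₃ h₁ _ _ m h1 h4⟩
  obtain ⟨y, hy0, hy⟩ := Pool.Agent.R333.SubR.sub_real (n := 3) (by norm_num) 2 le_rfl
    (!![1, 0, 0; √c₁, -√c₂, 0; √c₁, 0, -√c₃] : Matrix (Fin 3) (Fin 3) ℝ)
    (by
      have hs : ∀ c : ℕ, IsAlgebraic ℚ (√(c : ℝ)) := by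
        intro c
        apply IsAlgebraic.of_pow (n := 2) (by norm_num)
        rw [Real.sq_sqrt (Nat.cast_nonneg c)]
        exact isAlgebraic_algebraMap (R := ℚ) (A := ℝ) (c : ℚ) |> fun h => by simpa using h
      intro i j
      fin_cases i <;> fin_cases j <;>
        simp [isAlgebraic_one, isAlgebraic_zero, hs, IsAlgebraic.neg])
    (by intro i j hij; fin_cases i <;> fin_cases j <;> simp_all)
    (by
      intro i; fin_cases i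
      · simp
      · simpa using (show c₂ ≠ 0 by omega)
      · simpa using (show c₃ ≠ 0 by omega))
    P hfreq (fun m i => (Y m i : ℤ))
    (by
      intro m hm h0
      obtain ⟨h1, h2, h3⟩ := hY m hm
      have h4 : ((Y m 0 : ℕ) : ℤ) = 0 := congrFun h0 0
      have h5 : Y m 0 = 0 := by exact_mod_cast h4
      have := Nat.one_le_two_pow (n := m)
      omega)
    (fun _ _ => 1) 0 (fun m l _ => by simp) (fun m l _ => by simp)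
    ![1, -(3 / 4), -(3 / 4)] (2 * c₁) (by positivity)
    (by
      intro m l hm
      obtain ⟨h1, h2, h3⟩ := hY m hm
      obtain ⟨h4, h5⟩ := hsm m hm
      have h6 : (0 : ℝ) < (2 : ℝ) ^ (-(3 / 4) * (m : ℝ) : ℝ) := by positivity
      fin_cases l
      · simp only [Fin.sum_univ_three]
        simp only [Fin.zero_eta, Matrix.of_apply, Matrix.cons_val', Matrix.cons_val_zero,
          Matrix.cons_val_one, Matrix.cons_val, Int.cast_natCast, one_mul, zero_mul, add_zero,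
          Nat.abs_cast, Nat.cast_ofNat, Real.rpow_natCast]
        have h7 : (Y m 0 : ℝ) ≤ 2 * 2 ^ m := by
          have : Y m 0 ≤ 2 * 2 ^ m := by rw [pow_succ] at h2; omega
          exact_mod_cast this
        calc (Y m 0 : ℝ) ≤ 2 * 2 ^ m := h7
          _ ≤ 2 * c₁ * 2 ^ m := by
            have : (0 : ℝ) < 2 ^ m := by positivity
            nlinarith
      · simp only [Fin.sum_univ_three]
        simp only [Fin.mk_one, Matrix.of_apply, Matrix.cons_val', Matrix.cons_val_zero,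
          Matrix.cons_val_one, Matrix.cons_val, Int.cast_natCast, zero_mul, add_zero,
          Nat.cast_ofNat]
        have h7 : √(c₁ : ℝ) * (Y m 0 : ℝ) + -√(c₂ : ℝ) * (Y m 1 : ℝ) =
            √c₁ * (Y m 0 : ℝ) - √c₂ * (Y m 1 : ℝ) := by ring
        rw [h7]
        refine h4.trans (mul_le_mul_of_nonneg_right (by linarith) h6.le)
      · simp only [Fin.sum_univ_three]
        simp only [Fin.reduceFinMk, Matrix.of_apply, Matrix.cons_val', Matrix.cons_val_zero,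
          Matrix.cons_val_one, Matrix.cons_val, Int.cast_natCast, zero_mul, add_zero,
          Nat.cast_ofNat]
        have h7 : √(c₁ : ℝ) * (Y m 0 : ℝ) + -√(c₃ : ℝ) * (Y m 2 : ℝ) =
            √c₁ * (Y m 0 : ℝ) - √c₃ * (Y m 2 : ℝ) := by ring
        rw [h7]
        refine h5.trans (mul_le_mul_of_nonneg_right (by linarith) h6.le))
    (1 / 4) (by norm_num)
    (by
      intro m _
      have hl : 0 < Real.log 2 := Real.log_pos (by norm_num)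
      have hm : (0 : ℝ) ≤ m := Nat.cast_nonneg m
      have := mul_nonneg hm hl.le
      simp only [Fin.sum_univ_three, Matrix.cons_val_zero, Matrix.cons_val_one, Matrix.cons_val,
        Nat.cast_one, Real.log_one, Nat.cast_ofNat]
      nlinarith)
  -- the limit
  set θ : ℝ := |(y 0 : ℝ) / √c₁ + (y 1 : ℝ) / √c₂ + (y 2 : ℝ) / √c₃| with hθ
  have hθ0 : θ = 0 := by
    by_contra hne
    have hθpos : 0 < θ := lt_of_le_of_ne (abs_nonneg _) (Ne.symm hne)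
    set E : ℝ := (|(y 1 : ℝ)| + |(y 2 : ℝ)|) * c₁ with hE
    obtain ⟨M, hM⟩ := pow_unbounded_of_one_lt (E / θ) (by norm_num : (1 : ℝ) < 2)
    obtain ⟨m, hmM, hPm, hrel⟩ := (Filter.frequently_atTop.1 hy) M
    obtain ⟨h1, h2, h3⟩ := hY m hPm
    obtain ⟨h4, h5⟩ := hsm m hPm
    have h6 : (2 : ℝ) ^ (-(3 / 4) * (m : ℝ) : ℝ) ≤ 1 :=
      Real.rpow_le_one_of_one_le_of_nonpos (by norm_num) (by
        have : (0 : ℝ) ≤ m := Nat.cast_nonneg m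
        linarith)
    have h4' : |√c₁ * (Y m 0 : ℝ) - √c₂ * (Y m 1 : ℝ)| ≤ c₁ :=
      h4.trans (mul_le_of_le_one_right (by linarith) h6)
    have h5' : |√c₁ * (Y m 0 : ℝ) - √c₃ * (Y m 2 : ℝ)| ≤ c₁ :=
      h5.trans (mul_le_of_le_one_right (by linarith) h6)
    rw [Fin.sum_univ_three] at hrel
    have hrelR : (y 0 : ℝ) * Y m 0 + y 1 * Y m 1 + y 2 * Y m 2 = 0 := by exact_mod_cast hrel
    have h7 : ((y 0 : ℝ) / √c₁ + (y 1 : ℝ) / √c₂ + (y 2 : ℝ) / √c₃) * (√c₁ * Y m 0) =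
        (y 1 : ℝ) / √c₂ * (√c₁ * Y m 0 - √c₂ * Y m 1) +
        (y 2 : ℝ) / √c₃ * (√c₁ * Y m 0 - √c₃ * Y m 2) := by
      have e1 : (y 0 : ℝ) / √c₁ * (√c₁ * Y m 0) = y 0 * Y m 0 := by field_simp
      have e2 : (y 1 : ℝ) / √c₂ * (√c₂ * Y m 1) = y 1 * Y m 1 := by field_simp
      have e3 : (y 2 : ℝ) / √c₃ * (√c₃ * Y m 2) = y 2 * Y m 2 := by field_simp
      linear_combination e1 + e2 + e3 + hrelR
    have h8 : θ * (√c₁ * Y m 0) ≤ E := by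
      have h9 : θ * (√c₁ * Y m 0) =
          |((y 0 : ℝ) / √c₁ + (y 1 : ℝ) / √c₂ + (y 2 : ℝ) / √c₃) * (√c₁ * Y m 0)| := by
        rw [abs_mul, abs_of_nonneg (show (0 : ℝ) ≤ √c₁ * Y m 0 by positivity)]
      rw [h9, h7]
      refine (abs_add_le _ _).trans ?_
      rw [abs_mul, abs_mul, hE, add_mul]
      have g : ∀ (w : ℝ) (s : ℝ), 1 ≤ s → |w / s| ≤ |w| := by
        intro w s hs
        have hs0 : (0 : ℝ) < s := by linarith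
        rw [abs_div, abs_of_pos hs0]
        exact div_le_self (abs_nonneg _) hs
      apply add_le_add
      · exact mul_le_mul (g _ _ s₂') h4' (abs_nonneg _) (abs_nonneg _)
      · exact mul_le_mul (g _ _ s₃') h5' (abs_nonneg _) (abs_nonneg _)
    have h9 : (2 : ℝ) ^ M ≤ √c₁ * Y m 0 := by
      have h10 : (2 : ℝ) ^ M ≤ 2 ^ m := pow_le_pow_right₀ (by norm_num) hmM
      have h11 : ((2 : ℝ) ^ m) ≤ Y m 0 := by exact_mod_cast h1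
      have h12 : (0 : ℝ) ≤ Y m 0 := Nat.cast_nonneg _
      nlinarith
    rw [div_lt_iff₀ hθpos] at hM
    have := mul_le_mul_of_nonneg_left h9 hθpos.le
    linarith
  have hsum : (y 0 : ℝ) / √c₁ + (y 1 : ℝ) / √c₂ + (y 2 : ℝ) / √c₃ = 0 := abs_eq_zero.1 hθ0
  obtain ⟨e0, e1, e2⟩ := indep c₁ c₂ c₃ h₁ h₂ h₃ i₁₂ i₁₃ i₂₃ _ _ _ hsum
  apply hy0
  funext i
  fin_cases i
  · exact e0
  · exact e1
  · exact e2

theorem pow_gap (κ C : ℝ) (hκ : 0 < κ) : ∃ Y₀ : ℝ, ∀ Y : ℝ, Y₀ ≤ Y → 1 ≤ Y → C * Y ^ (1 / 4 : ℝ) < κ * Y := by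
  set B : ℝ := (1 + |C| / κ) ^ 4 with hB
  have h0 : 0 ≤ |C| / κ := by positivity
  refine ⟨B, fun Y hY hY1 => ?_⟩
  have h1 : 1 + |C| / κ ≤ Y ^ (1 / 4 : ℝ) := by
    have h2 : 1 + |C| / κ = B ^ (1 / 4 : ℝ) := by
      rw [hB, ← Real.rpow_natCast, ← Real.rpow_mul (by positivity)]; norm_num
    rw [h2]
    exact Real.rpow_le_rpow (by positivity) hY (by norm_num)
  have h3 : 1 ≤ Y ^ (1 / 4 : ℝ) := by linarith
  have h4 : Y = Y ^ (1 / 4 : ℝ) * Y ^ (3 / 4 : ℝ) := by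
    rw [← Real.rpow_add (by linarith)]; norm_num
  have h5 : Y ^ (1 / 4 : ℝ) ≤ Y ^ (3 / 4 : ℝ) := Real.rpow_le_rpow_of_exponent_le hY1 (by norm_num)
  have h6 : 0 < Y ^ (1 / 4 : ℝ) := by linarith
  have h7 : |C| < κ * Y ^ (3 / 4 : ℝ) := by
    have h8 : κ * (1 + |C| / κ) ≤ κ * Y ^ (3 / 4 : ℝ) := mul_le_mul_of_nonneg_left (h1.trans h5) hκ.le
    have h9 : κ * (1 + |C| / κ) = κ + |C| := by field_simp
    linarith
  conv_rhs => rw [h4]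
  have h8 : C ≤ |C| := le_abs_self C
  nlinarith

/-- Three numbers `c Y ^ 2` are not close to each other. -/
theorem three (c₁ c₂ c₃ : ℕ) (h₁ : 1 ≤ c₁) (h₂ : 1 ≤ c₂) (h₃ : 1 ≤ c₃) :
    ∃ X₀ : ℝ, ∀ Y : Fin 3 → ℕ, X₀ ≤ (c₁ : ℝ) * (Y 0 : ℝ) ^ 2 → c₁ * Y 0 ^ 2 ≠ c₂ * Y 1 ^ 2 →
      c₁ * Y 0 ^ 2 ≠ c₃ * Y 2 ^ 2 → c₂ * Y 1 ^ 2 ≠ c₃ * Y 2 ^ 2 → ¬ Near c₁ c₂ c₃ Y := by
  have p₁ : (1 : ℝ) ≤ c₁ := by exact_mod_cast h₁
  have p₂ : (1 : ℝ) ≤ c₂ := by exact_mod_cast h₂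
  -- from a bound for `Y 0` to a bound for `c₁ (Y 0) ^ 2`
  have hconv : ∀ B : ℝ, ∀ y : ℕ, (c₁ : ℝ) * (|B| + 2) ^ 2 ≤ c₁ * (y : ℝ) ^ 2 → B ≤ y ∧ (2 : ℝ) ≤ y := by
    intro B y h
    have h1 := le_of_mul_le_mul_left h (by linarith)
    have h2 := le_of_pow_le_pow_left₀ (by norm_num) (Nat.cast_nonneg y) h1
    have h3 := le_abs_self B
    have h4 := abs_nonneg B
    constructor <;> linarith
  by_cases i₁₂ : Irrational (√((c₂ : ℝ) / c₁))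
  · by_cases i₁₃ : Irrational (√((c₃ : ℝ) / c₁))
    · by_cases i₂₃ : Irrational (√((c₃ : ℝ) / c₂))
      · obtain ⟨Y₀, h⟩ := three_irr c₁ c₂ c₃ h₁ h₂ h₃ i₁₂ i₁₃ i₂₃
        refine ⟨c₁ * (|(Y₀ : ℝ)| + 2) ^ 2, fun Y hY _ _ _ => h Y ?_⟩
        exact_mod_cast (hconv Y₀ (Y 0) hY).1
      · obtain ⟨κ, hκ, h⟩ := rat2 c₂ c₃ h₂ h₃ i₂₃
        obtain ⟨Y₀, hY₀⟩ := pow_gap (κ / (2 * c₂)) (2 * c₁) (by positivity)
        refine ⟨c₁ * (|Y₀| + 2) ^ 2, fun Y hY _ _ hne hN => ?_⟩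
        obtain ⟨hB, hY2⟩ := hconv Y₀ (Y 0) hY
        have hY1 : (1 : ℝ) ≤ Y 0 := by linarith
        have h1 := h (Y 1) (Y 2) hne
        have h2 := hY₀ _ hB hY1
        obtain ⟨n1, n2⟩ := hN
        have hv := vpow_le c₁ h₁ (Y 0) hY1
        have h3 : |(c₂ : ℝ) * (Y 1 : ℝ) ^ 2 - (c₃ : ℝ) * (Y 2 : ℝ) ^ 2| ≤
            2 * (c₁ * (Y 0 : ℝ) ^ (1 / 4 : ℝ)) := by
          have e : (c₂ : ℝ) * (Y 1 : ℝ) ^ 2 - (c₃ : ℝ) * (Y 2 : ℝ) ^ 2 =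
              -((c₁ : ℝ) * (Y 0 : ℝ) ^ 2 - (c₂ : ℝ) * (Y 1 : ℝ) ^ 2) +
              ((c₁ : ℝ) * (Y 0 : ℝ) ^ 2 - (c₃ : ℝ) * (Y 2 : ℝ) ^ 2) := by ring
          rw [e]
          refine (abs_add_le _ _).trans ?_
          rw [abs_neg]
          linarith
        -- lower bound for `Y 1`
        have h4 : (Y 0 : ℝ) / (2 * c₂) ≤ Y 1 := by
          have h5 : (Y 0 : ℝ) ^ (1 / 4 : ℝ) ≤ Y 0 := by
            calc (Y 0 : ℝ) ^ (1 / 4 : ℝ) ≤ (Y 0 : ℝ) ^ (1 : ℝ) :=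
                  Real.rpow_le_rpow_of_exponent_le hY1 (by norm_num)
              _ = Y 0 := Real.rpow_one _
          by_contra hlt
          push Not at hlt
          have h6 : (Y 1 : ℝ) * (2 * c₂) < Y 0 := by rwa [lt_div_iff₀ (by positivity)] at hlt
          have h7 : (0 : ℝ) ≤ Y 1 := Nat.cast_nonneg _
          have h8 := le_abs_self ((c₁ : ℝ) * (Y 0 : ℝ) ^ 2 - (c₂ : ℝ) * (Y 1 : ℝ) ^ 2)
          have h9 : (c₂ : ℝ) * (Y 1 : ℝ) ^ 2 ≤ (Y 0 : ℝ) ^ 2 / 4 := by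
            have h10 : ((Y 1 : ℝ) * (2 * c₂)) ^ 2 ≤ (Y 0 : ℝ) ^ 2 :=
              pow_le_pow_left₀ (by positivity) h6.le 2
            have h11 : (Y 1 : ℝ) ^ 2 * c₂ ≤ (Y 1 : ℝ) ^ 2 * (c₂ * c₂) :=
              mul_le_mul_of_nonneg_left (by nlinarith) (by positivity)
            nlinarith
          have h10 : (c₁ : ℝ) * (Y 0 : ℝ) ^ 2 - (Y 0 : ℝ) ^ 2 / 4 ≤ c₁ * (Y 0 : ℝ) ^ (1 / 4 : ℝ) := by
            linarith
          -- contradiction only for large values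
          have h11 : 2 * (c₁ : ℝ) * (Y 0 : ℝ) ^ (1 / 4 : ℝ) < κ / (2 * c₂) * Y 0 := h2
          have h12 : (3 / 4 : ℝ) * c₁ * (Y 0 : ℝ) ^ 2 ≤ c₁ * (Y 0 : ℝ) ^ (1 / 4 : ℝ) := by nlinarith
          have h13 : (3 / 4 : ℝ) * (Y 0 : ℝ) ^ 2 ≤ (Y 0 : ℝ) ^ (1 / 4 : ℝ) := by
            have h14 : (c₁ : ℝ) * ((3 / 4 : ℝ) * (Y 0 : ℝ) ^ 2) ≤ c₁ * (Y 0 : ℝ) ^ (1 / 4 : ℝ) := by
              linarith
            exact le_of_mul_le_mul_left h14 (by linarith)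
          have h14 : (3 / 4 : ℝ) * (Y 0 : ℝ) ^ 2 ≤ Y 0 := h13.trans h5
          have h15 : (3 / 4 : ℝ) * (Y 0 : ℝ) ≤ 1 := by
            have h16 : (Y 0 : ℝ) * ((3 / 4 : ℝ) * (Y 0 : ℝ)) ≤ Y 0 * 1 := by nlinarith
            exact le_of_mul_le_mul_left h16 (by linarith)
          linarith
        have h5 : κ * ((Y 0 : ℝ) / (2 * c₂)) ≤ 2 * (c₁ * (Y 0 : ℝ) ^ (1 / 4 : ℝ)) :=
          (mul_le_mul_of_nonneg_left h4 hκ.le).trans (h1.trans h3)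
        have h6 : κ * ((Y 0 : ℝ) / (2 * c₂)) = κ / (2 * c₂) * Y 0 := by ring
        rw [h6] at h5
        linarith
    · obtain ⟨κ, hκ, h⟩ := rat2 c₁ c₃ h₁ h₃ i₁₃
      obtain ⟨Y₀, hY₀⟩ := pow_gap κ c₁ hκ
      refine ⟨c₁ * (|Y₀| + 2) ^ 2, fun Y hY _ hne _ hN => ?_⟩
      obtain ⟨hB, hY2⟩ := hconv Y₀ (Y 0) hY
      have hY1 : (1 : ℝ) ≤ Y 0 := by linarith
      have h1 := h (Y 0) (Y 2) hne
      have h2 := hY₀ _ hB hY1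
      have h3 := hN.2.trans (vpow_le c₁ h₁ (Y 0) hY1)
      linarith
  · obtain ⟨κ, hκ, h⟩ := rat2 c₁ c₂ h₁ h₂ i₁₂
    obtain ⟨Y₀, hY₀⟩ := pow_gap κ c₁ hκ
    refine ⟨c₁ * (|Y₀| + 2) ^ 2, fun Y hY hne _ _ hN => ?_⟩
    obtain ⟨hB, hY2⟩ := hconv Y₀ (Y 0) hY
    have hY1 : (1 : ℝ) ≤ Y 0 := by linarith
    have h1 := h (Y 0) (Y 1) hne
    have h2 := hY₀ _ hB hY1
    have h3 := hN.1.trans (vpow_le c₁ h₁ (Y 0) hY1)
    linarith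

end Pool.Agent.H977.PW
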