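import Mathlib
import Pool.Agent.H977.SP.Traj
import Pool.Agent.H977.PW.Three

set_option autoImplicit false

/-!
Perfect powers in short pieces of the trajectories of Collatz type maps.
-/

open Finset Filter Topology

namespace Pool.Agent.H977.PW

open Pool.Agent.H977.SP

/-- numbers composed of given primes, up to bounded factors and `k`-th powers -/
theorem repr (S : Finset ℕ) (k : ℕ) (hk : 0 < k) : ∃ Bd : ℕ, ∀ w : ℕ, w ≠ 0 →
    (∀ p : ℕ, p.Prime → p ∣ w → p ∈ S) → ∃ c v : ℕ, 1 ≤ c ∧ c ≤ Bd ∧ w = c * v ^ k := by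
  refine ⟨∏ p ∈ S, (p + 1) ^ k, ?_⟩
  intro w hw hS
  have hsub : w.primeFactors ⊆ S := fun p hp =>
    hS p (Nat.prime_of_mem_primeFactors hp) (Nat.dvd_of_mem_primeFactors hp)
  refine ⟨∏ p ∈ w.primeFactors, p ^ (w.factorization p % k),
    ∏ p ∈ w.primeFactors, p ^ (w.factorization p / k), ?_, ?_, ?_⟩
  · apply Finset.one_le_prod'
    intro p hp
    exact Nat.one_le_pow _ _ (Nat.prime_of_mem_primeFactors hp).pos
  · calc ∏ p ∈ w.primeFactors, p ^ (w.factorization p % k)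
        ≤ ∏ p ∈ w.primeFactors, (p + 1) ^ k := by
          apply Finset.prod_le_prod' 
          intro p hp
          calc p ^ (w.factorization p % k) ≤ (p + 1) ^ (w.factorization p % k) :=
                Nat.pow_le_pow_left (Nat.le_succ p) _
            _ ≤ (p + 1) ^ k := Nat.pow_le_pow_right (Nat.succ_pos p) (Nat.mod_lt _ hk).le
      _ ≤ ∏ p ∈ S, (p + 1) ^ k := by
          apply Finset.prod_le_prod_of_subset_of_one_le' hsub
          intro p _ _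
          exact Nat.one_le_pow _ _ (Nat.succ_pos p)
  · rw [← Finset.prod_pow, ← Finset.prod_mul_distrib]
    conv_lhs => rw [← Nat.prod_factorization_pow_eq_self hw]
    apply Finset.prod_congr rfl
    intro p _
    rw [← pow_mul, ← pow_add]
    congr 1
    exact (Nat.mod_add_div' _ _).symm

variable {a b : ℤ} {r : ℕ} (ha : a % 2 = 1) (hb : b % 2 = 1) (hr : r ≤ 1)

include ha hb hr in
/-- the integers with different powers of two, explicit form -/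
theorem parts2 (x : ℤ) (n : ℕ) : ∃ X : ℤ, ∃ F : ℕ → ℤ,
    |x| ≤ |X| ∧ |X| ≤ (|a| + 2) ^ n * |x| ∧
    (∀ i ≤ n, |F i - X| ≤ |b| * (|a| + 2) ^ n) ∧
    (∀ i ≤ n, ∃ e f : ℕ, F i = a ^ e * (2 ^ f * (G a b r)^[i] x)) ∧
    (∀ i ≤ n, ∀ j ≤ n, (G a b r)^[i] x % 2 = 1 → (G a b r)^[j] x % 2 = 1 → F i = F j → i = j) := by
  have ha1 : 1 ≤ |a| := Int.one_le_abs (by rintro rfl; omega)
  have ha0 : a ≠ 0 := by rintro rfl; omega
  set K := kk a b r x n with hK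
  have hKn : K ≤ n := by
    have := (kk_mono (a := a) (b := b) (r := r) x (Nat.zero_le n)).2
    rw [kk] at this
    omega
  refine ⟨a ^ K * x, fun i => a ^ (K - kk a b r x i) * (2 ^ (hh a b r x i) * (G a b r)^[i] x),
    ?_, ?_, ?_, ?_, ?_⟩
  · rw [abs_mul, abs_pow]
    have h1 : 1 ≤ |a| ^ K := one_le_pow₀ ha1
    have := abs_nonneg x
    nlinarith
  · rw [abs_mul, abs_pow]
    apply mul_le_mul_of_nonneg_right _ (abs_nonneg x)
    calc |a| ^ K ≤ (|a| + 2) ^ K := pow_le_pow_left₀ (abs_nonneg a) (by omega) K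
      _ ≤ (|a| + 2) ^ n := pow_le_pow_right₀ (by omega) hKn
  · intro i hi
    obtain ⟨c, h1, h2⟩ := form ha hb hr x i
    obtain ⟨h3, h4⟩ := kk_mono (a := a) (b := b) (r := r) x hi
    beta_reduce
    rw [h1]
    have h5 : a ^ (K - kk a b r x i) * (a ^ (kk a b r x i) * x + c) - a ^ K * x =
        a ^ (K - kk a b r x i) * c := by
      have h6 : a ^ K = a ^ (K - kk a b r x i) * a ^ (kk a b r x i) := by
        rw [← pow_add, Nat.sub_add_cancel h3]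
      rw [h6]; ring
    rw [h5, abs_mul, abs_pow]
    have h7 : |a| ^ (K - kk a b r x i) ≤ (|a| + 2) ^ (n - i) :=
      calc |a| ^ (K - kk a b r x i) ≤ (|a| + 2) ^ (K - kk a b r x i) :=
            pow_le_pow_left₀ (abs_nonneg a) (by omega) _
        _ ≤ (|a| + 2) ^ (n - i) := pow_le_pow_right₀ (by omega) h4
    calc |a| ^ (K - kk a b r x i) * |c| ≤ (|a| + 2) ^ (n - i) * (|b| * (|a| + 2) ^ i) := by
          gcongr
      _ = |b| * ((|a| + 2) ^ (n - i) * (|a| + 2) ^ i) := by ring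
      _ = |b| * (|a| + 2) ^ n := by rw [← pow_add, Nat.sub_add_cancel hi]
  · intro i _
    exact ⟨_, _, rfl⟩
  · -- injectivity
    have key : ∀ i j, i < j → (G a b r)^[i] x % 2 = 1 → (G a b r)^[j] x % 2 = 1 →
        a ^ (K - kk a b r x i) * (2 ^ (hh a b r x i) * (G a b r)^[i] x) ≠
        a ^ (K - kk a b r x j) * (2 ^ (hh a b r x j) * (G a b r)^[j] x) := by
      intro i j hij hi hj h
      have h1 := hh_lt ha hb hr x hij hi hj
      obtain ⟨e, he⟩ := Nat.exists_eq_add_of_lt h1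
      rw [he, add_assoc, pow_add (2 : ℤ) (hh a b r x i)] at h
      have h2 : (2 : ℤ) ^ (hh a b r x i) ≠ 0 := by positivity
      have h3 : a ^ (K - kk a b r x i) * (G a b r)^[i] x =
          2 * (2 ^ e * (a ^ (K - kk a b r x j) * (G a b r)^[j] x)) := by
        apply mul_left_cancel₀ h2
        rw [pow_succ] at h
        linear_combination h
      have h4 : (a ^ (K - kk a b r x i) * (G a b r)^[i] x) % 2 = 1 := by
        have h5 : a ^ (K - kk a b r x i) % 2 = 1 := Int.odd_iff.1 ((Int.odd_iff.2 ha).pow)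
        rw [Int.mul_emod, h5, hi]; norm_num
      omega
    intro i _ j _ ho1 ho2 h
    rcases Nat.lt_trichotomy i j with h1 | h1 | h1
    · exact absurd h (key i j h1 ho1 ho2)
    · exact h1
    · exact absurd h.symm (key j i h1 ho2 ho1)

include ha hb hr in
/-- the multiples of the odd terms of a short piece are close to each other -/
theorem near : ∃ c : ℝ, 0 < c ∧ ∃ x₀ : ℝ, ∀ x : ℤ, x₀ ≤ |(x : ℝ)| → ∀ n : ℕ,
    (n : ℝ) ≤ c * Real.log |(x : ℝ)| → ∃ N : ℕ → ℕ,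
      (∀ i ≤ n, (∃ e f : ℕ, N i = a.natAbs ^ e * (2 ^ f * ((G a b r)^[i] x).natAbs)) ∧
        |(x : ℝ)| / 2 ≤ N i) ∧
      (∀ i ≤ n, ∀ j ≤ n, (G a b r)^[i] x % 2 = 1 → (G a b r)^[j] x % 2 = 1 → i ≠ j → N i ≠ N j) ∧
      (∀ i ≤ n, ∀ j ≤ n, |(N i : ℝ) - N j| ≤ (N i : ℝ) ^ (1 / 8 : ℝ)) := by
  have hb0 : b ≠ 0 := by rintro rfl; omega
  set A : ℝ := Real.log (|(a : ℝ)| + 2) with hA
  have hA0 : 0 < A := Real.log_pos (by have := abs_nonneg (a : ℝ); linarith)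
  have hbR : (1 : ℝ) ≤ |(b : ℝ)| := by rw [← Int.cast_abs]; exact_mod_cast Int.one_le_abs hb0
  have hlog2 : 0 < Real.log 2 := Real.log_pos (by norm_num)
  refine ⟨1 / (64 * A), by positivity,
    Real.exp (64 * (Real.log |(b : ℝ)| + 4 * Real.log 2) + 1), ?_⟩
  intro x hx n hn
  have hlb0 : 0 ≤ Real.log |(b : ℝ)| := Real.log_nonneg hbR
  have hx0 : 0 < |(x : ℝ)| := lt_of_lt_of_le (Real.exp_pos _) hx
  set L := Real.log |(x : ℝ)| with hL
  have hL1 : 64 * (Real.log |(b : ℝ)| + 4 * Real.log 2) + 1 ≤ L := (Real.le_log_iff_exp_le hx0).2 hx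
  have hxL : |(x : ℝ)| = Real.exp L := (Real.exp_log hx0).symm
  have hnA : (n : ℝ) * A ≤ L / 64 := by
    have h1 := mul_le_mul_of_nonneg_right hn hA0.le
    have h2 : 1 / (64 * A) * L * A = L / 64 := by field_simp
    linarith
  obtain ⟨X, F, h1, h2, h3, h4, h5⟩ := parts2 ha hb hr x n
  have h1R : |(x : ℝ)| ≤ |(X : ℝ)| := by
    rw [← Int.cast_abs, ← Int.cast_abs]; exact_mod_cast h1
  -- the distances
  set D : ℝ := |(b : ℝ)| * (|(a : ℝ)| + 2) ^ n with hD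
  have hDexp : D = Real.exp (Real.log |(b : ℝ)| + n * A) := by
    rw [hD, Real.exp_add, Real.exp_log (by linarith), Real.exp_nat_mul,
      Real.exp_log (by have := abs_nonneg (a : ℝ); linarith)]
  have hdist : ∀ i ≤ n, |(F i : ℝ) - X| ≤ D := by
    intro i hi
    have h6 := h3 i hi
    have h7 : (F i : ℝ) - X = ((F i - X : ℤ) : ℝ) := by push_cast; ring
    rw [h7, hD, ← Int.cast_abs, ← Int.cast_abs, ← Int.cast_abs]; exact_mod_cast h6
  have hD4 : 4 * D ≤ Real.exp (L / 16) := by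
    have h6 : (4 : ℝ) = Real.exp (2 * Real.log 2) := by
      rw [two_mul, Real.exp_add, Real.exp_log (by norm_num)]; norm_num
    rw [h6, hDexp, ← Real.exp_add]
    apply Real.exp_le_exp.2
    nlinarith
  have hDX : D ≤ |(x : ℝ)| / 4 := by
    have h6 : Real.exp (L / 16) ≤ Real.exp L := Real.exp_le_exp.2 (by nlinarith)
    rw [hxL]; linarith
  have hDpos : 0 < D := by rw [hDexp]; exact Real.exp_pos _
  -- all `F i` have the sign of `X`
  have hcast : ∀ i, (((F i).natAbs : ℕ) : ℝ) = |(F i : ℝ)| := by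
    intro i
    rw [← Int.cast_abs, Int.abs_eq_natAbs, Int.cast_natCast]
  have hlow : ∀ i ≤ n, |(x : ℝ)| / 2 ≤ |(F i : ℝ)| := by
    intro i hi
    have h6 := hdist i hi
    have h7 : |(X : ℝ)| ≤ |(F i : ℝ)| + |(F i : ℝ) - X| := by
      have := abs_sub_abs_le_abs_sub (X : ℝ) (F i)
      rw [abs_sub_comm] at this
      linarith
    linarith
  have hdiff : ∀ i ≤ n, ∀ j ≤ n, |(F i : ℝ) - F j| ≤ 2 * D := by
    intro i hi j hj
    have h6 := hdist i hi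
    have h7 := hdist j hj
    have h8 : (F i : ℝ) - F j = (F i - X) - (F j - X) := by ring
    rw [h8]
    refine (abs_sub _ _).trans ?_
    linarith
  refine ⟨fun i => (F i).natAbs, ?_, ?_, ?_⟩
  · intro i hi
    refine ⟨?_, ?_⟩
    · obtain ⟨e, f, hef⟩ := h4 i hi
      refine ⟨e, f, ?_⟩
      beta_reduce
      rw [hef, Int.natAbs_mul, Int.natAbs_mul, Int.natAbs_pow, Int.natAbs_pow]
      rfl
    · beta_reduce
      rw [hcast]; exact hlow i hi
  · intro i hi j hj ho1 ho2 hij heq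
    apply hij
    apply h5 i hi j hj ho1 ho2
    beta_reduce at heq
    rcases Int.natAbs_eq_natAbs_iff.1 heq with h6 | h6
    · exact h6
    · exfalso
      have h7 := hdiff i hi j hj
      have h8 : (F i : ℝ) - F j = 2 * F i := by
        have : (F i : ℝ) = -F j := by rw [h6]; push_cast; ring
        linarith
      rw [h8, abs_mul, abs_two] at h7
      have h9 := hlow i hi
      have h10 : D ≤ |(x : ℝ)| / 4 := hDX
      linarith
  · intro i hi j hj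
    beta_reduce
    rw [hcast, hcast]
    refine (abs_abs_sub_abs_le _ _).trans ((hdiff i hi j hj).trans ?_)
    have h6 : Real.exp (L / 16) ≤ |(F i : ℝ)| ^ (1 / 8 : ℝ) := by
      have h7 : Real.exp (L / 2) ≤ |(F i : ℝ)| := by
        refine le_trans ?_ (hlow i hi)
        rw [hxL, le_div_iff₀ (by norm_num)]
        have h8 : Real.exp (L / 2) * 2 = Real.exp (L / 2 + Real.log 2) := by
          rw [Real.exp_add, Real.exp_log (by norm_num)]
        rw [h8]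
        apply Real.exp_le_exp.2
        nlinarith
      have h8 : Real.exp (L / 16) = Real.exp (L / 2) ^ (1 / 8 : ℝ) := by
        rw [← Real.exp_mul]; congr 1; ring
      rw [h8]
      exact Real.rpow_le_rpow (Real.exp_pos _).le h7 (by norm_num)
    linarith

/-- `z` is odd and the product of a number composed of primes of `S` and a `k`-th power. -/
def UP (S : Finset ℕ) (k : ℕ) (z : ℤ) : Prop :=
  z % 2 = 1 ∧ ∃ u y : ℤ, z = u * y ^ k ∧ ∀ p : ℕ, p.Prime → (p : ℤ) ∣ u → p ∈ S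

open Classical in
include ha hb hr in
/-- the number of terms `u y ^ k` in a short piece of a trajectory -/
theorem pow_count (S : Finset ℕ) (k : ℕ) (hk : 2 ≤ k) :
    ∃ c : ℝ, 0 < c ∧ ∃ x₀ : ℝ, ∀ x : ℤ, x₀ ≤ |(x : ℝ)| → ∀ n : ℕ,
      (n : ℝ) ≤ c * Real.log |(x : ℝ)| →
      ((range (n + 1)).filter fun i => UP S k ((G a b r)^[i] x)).card ≤ if k = 2 then 2 else 1 := by
  obtain ⟨c, hc, x₁, hN⟩ := near ha hb hr
  obtain ⟨Bd, hBd⟩ := repr (S ∪ ({2} ∪ a.natAbs.primeFactors)) k (by omega)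
  have ha0 : a ≠ 0 := by rintro rfl; omega
  -- the representation of the terms
  have hrep : ∀ (x : ℤ) (n : ℕ) (N : ℕ → ℕ), (∀ i ≤ n, (∃ e f : ℕ, N i = a.natAbs ^ e *
      (2 ^ f * ((G a b r)^[i] x).natAbs)) ∧ |(x : ℝ)| / 2 ≤ N i) →
      ∀ i ∈ (range (n + 1)).filter fun i => UP S k ((G a b r)^[i] x),
      ∃ d Y : ℕ, 1 ≤ d ∧ d ≤ Bd ∧ N i = d * Y ^ k := by
    intro x n N hN1 i hi
    rw [Finset.mem_filter, Finset.mem_range] at hi
    obtain ⟨hin, hodd, u, y, huy, hu⟩ := hi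
    obtain ⟨⟨e, f, hef⟩, -⟩ := hN1 i (by omega)
    have hz0 : (G a b r)^[i] x ≠ 0 := by intro h; omega
    have hu0 : u ≠ 0 := by rintro rfl; rw [zero_mul] at huy; exact hz0 huy
    have hw0 : a.natAbs ^ e * (2 ^ f * u.natAbs) ≠ 0 := by
      have h1 : a.natAbs ≠ 0 := Int.natAbs_ne_zero.2 ha0
      have h2 : u.natAbs ≠ 0 := Int.natAbs_ne_zero.2 hu0
      positivity
    obtain ⟨d, v, hd1, hd2, hdv⟩ := hBd _ hw0 (by
      intro p hp hdiv
      rw [Finset.mem_union, Finset.mem_union, Finset.mem_singleton]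
      rcases (hp.dvd_mul).1 hdiv with h | h
      · exact Or.inr (Or.inr (Nat.mem_primeFactors.2 ⟨hp, hp.dvd_of_dvd_pow h,
          Int.natAbs_ne_zero.2 ha0⟩))
      · rcases (hp.dvd_mul).1 h with h | h
        · exact Or.inr (Or.inl ((Nat.prime_dvd_prime_iff_eq hp Nat.prime_two).1
            (hp.dvd_of_dvd_pow h)))
        · exact Or.inl (hu p hp (Int.natCast_dvd.2 h)))
    refine ⟨d, v * y.natAbs, hd1, hd2, ?_⟩
    rw [hef, huy, Int.natAbs_mul, Int.natAbs_pow, mul_pow]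
    calc a.natAbs ^ e * (2 ^ f * (u.natAbs * y.natAbs ^ k)) =
        (a.natAbs ^ e * (2 ^ f * u.natAbs)) * y.natAbs ^ k := by ring
      _ = d * (v ^ k * y.natAbs ^ k) := by rw [hdv]; ring
  by_cases hk2 : k = 2
  · subst hk2
    rw [if_pos rfl]
    -- squares
    have hex : ∀ c₁ c₂ c₃ : ℕ, ∃ X₀ : ℝ, 1 ≤ c₁ → 1 ≤ c₂ → 1 ≤ c₃ → ∀ Y : Fin 3 → ℕ,
        X₀ ≤ (c₁ : ℝ) * (Y 0 : ℝ) ^ 2 → c₁ * Y 0 ^ 2 ≠ c₂ * Y 1 ^ 2 →
        c₁ * Y 0 ^ 2 ≠ c₃ * Y 2 ^ 2 → c₂ * Y 1 ^ 2 ≠ c₃ * Y 2 ^ 2 → ¬ Near c₁ c₂ c₃ Y := by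
      intro c₁ c₂ c₃
      by_cases h : 1 ≤ c₁ ∧ 1 ≤ c₂ ∧ 1 ≤ c₃
      · obtain ⟨X₀, hX⟩ := three c₁ c₂ c₃ h.1 h.2.1 h.2.2
        exact ⟨X₀, fun _ _ _ => hX⟩
      · exact ⟨0, fun h1 h2 h3 => absurd ⟨h1, h2, h3⟩ h⟩
    choose X₀ hX₀ using hex
    set T : ℝ := ∑ c₁ ∈ range (Bd + 1), ∑ c₂ ∈ range (Bd + 1), ∑ c₃ ∈ range (Bd + 1), |X₀ c₁ c₂ c₃|
      with hT
    have hTle : ∀ c₁ c₂ c₃, c₁ ≤ Bd → c₂ ≤ Bd → c₃ ≤ Bd → X₀ c₁ c₂ c₃ ≤ T := by
      intro c₁ c₂ c₃ h1 h2 h3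
      refine (le_abs_self _).trans ?_
      refine (Finset.single_le_sum (f := fun c₃ => |X₀ c₁ c₂ c₃|) (fun _ _ => abs_nonneg _)
        (Finset.mem_range.2 (Nat.lt_succ_of_le h3))).trans ?_
      refine (Finset.single_le_sum (f := fun c₂ => ∑ c₃ ∈ range (Bd + 1), |X₀ c₁ c₂ c₃|)
        (fun _ _ => Finset.sum_nonneg fun _ _ => abs_nonneg _)
        (Finset.mem_range.2 (Nat.lt_succ_of_le h2))).trans ?_
      exact Finset.single_le_sum (f := fun c₁ => ∑ c₂ ∈ range (Bd + 1), ∑ c₃ ∈ range (Bd + 1),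
        |X₀ c₁ c₂ c₃|) (fun _ _ => Finset.sum_nonneg fun _ _ => Finset.sum_nonneg fun _ _ =>
          abs_nonneg _) (Finset.mem_range.2 (Nat.lt_succ_of_le h1))
    refine ⟨c, hc, max x₁ (2 * T), ?_⟩
    intro x hx n hn
    obtain ⟨N, hN1, hN2, hN3⟩ := hN x ((le_max_left _ _).trans hx) n hn
    by_contra hcon
    rw [not_le] at hcon
    obtain ⟨i, j, l, hi, hj, hl, hij, hil, hjl⟩ := Finset.two_lt_card_iff.1 hcon
    obtain ⟨d₁, Y₁, h1, h1', h1''⟩ := hrep x n N hN1 i hi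
    obtain ⟨d₂, Y₂, h2, h2', h2''⟩ := hrep x n N hN1 j hj
    obtain ⟨d₃, Y₃, h3, h3', h3''⟩ := hrep x n N hN1 l hl
    rw [Finset.mem_filter, Finset.mem_range] at hi hj hl
    have e1 : ((N i : ℕ) : ℝ) = (d₁ : ℝ) * (Y₁ : ℝ) ^ 2 := by rw [h1'']; push_cast; ring
    have e2 : ((N j : ℕ) : ℝ) = (d₂ : ℝ) * (Y₂ : ℝ) ^ 2 := by rw [h2'']; push_cast; ring
    have e3 : ((N l : ℕ) : ℝ) = (d₃ : ℝ) * (Y₃ : ℝ) ^ 2 := by rw [h3'']; push_cast; ring
    refine hX₀ d₁ d₂ d₃ h1 h2 h3 ![Y₁, Y₂, Y₃] ?_ ?_ ?_ ?_ ⟨?_, ?_⟩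
    · have h4 := (hN1 i (by omega)).2
      have h5 : 2 * T ≤ |(x : ℝ)| := (le_max_right _ _).trans hx
      have h6 := hTle d₁ d₂ d₃ h1' h2' h3'
      have : X₀ d₁ d₂ d₃ ≤ ((N i : ℕ) : ℝ) := by linarith
      rw [e1] at this
      simpa using this
    · have := hN2 i (by omega) j (by omega) hi.2.1 hj.2.1 hij
      rw [h1'', h2''] at this
      simpa using this
    · have := hN2 i (by omega) l (by omega) hi.2.1 hl.2.1 hil
      rw [h1'', h3''] at this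
      simpa using this
    · have := hN2 j (by omega) l (by omega) hj.2.1 hl.2.1 hjl
      rw [h2'', h3''] at this
      simpa using this
    · have := hN3 i (by omega) j (by omega)
      rw [e1, e2] at this
      simpa using this
    · have := hN3 i (by omega) l (by omega)
      rw [e1, e3] at this
      simpa using this
  · rw [if_neg hk2]
    have hex : ∀ c₁ c₂ : ℕ, ∃ X₀ : ℝ, 1 ≤ c₁ → 1 ≤ c₂ → ∀ Y Z : ℕ, X₀ ≤ (c₁ : ℝ) * (Y : ℝ) ^ k →
        c₁ * Y ^ k ≠ c₂ * Z ^ k →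
        ((c₁ : ℝ) * (Y : ℝ) ^ k) ^ (1 / 4 : ℝ) < |(c₁ : ℝ) * (Y : ℝ) ^ k - (c₂ : ℝ) * (Z : ℝ) ^ k| := by
      intro c₁ c₂
      by_cases h : 1 ≤ c₁ ∧ 1 ≤ c₂
      · obtain ⟨X₀, hX⟩ := two k (by omega) c₁ c₂ h.1 h.2
        exact ⟨X₀, fun _ _ => hX⟩
      · exact ⟨0, fun h1 h2 => absurd ⟨h1, h2⟩ h⟩
    choose X₀ hX₀ using hex
    set T : ℝ := ∑ c₁ ∈ range (Bd + 1), ∑ c₂ ∈ range (Bd + 1), |X₀ c₁ c₂| with hT
    have hT0 : 0 ≤ T := Finset.sum_nonneg fun _ _ => Finset.sum_nonneg fun _ _ => abs_nonneg _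
    have hTle : ∀ c₁ c₂, c₁ ≤ Bd → c₂ ≤ Bd → X₀ c₁ c₂ ≤ T := by
      intro c₁ c₂ h1 h2
      refine (le_abs_self _).trans ?_
      refine (Finset.single_le_sum (f := fun c₂ => |X₀ c₁ c₂|) (fun _ _ => abs_nonneg _)
        (Finset.mem_range.2 (Nat.lt_succ_of_le h2))).trans ?_
      exact Finset.single_le_sum (f := fun c₁ => ∑ c₂ ∈ range (Bd + 1), |X₀ c₁ c₂|)
        (fun _ _ => Finset.sum_nonneg fun _ _ => abs_nonneg _)
        (Finset.mem_range.2 (Nat.lt_succ_of_le h1))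
    refine ⟨c, hc, max x₁ (2 * (T + 1)), ?_⟩
    intro x hx n hn
    obtain ⟨N, hN1, hN2, hN3⟩ := hN x ((le_max_left _ _).trans hx) n hn
    by_contra hcon
    rw [not_le] at hcon
    obtain ⟨i, j, hi, hj, hij⟩ := Finset.one_lt_card_iff.1 hcon
    obtain ⟨d₁, Y₁, h1, h1', h1''⟩ := hrep x n N hN1 i hi
    obtain ⟨d₂, Y₂, h2, h2', h2''⟩ := hrep x n N hN1 j hj
    rw [Finset.mem_filter, Finset.mem_range] at hi hj
    have e1 : ((N i : ℕ) : ℝ) = (d₁ : ℝ) * (Y₁ : ℝ) ^ k := by rw [h1'']; push_cast; ring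
    have e2 : ((N j : ℕ) : ℝ) = (d₂ : ℝ) * (Y₂ : ℝ) ^ k := by rw [h2'']; push_cast; ring
    have h4 := (hN1 i (by omega)).2
    have h5 : 2 * (T + 1) ≤ |(x : ℝ)| := (le_max_right _ _).trans hx
    have h6 := hTle d₁ d₂ h1' h2'
    have h7 : (1 : ℝ) ≤ N i := by linarith
    have h8 := hX₀ d₁ d₂ h1 h2 Y₁ Y₂ (by rw [← e1]; linarith) (by
      have := hN2 i (by omega) j (by omega) hi.2.1 hj.2.1 hij
      rwa [h1'', h2''] at this)
    rw [← e1, ← e2] at h8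
    have h9 := hN3 i (by omega) j (by omega)
    have h10 : ((N i : ℕ) : ℝ) ^ (1 / 8 : ℝ) ≤ ((N i : ℕ) : ℝ) ^ (1 / 4 : ℝ) :=
      Real.rpow_le_rpow_of_exponent_le h7 (by norm_num)
    linarith

end Pool.Agent.H977.PW
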