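import Mathlib
import Pool.Agent.H977.SP.Cycles
import Pool.Agent.H977.PW.Win

set_option autoImplicit false

/-!
From short pieces of trajectories to cycles and to unbounded trajectories, for any property.
-/

open Finset Filter Topology

namespace Pool.Agent.H977.PW

open Pool.Agent.H977.SP

variable {a b : ℤ} {r : ℕ} (ha : a % 2 = 1) (hb : b % 2 = 1) (hr : r ≤ 1)

open Classical in
include ha hb hr in
/-- sparse in short pieces implies sparse in cycles -/
theorem cycles_abs (ha3 : a ≠ 1 ∧ a ≠ -1) (Q : ℤ → Prop) (K : ℕ)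
    (hQ : ∃ c : ℝ, 0 < c ∧ ∃ x₀ : ℝ, ∀ x : ℤ, x₀ ≤ |(x : ℝ)| → ∀ n : ℕ,
      (n : ℝ) ≤ c * Real.log |(x : ℝ)| →
      ((range (n + 1)).filter fun i => Q ((G a b r)^[i] x)).card ≤ K) :
    ∃ C : ℝ, ∀ (x : ℤ) (p m : ℕ), 1 ≤ p → (G a b r)^[p] x = x → 2 ≤ m →
      (∀ i < p, (m : ℝ) ≤ |(((G a b r)^[i] x : ℤ) : ℝ)|) →
      (((range p).filter fun i => Q ((G a b r)^[i] x)).card : ℝ) ≤
        C * p / Real.log m := by
  obtain ⟨c, hc, x₀, hW⟩ := hQ
  have hb0 : b ≠ 0 := by rintro rfl; omega
  have hbR : (1 : ℝ) ≤ |(b : ℝ)| := by rw [← Int.cast_abs]; exact_mod_cast Int.one_le_abs hb0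
  set A : ℝ := Real.log (|(a : ℝ)| + 2) with hA
  have hA0 : 0 < A := Real.log_pos (by have := abs_nonneg (a : ℝ); linarith)
  set L₀ : ℝ := max (Real.log (max 1 x₀)) (max (2 / c) (2 * Real.log |(b : ℝ)|)) with hL₀
  have hL₀0 : 0 ≤ L₀ := le_trans (Real.log_nonneg (le_max_left _ _)) (le_max_left _ _)
  refine ⟨L₀ + (K * (2 / c) + K * (2 * A)), ?_⟩
  intro x p m hp hper hm hbig
  have hmR : (2 : ℝ) ≤ m := by exact_mod_cast hm
  set L := Real.log m with hL
  have hLpos : 0 < L := Real.log_pos (by linarith)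
  have hpR : (0 : ℝ) < p := by exact_mod_cast hp
  rw [le_div_iff₀ hLpos]
  have hcardp : (((range p).filter fun i => Q ((G a b r)^[i] x)).card : ℝ) ≤ p := by
    have := Finset.card_filter_le (range p) (fun i => Q ((G a b r)^[i] x))
    rw [Finset.card_range] at this
    exact_mod_cast this
  have hextra : 0 ≤ (K * (2 / c) + K * (2 * A)) * (p : ℝ) := by positivity
  rcases le_or_gt L L₀ with hcase | hcase
  · calc (((range p).filter fun i => Q ((G a b r)^[i] x)).card : ℝ) * L ≤ p * L₀ :=
          mul_le_mul hcardp hcase hLpos.le hpR.le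
      _ ≤ (L₀ + (K * (2 / c) + K * (2 * A))) * p := by linarith
  · -- long cycle elements
    have h1 : Real.log (max 1 x₀) < L := lt_of_le_of_lt (le_max_left _ _) hcase
    have h2 : 2 / c < L := lt_of_le_of_lt ((le_max_left _ _).trans (le_max_right _ _)) hcase
    have h3 : 2 * Real.log |(b : ℝ)| < L :=
      lt_of_le_of_lt ((le_max_right _ _).trans (le_max_right _ _)) hcase
    have hx0m : x₀ ≤ m := by
      have h4 : max 1 x₀ < m := by
        by_contra hcon
        push Not at hcon
        have := Real.log_le_log (by linarith) hcon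
        linarith
      exact (le_max_right _ _).trans h4.le
    have hcL : 2 < c * L := by rw [div_lt_iff₀ hc] at h2; linarith
    set w := ⌊c * L⌋₊ with hw
    have hw1 : 1 ≤ w := by
      rw [hw, Nat.one_le_floor_iff]; linarith
    have hwle : (w : ℝ) ≤ c * L := Nat.floor_le (by linarith)
    have hwge : c * L / 2 ≤ w := by
      have := Nat.lt_floor_add_one (c * L)
      rw [← hw] at this
      linarith
    have hblock := blocks (fun i => Q ((G a b r)^[i] x)) w hw1 K 0 p (by
      intro i _ hi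
      have h4 := hbig i hi
      have h5 := hW ((G a b r)^[i] x) (hx0m.trans h4) (w - 1) (by
        have h6 : (((w - 1 : ℕ)) : ℝ) ≤ w := by exact_mod_cast Nat.sub_le _ _
        have h7 : L ≤ Real.log |(((G a b r)^[i] x : ℤ) : ℝ)| :=
          Real.log_le_log (by linarith) h4
        have h8 := mul_le_mul_of_nonneg_left h7 hc.le
        linarith)
      rw [Nat.sub_add_cancel hw1] at h5
      have h9 : ((range w).filter fun j => Q ((G a b r)^[i + j] x)) =
          ((range w).filter fun j => Q ((G a b r)^[j] ((G a b r)^[i] x))) := by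
        apply Finset.filter_congr
        intro j _
        rw [add_comm i j, Function.iterate_add_apply]
      rw [h9]
      exact h5)
    have h4 : ((range p).filter fun i => 0 ≤ i ∧ Q ((G a b r)^[i] x)) =
        ((range p).filter fun i => Q ((G a b r)^[i] x)) := by
      apply Finset.filter_congr
      intro i _
      simp
    rw [h4] at hblock
    have h5 : (((range p).filter fun i => Q ((G a b r)^[i] x)).card : ℝ) ≤
        K * ((p : ℝ) / w + 1) := by
      have h6 : (((p / w : ℕ)) : ℝ) ≤ (p : ℝ) / w := Nat.cast_div_le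
      have h7 : (((range p).filter fun i => Q ((G a b r)^[i] x)).card : ℝ) ≤
          K * (((p / w : ℕ) : ℝ) + 1) := by exact_mod_cast hblock
      refine h7.trans (mul_le_mul_of_nonneg_left (by linarith) (Nat.cast_nonneg K))
    have hwpos : (0 : ℝ) < w := by exact_mod_cast hw1
    have h6 : (p : ℝ) / w * L ≤ 2 / c * p := by
      rw [div_mul_eq_mul_div, div_le_iff₀ hwpos]
      have h7 : L ≤ 2 / c * w := by
        rw [div_mul_eq_mul_div, le_div_iff₀ hc]
        linarith
      calc (p : ℝ) * L ≤ p * (2 / c * w) := mul_le_mul_of_nonneg_left h7 hpR.le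
        _ = 2 / c * p * w := by ring
    have h7 : L ≤ 2 * A * p := by
      have h8 : |x| ≤ |b| * (|a| + 2) ^ p := by
        exact cycle_long ha hb hr ha3 x p hp hper
      have h9 : |(x : ℝ)| ≤ |(b : ℝ)| * (|(a : ℝ)| + 2) ^ p := by
        rw [← Int.cast_abs, ← Int.cast_abs, ← Int.cast_abs]; exact_mod_cast h8
      have h10 : (m : ℝ) ≤ |(x : ℝ)| := by simpa using hbig 0 (by omega)
      have h11 := Real.log_le_log (by linarith) (h10.trans h9)
      rw [Real.log_mul (by linarith) (by positivity), Real.log_pow] at h11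
      have h12 : L ≤ Real.log |(b : ℝ)| + p * A := h11
      linarith
    have hKnn : (0 : ℝ) ≤ K := Nat.cast_nonneg K
    calc (((range p).filter fun i => Q ((G a b r)^[i] x)).card : ℝ) * L
        ≤ K * ((p : ℝ) / w + 1) * L := mul_le_mul_of_nonneg_right h5 hLpos.le
      _ = K * ((p : ℝ) / w * L + L) := by ring
      _ ≤ K * (2 / c * p + 2 * A * p) := mul_le_mul_of_nonneg_left (by linarith) hKnn
      _ ≤ (L₀ + (K * (2 / c) + K * (2 * A))) * p := by
          have := mul_nonneg hL₀0 hpR.le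
          nlinarith

open Classical in
/-- sparse in short pieces implies sparse in unbounded trajectories -/
theorem unbounded_abs (Q : ℤ → Prop) (K : ℕ)
    (hQ : ∃ c : ℝ, 0 < c ∧ ∃ x₀ : ℝ, ∀ x : ℤ, x₀ ≤ |(x : ℝ)| → ∀ n : ℕ,
      (n : ℝ) ≤ c * Real.log |(x : ℝ)| →
      ((range (n + 1)).filter fun i => Q ((G a b r)^[i] x)).card ≤ K) (x : ℤ)
    (hinj : Function.Injective fun i => (G a b r)^[i] x) :
    Tendsto (fun N : ℕ => (((range N).filter fun i => Q ((G a b r)^[i] x)).card : ℝ) / N)
      atTop (nhds 0) := by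
  obtain ⟨c, hc, x₀, hW⟩ := hQ
  rw [Metric.tendsto_atTop]
  intro ρ hρ
  -- a block length
  obtain ⟨w, hw⟩ := exists_nat_gt (2 * (K : ℝ) / ρ)
  have hw1 : 1 ≤ w := by
    by_contra hlt
    have : w = 0 := by omega
    rw [this] at hw
    have h1 : (0 : ℝ) ≤ 2 * (K : ℝ) / ρ := by positivity
    simp only [Nat.cast_zero] at hw
    linarith
  have hwpos : (0 : ℝ) < w := by exact_mod_cast hw1
  -- from some time on all terms are large
  set B : ℝ := max x₀ (Real.exp (w / c)) with hB
  have hfin : {i : ℕ | |(((G a b r)^[i] x : ℤ) : ℝ)| < B}.Finite := by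
    have h1 : {i : ℕ | |(((G a b r)^[i] x : ℤ) : ℝ)| < B} ⊆
        (fun i => (G a b r)^[i] x) ⁻¹' (Set.Icc (-⌈B⌉) ⌈B⌉) := by
      intro i hi
      have h2 : |(((G a b r)^[i] x : ℤ) : ℝ)| < B := hi
      rw [← Int.cast_abs] at h2
      have h3 : |(G a b r)^[i] x| ≤ ⌈B⌉ := by
        have := h2.trans_le (Int.le_ceil B)
        exact_mod_cast this.le
      exact abs_le.1 h3
    exact ((Set.finite_Icc _ _).preimage hinj.injOn).subset h1
  obtain ⟨i₀, hi₀⟩ := hfin.bddAbove
  have hlarge : ∀ i, i₀ + 1 ≤ i → B ≤ |(((G a b r)^[i] x : ℤ) : ℝ)| := by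
    intro i hi
    by_contra hlt
    have := hi₀ (show i ∈ {i : ℕ | |(((G a b r)^[i] x : ℤ) : ℝ)| < B} from not_le.1 hlt)
    omega
  have hcount : ∀ N : ℕ, (((range N).filter fun i => Q ((G a b r)^[i] x)).card : ℝ) ≤
      (i₀ + 1) + K * ((N : ℝ) / w + 1) := by
    intro N
    have hblock := blocks (fun i => Q ((G a b r)^[i] x)) w hw1 K (i₀ + 1) N (by
      intro i hi _
      have h4 := hlarge i hi
      have h5 := hW ((G a b r)^[i] x) ((le_max_left _ _).trans h4) (w - 1) (by
        have h6 : (((w - 1 : ℕ)) : ℝ) ≤ w := by exact_mod_cast Nat.sub_le _ _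
        have h7 : (w : ℝ) / c ≤ Real.log |(((G a b r)^[i] x : ℤ) : ℝ)| := by
          have h8 := (le_max_right _ _).trans h4
          exact (Real.le_log_iff_exp_le (lt_of_lt_of_le (Real.exp_pos _) h8)).2 h8
        rw [div_le_iff₀ hc] at h7
        linarith)
      rw [Nat.sub_add_cancel hw1] at h5
      have h9 : ((range w).filter fun j => Q ((G a b r)^[i + j] x)) =
          ((range w).filter fun j => Q ((G a b r)^[j] ((G a b r)^[i] x))) := by
        apply Finset.filter_congr
        intro j _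
        rw [add_comm i j, Function.iterate_add_apply]
      rw [h9]
      exact h5)
    have h1 : ((range N).filter fun i => Q ((G a b r)^[i] x)) ⊆
        range (i₀ + 1) ∪ ((range N).filter fun i => i₀ + 1 ≤ i ∧ Q ((G a b r)^[i] x)) := by
      intro i hi
      rw [Finset.mem_filter] at hi
      rw [Finset.mem_union, Finset.mem_filter, Finset.mem_range]
      by_cases h : i < i₀ + 1
      · exact Or.inl h
      · exact Or.inr ⟨hi.1, by omega, hi.2⟩
    have h2 := (Finset.card_le_card h1).trans (Finset.card_union_le _ _)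
    rw [Finset.card_range] at h2
    have h3 := h2.trans (Nat.add_le_add_left hblock _)
    have h6 : (((N / w : ℕ)) : ℝ) ≤ (N : ℝ) / w := Nat.cast_div_le
    have h7 : (((range N).filter fun i => Q ((G a b r)^[i] x)).card : ℝ) ≤
        (i₀ + 1) + K * (((N / w : ℕ) : ℝ) + 1) := by exact_mod_cast h3
    have hKnn : (0 : ℝ) ≤ K := Nat.cast_nonneg K
    have h8 : (K : ℝ) * (((N / w : ℕ) : ℝ) + 1) ≤ K * ((N : ℝ) / w + 1) :=
      mul_le_mul_of_nonneg_left (by linarith) hKnn
    linarith
  obtain ⟨N₀, hN₀⟩ := exists_nat_gt (2 * ((i₀ : ℝ) + 1 + K) / ρ)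
  refine ⟨N₀ + 1, fun N hN => ?_⟩
  have hNpos : (0 : ℝ) < N := by
    have : 0 < N := by omega
    exact_mod_cast this
  rw [Real.dist_eq, sub_zero, abs_of_nonneg (by positivity), div_lt_iff₀ hNpos]
  have h1 := hcount N
  have h2 : 2 * ((i₀ : ℝ) + 1 + K) < ρ * N := by
    have h3 : (N₀ : ℝ) ≤ N := by exact_mod_cast (by omega : N₀ ≤ N)
    have h4 := hN₀.trans_le h3
    rw [div_lt_iff₀ hρ] at h4
    linarith
  have h3 : 2 * ((K : ℝ) * ((N : ℝ) / w)) ≤ ρ * N := by
    rw [div_lt_iff₀ hρ] at hw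
    have h4 : (K : ℝ) * ((N : ℝ) / w) = K * N / w := by ring
    rw [h4, ← mul_div_assoc, div_le_iff₀ hwpos]
    have h5 : 2 * (K : ℝ) * N ≤ (w * ρ) * N := mul_le_mul_of_nonneg_right hw.le hNpos.le
    linarith
  linarith


/-- `z` is odd and the product of a number composed of primes of `S` and a `k`-th power, for some
`2 ≤ k ≤ K`. -/
def UPK (S : Finset ℕ) (K : ℕ) (z : ℤ) : Prop :=
  z % 2 = 1 ∧ ∃ k : ℕ, 2 ≤ k ∧ k ≤ K ∧ ∃ u y : ℤ, z = u * y ^ k ∧
    ∀ p : ℕ, p.Prime → (p : ℤ) ∣ u → p ∈ S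

theorem upk_iff (S : Finset ℕ) (K : ℕ) (z : ℤ) :
    UPK S K z ↔ ∃ q : ℕ, q.Prime ∧ q ≤ K ∧ UP S q z := by
  constructor
  · rintro ⟨h1, k, h2, h3, u, y, h4, h5⟩
    refine ⟨k.minFac, Nat.minFac_prime (by omega), (Nat.minFac_le (by omega)).trans h3, h1, u,
      y ^ (k / k.minFac), ?_, h5⟩
    rw [← pow_mul, Nat.div_mul_cancel (Nat.minFac_dvd k)]
    exact h4
  · rintro ⟨q, h1, h2, h3, u, y, h4, h5⟩
    exact ⟨h3, q, h1.two_le, h2, u, y, h4, h5⟩

open Classical in
include ha hb hr in
/-- the number of perfect powers, up to factors composed of given primes, in a short piece -/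
theorem count_all (S : Finset ℕ) (K : ℕ) :
    ∃ c : ℝ, 0 < c ∧ ∃ x₀ : ℝ, ∀ x : ℤ, x₀ ≤ |(x : ℝ)| → ∀ n : ℕ,
      (n : ℝ) ≤ c * Real.log |(x : ℝ)| →
      ((range (n + 1)).filter fun i => UPK S K ((G a b r)^[i] x)).card ≤
        Nat.primeCounting K + 1 := by
  have key : ∀ K : ℕ, ∃ c : ℝ, 0 < c ∧ ∃ x₀ : ℝ, ∀ x : ℤ, x₀ ≤ |(x : ℝ)| → ∀ n : ℕ,
      (n : ℝ) ≤ c * Real.log |(x : ℝ)| →
      ((range (n + 1)).filter fun i => ∃ q : ℕ, q.Prime ∧ q ≤ K ∧ UP S q ((G a b r)^[i] x)).card ≤
        ∑ q ∈ (range (K + 1)).filter Nat.Prime, if q = 2 then 2 else 1 := by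
    intro K
    induction K with
    | zero =>
      refine ⟨1, one_pos, 0, fun x _ n _ => ?_⟩
      rw [Finset.filter_false_of_mem]
      · simp
      · rintro i _ ⟨q, hq, hq0, _⟩
        have := hq.two_le
        omega
    | succ K ih =>
      obtain ⟨c, hc, x₀, h⟩ := ih
      by_cases hp : (K + 1).Prime
      · obtain ⟨c', hc', x₀', h'⟩ := pow_count ha hb hr S (K + 1) hp.two_le
        refine ⟨min c c', lt_min hc hc', max (max x₀ x₀') 1, fun x hx n hn => ?_⟩
        have hx1 : 1 ≤ |(x : ℝ)| := (le_max_right _ _).trans hx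
        have hL0 : 0 ≤ Real.log |(x : ℝ)| := Real.log_nonneg hx1
        have h1 := h x ((le_max_left _ _).trans ((le_max_left _ _).trans hx)) n
          (hn.trans (mul_le_mul_of_nonneg_right (min_le_left _ _) hL0))
        have h2 := h' x ((le_max_right _ _).trans ((le_max_left _ _).trans hx)) n
          (hn.trans (mul_le_mul_of_nonneg_right (min_le_right _ _) hL0))
        have h3 : ((range (n + 1)).filter fun i => ∃ q : ℕ, q.Prime ∧ q ≤ K + 1 ∧
            UP S q ((G a b r)^[i] x)) ⊆
            ((range (n + 1)).filter fun i => ∃ q : ℕ, q.Prime ∧ q ≤ K ∧ UP S q ((G a b r)^[i] x)) ∪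
            ((range (n + 1)).filter fun i => UP S (K + 1) ((G a b r)^[i] x)) := by
          intro i hi
          rw [Finset.mem_filter] at hi
          obtain ⟨h4, q, h5, h6, h7⟩ := hi
          rw [Finset.mem_union, Finset.mem_filter, Finset.mem_filter]
          rcases Nat.lt_or_ge K q with h8 | h8
          · have : q = K + 1 := by omega
            subst this
            exact Or.inr ⟨h4, h7⟩
          · exact Or.inl ⟨h4, q, h5, h8, h7⟩
        refine (Finset.card_le_card h3).trans ((Finset.card_union_le _ _).trans ?_)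
        have hs : (range (K + 1 + 1)).filter Nat.Prime =
            insert (K + 1) ((range (K + 1)).filter Nat.Prime) := by
          rw [Finset.range_add_one (n := K + 1), Finset.filter_insert, if_pos hp]
        rw [hs, Finset.sum_insert (by simp)]
        omega
      · refine ⟨c, hc, x₀, fun x hx n hn => ?_⟩
        have h1 := h x hx n hn
        have h3 : ((range (n + 1)).filter fun i => ∃ q : ℕ, q.Prime ∧ q ≤ K + 1 ∧
            UP S q ((G a b r)^[i] x)) ⊆
            ((range (n + 1)).filter fun i => ∃ q : ℕ, q.Prime ∧ q ≤ K ∧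
              UP S q ((G a b r)^[i] x)) := by
          intro i hi
          rw [Finset.mem_filter] at hi
          obtain ⟨h4, q, h5, h6, h7⟩ := hi
          rw [Finset.mem_filter]
          have : q ≠ K + 1 := by rintro rfl; exact hp h5
          exact ⟨h4, q, h5, by omega, h7⟩
        have hs : (range (K + 1 + 1)).filter Nat.Prime = (range (K + 1)).filter Nat.Prime := by
          rw [Finset.range_add_one (n := K + 1), Finset.filter_insert, if_neg hp]
        rw [hs]
        exact (Finset.card_le_card h3).trans h1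
  obtain ⟨c, hc, x₀, h⟩ := key K
  refine ⟨c, hc, x₀, fun x hx n hn => ?_⟩
  have h1 := h x hx n hn
  have h2 : ((range (n + 1)).filter fun i => UPK S K ((G a b r)^[i] x)) =
      ((range (n + 1)).filter fun i => ∃ q : ℕ, q.Prime ∧ q ≤ K ∧ UP S q ((G a b r)^[i] x)) := by
    apply Finset.filter_congr
    intro i _
    exact upk_iff S K _
  rw [h2]
  refine h1.trans ?_
  have h3 : ∀ s : Finset ℕ, ∑ q ∈ s, (if q = 2 then 2 else 1) ≤ s.card + 1 := by
    intro s
    have h4 : ∀ q ∈ s, (if q = 2 then 2 else 1) = 1 + (if q = 2 then 1 else 0) := by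
      intro q _; split_ifs <;> rfl
    rw [Finset.sum_congr rfl h4, Finset.sum_add_distrib, Finset.sum_ite_eq', Finset.sum_const,
      smul_eq_mul, mul_one]
    split_ifs <;> omega
  refine (h3 _).trans ?_
  have h5 : ((range (K + 1)).filter Nat.Prime).card = Nat.primeCounting K := by
    rw [Nat.primeCounting, Nat.primeCounting', Nat.count_eq_card_filter_range]
  rw [h5]

end Pool.Agent.H977.PW
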