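import Mathlib
import Pool.Agent.H977.PW.Abs

set_option autoImplicit false

/-!
Cycles as finite sets.
-/

open Finset Filter Topology

namespace Pool.Agent.H977.PW

open Pool.Agent.H977.SP

/-- `Z` is a periodic orbit of `f` -/
def IsCyc (f : ℤ → ℤ) (Z : Finset ℤ) : Prop :=
  ∃ x : ℤ, ∃ p : ℕ, 1 ≤ p ∧ f^[p] x = x ∧ Z = (range p).image fun i => f^[i] x

theorem cyc_mem {f : ℤ → ℤ} {Z : Finset ℤ} (h : IsCyc f Z) {z : ℤ} (hz : z ∈ Z) (w : ℤ) :
    w ∈ Z ↔ ∃ i : ℕ, f^[i] z = w := by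
  obtain ⟨x, p, hp, hper, rfl⟩ := h
  rw [Finset.mem_image] at hz
  obtain ⟨i, hi, rfl⟩ := hz
  rw [Finset.mem_range] at hi
  constructor
  · intro hw
    rw [Finset.mem_image] at hw
    obtain ⟨j, hj, rfl⟩ := hw
    refine ⟨j + (p - i), ?_⟩
    rw [Function.iterate_add_apply, ← Function.iterate_add_apply f (p - i) i,
      Nat.sub_add_cancel hi.le, hper]
  · rintro ⟨k, rfl⟩
    rw [Finset.mem_image]
    refine ⟨(k + i) % p, Finset.mem_range.2 (Nat.mod_lt _ (by omega)), ?_⟩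
    rw [← Function.iterate_add_apply]
    have h1 : Function.IsPeriodicPt f p x := hper
    exact h1.iterate_mod_apply (k + i)

theorem cyc_eq {f : ℤ → ℤ} {Z Z' : Finset ℤ} (h : IsCyc f Z) (h' : IsCyc f Z') {z : ℤ}
    (hz : z ∈ Z) (hz' : z ∈ Z') : Z = Z' := by
  ext w
  rw [cyc_mem h hz, cyc_mem h' hz']

theorem cyc_min {f : ℤ → ℤ} {Z : Finset ℤ} (h : IsCyc f Z) : ∃ x : ℤ, ∃ p : ℕ, 1 ≤ p ∧
    f^[p] x = x ∧ Z = (range p).image (fun i => f^[i] x) ∧
    Set.InjOn (fun i => f^[i] x) (range p : Set ℕ) := by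
  obtain ⟨x, p, hp, hper, rfl⟩ := h
  have hmem : x ∈ Function.periodicPts f := ⟨p, hp, hper⟩
  refine ⟨x, Function.minimalPeriod f x, Function.minimalPeriod_pos_of_mem_periodicPts hmem,
    Function.iterate_minimalPeriod, ?_, ?_⟩
  · ext w
    rw [Finset.mem_image, Finset.mem_image]
    have h1 : Function.IsPeriodicPt f p x := hper
    have hpos := Function.minimalPeriod_pos_of_mem_periodicPts hmem
    constructor
    · rintro ⟨i, _, rfl⟩
      refine ⟨i % Function.minimalPeriod f x, Finset.mem_range.2 (Nat.mod_lt _ hpos), ?_⟩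
      exact Function.iterate_mod_minimalPeriod_eq
    · rintro ⟨i, _, rfl⟩
      exact ⟨i % p, Finset.mem_range.2 (Nat.mod_lt _ (by omega)), h1.iterate_mod_apply i⟩
  · intro i hi j hj hij
    rw [Finset.mem_coe, Finset.mem_range] at hi hj
    exact (Function.iterate_eq_iterate_iff_of_lt_minimalPeriod hi hj).1 hij

theorem cyc_image {f : ℤ → ℤ} {Z : Finset ℤ} (h : IsCyc f Z) : Z.image f = Z := by
  have hsub : Z.image f ⊆ Z := by
    intro w hw
    rw [Finset.mem_image] at hw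
    obtain ⟨z, hz, rfl⟩ := hw
    exact (cyc_mem h hz _).2 ⟨1, rfl⟩
  apply Finset.Subset.antisymm hsub
  intro w hw
  rw [Finset.mem_image]
  obtain ⟨x, p, hp, hper, rfl⟩ := h
  rw [Finset.mem_image] at hw
  obtain ⟨i, hi, rfl⟩ := hw
  rw [Finset.mem_range] at hi
  have h1 : Function.IsPeriodicPt f p x := hper
  refine ⟨f^[(i + (p - 1)) % p] x, Finset.mem_image.2 ⟨_, Finset.mem_range.2
    (Nat.mod_lt _ (by omega)), rfl⟩, ?_⟩
  rw [h1.iterate_mod_apply, ← Function.iterate_succ_apply' f (i + (p - 1)) x]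
  have h2 : (i + (p - 1)).succ = i + p := by omega
  rw [h2, Function.iterate_add_apply, hper]

theorem small_finite (f : ℤ → ℤ) (B : ℕ) :
    {Z : Finset ℤ | IsCyc f Z ∧ ∃ z ∈ Z, |z| < (B : ℤ)}.Finite := by
  classical
  have hch : ∀ Z : Finset ℤ, ∃ z : ℤ, (∃ z ∈ Z, |z| < (B : ℤ)) → z ∈ Z ∧ |z| < (B : ℤ) := by
    intro Z
    by_cases h : ∃ z ∈ Z, |z| < (B : ℤ)
    · obtain ⟨z, hz⟩ := h
      exact ⟨z, fun _ => hz⟩
    · exact ⟨0, fun h' => absurd h' h⟩
  choose g hg using hch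
  apply Set.Finite.of_injOn (t := Set.Icc (-(B : ℤ)) B) (f := g) _ _ (Set.finite_Icc _ _)
  · rintro Z ⟨_, hZ⟩
    obtain ⟨_, h2⟩ := hg Z hZ
    have := abs_lt.1 h2
    exact ⟨by linarith, by linarith⟩
  · rintro Z ⟨hZ, hz⟩ Z' ⟨hZ', hz'⟩ heq
    obtain ⟨h1, _⟩ := hg Z hz
    obtain ⟨h2, _⟩ := hg Z' hz'
    rw [heq] at h1
    exact cyc_eq hZ hZ' h1 h2

variable {a b : ℤ} (ha : a % 2 = 1) (hb : b % 2 = 1)

include ha hb in
/-- the number of odd elements of a cycle -/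
theorem odd_many {Z : Finset ℤ} (hZ : IsCyc (G a b 1) Z) (h0 : (0 : ℤ) ∉ Z) :
    (2 : ℤ) ^ Z.card ≤ (|a| + |b|) ^ (Z.filter fun z => z % 2 = 1).card := by
  have him := cyc_image hZ
  have hinj : Set.InjOn (G a b 1) (Z : Set ℤ) := by
    apply Finset.injOn_of_card_image_eq
    rw [him]
  have hprod : ∏ z ∈ Z, |G a b 1 z| = ∏ z ∈ Z, |z| := by
    conv_rhs => rw [← him]
    rw [Finset.prod_image hinj]
  have hpos : 0 < ∏ z ∈ Z, |z| := Finset.prod_pos fun z hz => abs_pos.2 fun h => h0 (h ▸ hz)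
  have h1 : ∀ z ∈ Z, 2 * |G a b 1 z| ≤ |z| * (if z % 2 = 1 then |a| + |b| else 1) := by
    intro z hz
    have hz1 : 1 ≤ |z| := Int.one_le_abs fun h => h0 (h ▸ hz)
    split_ifs with ho
    · have h2 := G_odd ha hb (r := 1) le_rfl ho
      rw [pow_one] at h2
      have h3 : 2 * |G a b 1 z| = |a * z + b| := by rw [← h2, abs_mul, abs_two]
      rw [h3]
      refine (abs_add_le _ _).trans ?_
      rw [abs_mul]
      have := abs_nonneg b
      nlinarith
    · have h2 := G_even (a := a) (b := b) (r := 1) (show z % 2 = 0 by omega)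
      have h3 : 2 * |G a b 1 z| = |z| := by conv_rhs => rw [← h2, abs_mul, abs_two]
      rw [h3, mul_one]
  have h2 : ∏ z ∈ Z, (2 * |G a b 1 z|) ≤ ∏ z ∈ Z, (|z| * (if z % 2 = 1 then |a| + |b| else 1)) :=
    Finset.prod_le_prod (fun z _ => by positivity) h1
  rw [Finset.prod_mul_distrib, Finset.prod_mul_distrib, hprod, Finset.prod_const,
    ← Finset.prod_filter, Finset.prod_const, mul_comm] at h2
  exact le_of_mul_le_mul_left h2 hpos

open Classical in
include ha hb in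
theorem cyc_bound (ha3 : a ≠ 1 ∧ a ≠ -1) (S : Finset ℕ) (K : ℕ) :
    ∃ C : ℝ, ∀ Z : Finset ℤ, IsCyc (G a b 1) Z → ∀ m : ℕ, 2 ≤ m → (∀ z ∈ Z, (m : ℤ) ≤ |z|) →
      ((Z.filter (UPK S K)).card : ℝ) ≤ C * Z.card / Real.log m := by
  obtain ⟨C, hC⟩ := cycles_abs ha hb (r := 1) le_rfl ha3 (UPK S K) (Nat.primeCounting K + 1)
    (count_all ha hb (r := 1) le_rfl S K)
  refine ⟨C, fun Z hZ m hm hbig => ?_⟩
  obtain ⟨x, p, hp, hper, hZeq, hinj⟩ := cyc_min hZ
  have h1 := hC x p m hp hper hm (by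
    intro i hi
    have h2 : (G a b 1)^[i] x ∈ Z := by
      rw [hZeq]; exact Finset.mem_image.2 ⟨i, Finset.mem_range.2 hi, rfl⟩
    have h3 := hbig _ h2
    rw [← Int.cast_abs]; exact_mod_cast h3)
  have h2 : Z.card = p := by
    rw [hZeq, Finset.card_image_of_injOn hinj, Finset.card_range]
  have h3 : (Z.filter (UPK S K)).card =
      ((range p).filter fun i => UPK S K ((G a b 1)^[i] x)).card := by
    rw [hZeq, Finset.filter_image, Finset.card_image_of_injOn]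
    exact hinj.mono (by
      intro i hi
      exact Finset.mem_coe.2 (Finset.mem_filter.1 (Finset.mem_coe.1 hi)).1)
  rw [h2, h3]
  exact h1

open Classical in
include ha hb in
theorem cyc_finite (ha3 : a ≠ 1 ∧ a ≠ -1) (S : Finset ℕ) (K : ℕ) (η : ℝ) (hη : 0 < η) :
    {Z : Finset ℤ | IsCyc (G a b 1) Z ∧ η * Z.card < (Z.filter (UPK S K)).card}.Finite := by
  obtain ⟨C, hC⟩ := cyc_bound ha hb ha3 S K
  obtain ⟨m, hm⟩ := exists_nat_gt (Real.exp (|C| / η) + 2)
  have hm2 : 2 ≤ m := by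
    have h1 : (2 : ℝ) ≤ m := by have := Real.exp_pos (|C| / η); linarith
    exact_mod_cast h1
  apply (small_finite (G a b 1) m).subset
  rintro Z ⟨hZ, hlt⟩
  refine ⟨hZ, ?_⟩
  by_contra hcon
  push Not at hcon
  have h1 := hC Z hZ m hm2 hcon
  have hlog : |C| / η ≤ Real.log m := by
    rw [Real.le_log_iff_exp_le (by positivity)]
    linarith
  have hlog0 : 0 < Real.log m := Real.log_pos (by exact_mod_cast hm2)
  have h2 : C * Z.card / Real.log m ≤ η * Z.card := by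
    rw [div_le_iff₀ hlog0]
    rw [div_le_iff₀ hη] at hlog
    have h3 : C ≤ |C| := le_abs_self C
    have h4 : (0 : ℝ) ≤ Z.card := Nat.cast_nonneg _
    nlinarith
  linarith

include ha hb in
theorem cyc_all_finite (ha3 : a ≠ 1 ∧ a ≠ -1) (S : Finset ℕ) (K : ℕ) :
    {Z : Finset ℤ | IsCyc (G a b 1) Z ∧ ∀ z ∈ Z, z % 2 = 1 → UPK S K z}.Finite := by
  classical
  have hb0 : b ≠ 0 := by rintro rfl; omega
  have ha0 : a ≠ 0 := by rintro rfl; omega
  have hA : (2 : ℝ) ≤ |(a : ℝ)| + |(b : ℝ)| := by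
    have h1 : (1 : ℝ) ≤ |(a : ℝ)| := by
      rw [← Int.cast_abs]; exact_mod_cast Int.one_le_abs ha0
    have h2 : (1 : ℝ) ≤ |(b : ℝ)| := by rw [← Int.cast_abs]; exact_mod_cast Int.one_le_abs hb0
    linarith
  set A : ℝ := Real.log (|(a : ℝ)| + |(b : ℝ)|) with hAdef
  have hA0 : 0 < A := Real.log_pos (by linarith)
  have hlog2 : 0 < Real.log 2 := Real.log_pos (by norm_num)
  apply ((cyc_finite ha hb ha3 S K (Real.log 2 / (2 * A)) (by positivity)).union
    (small_finite (G a b 1) 1)).subset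
  rintro Z ⟨hZ, hall⟩
  by_cases h0 : (0 : ℤ) ∈ Z
  · exact Or.inr ⟨hZ, 0, h0, by simp⟩
  · refine Or.inl ⟨hZ, ?_⟩
    have h1 : Z.filter (UPK S K) = Z.filter fun z => z % 2 = 1 := by
      apply Finset.filter_congr
      intro z hz
      exact ⟨fun h => h.1, fun h => hall z hz h⟩
    have h2 := odd_many ha hb hZ h0
    have h3 : (2 : ℝ) ^ Z.card ≤ (|(a : ℝ)| + |(b : ℝ)|) ^ (Z.filter fun z => z % 2 = 1).card := by
      rw [← Int.cast_abs, ← Int.cast_abs]; exact_mod_cast h2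
    have h4 := Real.log_le_log (by positivity) h3
    rw [Real.log_pow, Real.log_pow] at h4
    have hcard : 0 < (Z.card : ℝ) := by
      obtain ⟨x, p, hp, _, rfl⟩ := hZ
      have : ((range p).image fun i => (G a b 1)^[i] x).Nonempty :=
        ⟨x, Finset.mem_image.2 ⟨0, Finset.mem_range.2 hp, rfl⟩⟩
      exact_mod_cast this.card_pos
    rw [h1, div_mul_eq_mul_div, div_lt_iff₀ (by positivity)]
    have h5 : 0 < (Z.card : ℝ) * Real.log 2 := mul_pos hcard hlog2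
    linarith

end Pool.Agent.H977.PW
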