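import Mathlib
import Pool.Agent.H977.PW.CycleSets

set_option autoImplicit false

/-!
The `S`-part of the product of the odd elements of a cycle.
-/

open Finset Filter Topology

namespace Pool.Agent.H977.PW

open Pool.Agent.H977.SP

theorem cyc_injOn {f : ℤ → ℤ} {Z : Finset ℤ} (h : IsCyc f Z) : Set.InjOn f (Z : Set ℤ) := by
  apply Finset.injOn_of_card_image_eq
  rw [cyc_image h]

theorem sum_step {f : ℤ → ℤ} {Z : Finset ℤ} (h : IsCyc f Z) (g : ℤ → ℝ) :
    ∑ z ∈ Z, g (f z) = ∑ z ∈ Z, g z := by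
  conv_rhs => rw [← cyc_image h]
  rw [Finset.sum_image (cyc_injOn h)]

theorem sum_iter {f : ℤ → ℤ} {Z : Finset ℤ} (h : IsCyc f Z) (g : ℤ → ℝ) (j : ℕ) :
    ∑ z ∈ Z, g (f^[j] z) = ∑ z ∈ Z, g z := by
  induction j with
  | zero => rfl
  | succ j ih =>
    rw [← ih, ← sum_step h (fun z => g (f^[j] z))]
    rfl

theorem sPart_pos (S : Finset ℕ) (z : ℤ) : 0 < sPart S z := by
  unfold sPart
  apply Finset.prod_pos
  intro p _
  rcases Nat.eq_zero_or_pos p with h | h
  · rw [h, Nat.factorization_eq_zero_of_not_prime _ Nat.not_prime_zero, pow_zero]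
    exact one_pos
  · exact pow_pos h _

theorem sPart_le (S : Finset ℕ) (z : ℤ) (hz : z ≠ 0) : sPart S z ≤ z.natAbs := by
  have hn : z.natAbs ≠ 0 := Int.natAbs_ne_zero.2 hz
  apply Nat.le_of_dvd (Nat.pos_of_ne_zero hn)
  have h0 := Nat.prod_factorization_pow_eq_self hn
  unfold sPart
  have h1 : ∏ p ∈ S, p ^ z.natAbs.factorization p =
      ∏ p ∈ S.filter (fun p => p ∈ z.natAbs.factorization.support),
        p ^ z.natAbs.factorization p := by
    rw [Finset.prod_filter]
    refine Finset.prod_congr rfl fun p _ => ?_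
    split_ifs with hp
    · rfl
    · rw [Finsupp.notMem_support_iff.1 hp, pow_zero]
  rw [h1]
  conv_rhs => rw [← h0]
  rw [Finsupp.prod]
  apply Finset.prod_dvd_prod_of_subset
  intro p hp
  exact (Finset.mem_filter.1 hp).2

/-- the logarithm of the `S`-part of an odd number -/
noncomputable def phi (S : Finset ℕ) (z : ℤ) : ℝ := if z % 2 = 1 then Real.log (sPart S z) else 0

theorem phi_nonneg (S : Finset ℕ) (z : ℤ) : 0 ≤ phi S z := by
  unfold phi
  split_ifs
  · exact Real.log_nonneg (by exact_mod_cast sPart_pos S z)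
  · exact le_rfl

theorem phi_le (S : Finset ℕ) (z : ℤ) : phi S z ≤ Real.log |(z : ℝ)| := by
  unfold phi
  split_ifs with h
  · have hz : z ≠ 0 := by rintro rfl; omega
    apply Real.log_le_log (by exact_mod_cast sPart_pos S z)
    have h1 := sPart_le S z hz
    have h2 : ((z.natAbs : ℕ) : ℝ) = |(z : ℝ)| := by
      rw [Nat.cast_natAbs, Int.cast_abs]
    rw [← h2]
    exact_mod_cast h1
  · rcases eq_or_ne z 0 with rfl | hz
    · simp
    · apply Real.log_nonneg
      rw [← Int.cast_abs]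
      exact_mod_cast Int.one_le_abs hz

theorem phi_small (S : Finset ℕ) (η : ℝ) (hη : 0 ≤ η) (z : ℤ) (h : ¬ Large S η z) :
    phi S z ≤ η * Real.log |(z : ℝ)| := by
  rcases eq_or_ne z 0 with rfl | hz
  · simp [phi]
  have h1 : (1 : ℝ) ≤ |(z : ℝ)| := by
    rw [← Int.cast_abs]
    exact_mod_cast Int.one_le_abs hz
  unfold phi
  split_ifs with ho
  · unfold Large at h
    push Not at h
    have h2 := (h ho).le
    have h3 := Real.log_le_log (by exact_mod_cast sPart_pos S z) h2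
    rwa [Real.log_rpow (by linarith)] at h3
  · exact mul_nonneg hη (Real.log_nonneg h1)

variable {a b : ℤ} (ha : a % 2 = 1) (hb : b % 2 = 1)

include ha hb in
/-- the logarithms in a window starting at `z` -/
theorem window_sizes {Z : Finset ℤ} (hZ : IsCyc (G a b 1) Z) (M : ℕ) (hM1 : 1 ≤ M)
    (hMb : |b| ≤ M) (hbig : ∀ z ∈ Z, (M : ℤ) ≤ |z|) (w : ℕ)
    (hw1 : (w : ℝ) * Real.log 2 ≤ Real.log M / 2)
    (hw2 : (w : ℝ) * Real.log (|(a : ℝ)| + |(b : ℝ)|) ≤ Real.log M) (z : ℤ) (hz : z ∈ Z) (j : ℕ)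
    (hj : j < w) :
    Real.log |(z : ℝ)| / 2 ≤ Real.log |(((G a b 1)^[j] z : ℤ) : ℝ)| ∧
      Real.log |(((G a b 1)^[j] z : ℤ) : ℝ)| ≤ 2 * Real.log |(z : ℝ)| := by
  have hmem : ∀ i : ℕ, (G a b 1)^[i] z ∈ Z := fun i => (cyc_mem hZ hz _).2 ⟨i, rfl⟩
  have hMR : (1 : ℝ) ≤ M := by exact_mod_cast hM1
  have hbigR : ∀ i : ℕ, (M : ℝ) ≤ |(((G a b 1)^[i] z : ℤ) : ℝ)| := by
    intro i
    rw [← Int.cast_abs]
    exact_mod_cast hbig _ (hmem i)
  have hzM : (M : ℝ) ≤ |(z : ℝ)| := hbigR 0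
  have hlogM : Real.log M ≤ Real.log |(z : ℝ)| := Real.log_le_log (by linarith) hzM
  have hlog2 : 0 < Real.log 2 := Real.log_pos (by norm_num)
  have ha0 : a ≠ 0 := by rintro rfl; omega
  have hb0 : b ≠ 0 := by rintro rfl; omega
  have hA1 : (2 : ℝ) ≤ |(a : ℝ)| + |(b : ℝ)| := by
    have h1 : (1 : ℝ) ≤ |(a : ℝ)| := by
      rw [← Int.cast_abs]; exact_mod_cast Int.one_le_abs ha0
    have h2 : (1 : ℝ) ≤ |(b : ℝ)| := by rw [← Int.cast_abs]; exact_mod_cast Int.one_le_abs hb0
    linarith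
  constructor
  · have h1 := lower ha hb (r := 1) le_rfl z j
    have h2 : |z| ≤ 2 ^ j * (|(G a b 1)^[j] z| + |(G a b 1)^[j] z|) := by
      refine h1.trans (mul_le_mul_of_nonneg_left ?_ (by positivity))
      have := hbig _ (hmem j)
      linarith
    have h3 : |(z : ℝ)| ≤ 2 ^ (j + 1) * |(((G a b 1)^[j] z : ℤ) : ℝ)| := by
      rw [← Int.cast_abs, ← Int.cast_abs]
      have : |z| ≤ 2 ^ (j + 1) * |(G a b 1)^[j] z| := by
        rw [pow_succ]
        linarith
      exact_mod_cast this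
    have h4 := Real.log_le_log (by linarith) h3
    rw [Real.log_mul (by positivity) (by have := hbigR j; exact (by linarith : (0 : ℝ) <
      |(((G a b 1)^[j] z : ℤ) : ℝ)|).ne'), Real.log_pow] at h4
    have h5 : (((j + 1 : ℕ)) : ℝ) ≤ w := by exact_mod_cast hj
    have h6 := mul_le_mul_of_nonneg_right h5 hlog2.le
    linarith
  · have h1 : ∀ i : ℕ, |(((G a b 1)^[i] z : ℤ) : ℝ)| ≤ (|(a : ℝ)| + |(b : ℝ)|) ^ i * |(z : ℝ)| := by
      intro i
      induction i with
      | zero => simp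
      | succ i ih =>
        rw [Function.iterate_succ_apply']
        have h2 : |G a b 1 ((G a b 1)^[i] z)| ≤ (|a| + |b|) * |(G a b 1)^[i] z| := by
          set y := (G a b 1)^[i] z with hy
          have hy1 : 1 ≤ |y| := by
            have := hbig _ (hmem i)
            have h1' : (1 : ℤ) ≤ M := by exact_mod_cast hM1
            linarith
          have ha1 : 1 ≤ |a| := Int.one_le_abs ha0
          have hb1 : 1 ≤ |b| := Int.one_le_abs hb0
          by_cases ho : y % 2 = 1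
          · have h3 := G_odd ha hb (r := 1) le_rfl ho
            rw [pow_one] at h3
            have h4 : 2 * |G a b 1 y| = |a * y + b| := by rw [← h3, abs_mul, abs_two]
            have h5 := abs_add_le (a * y) b
            rw [abs_mul] at h5
            have h6 := abs_nonneg (G a b 1 y)
            nlinarith
          · have h3 := G_even (a := a) (b := b) (r := 1) (show y % 2 = 0 by omega)
            have h4 : 2 * |G a b 1 y| = |y| := by conv_rhs => rw [← h3, abs_mul, abs_two]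
            have h6 := abs_nonneg (G a b 1 y)
            nlinarith
        have h3 : |((G a b 1 ((G a b 1)^[i] z) : ℤ) : ℝ)| ≤
            (|(a : ℝ)| + |(b : ℝ)|) * |(((G a b 1)^[i] z : ℤ) : ℝ)| := by
          rw [← Int.cast_abs, ← Int.cast_abs, ← Int.cast_abs, ← Int.cast_abs]
          exact_mod_cast h2
        calc _ ≤ (|(a : ℝ)| + |(b : ℝ)|) * |(((G a b 1)^[i] z : ℤ) : ℝ)| := h3
          _ ≤ (|(a : ℝ)| + |(b : ℝ)|) * ((|(a : ℝ)| + |(b : ℝ)|) ^ i * |(z : ℝ)|) :=
              mul_le_mul_of_nonneg_left ih (by linarith)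
          _ = _ := by ring
    have h2 := Real.log_le_log (by have := hbigR j; linarith) (h1 j)
    rw [Real.log_mul (pow_pos (by linarith) j).ne' (by linarith : (0 : ℝ) < |(z : ℝ)|).ne',
      Real.log_pow] at h2
    have h3 : (j : ℝ) * Real.log (|(a : ℝ)| + |(b : ℝ)|) ≤
        w * Real.log (|(a : ℝ)| + |(b : ℝ)|) := by
      apply mul_le_mul_of_nonneg_right _ (Real.log_nonneg (by linarith))
      exact_mod_cast hj.le
    linarith

include ha hb in
/-- the sum over all elements is bounded by the one over the odd elements -/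
theorem all_le_odd {Z : Finset ℤ} (hZ : IsCyc (G a b 1) Z) (hbig : ∀ z ∈ Z, 1 ≤ Real.log |(z : ℝ)|) :
    ∑ z ∈ Z, Real.log |(z : ℝ)| ≤
      (1 + (2 * Real.log (|(a : ℝ)| + |(b : ℝ)|) + Real.log (|(a : ℝ)| + |(b : ℝ)|) ^ 2) /
        Real.log 2) * ∑ z ∈ Z.filter (fun z => z % 2 = 1), Real.log |(z : ℝ)| := by
  set A : ℝ := Real.log (|(a : ℝ)| + |(b : ℝ)|) with hA
  have ha0 : a ≠ 0 := by rintro rfl; omega
  have hb0 : b ≠ 0 := by rintro rfl; omega
  have hA1 : (2 : ℝ) ≤ |(a : ℝ)| + |(b : ℝ)| := by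
    have h1 : (1 : ℝ) ≤ |(a : ℝ)| := by
      rw [← Int.cast_abs]; exact_mod_cast Int.one_le_abs ha0
    have h2 : (1 : ℝ) ≤ |(b : ℝ)| := by rw [← Int.cast_abs]; exact_mod_cast Int.one_le_abs hb0
    linarith
  have hA0 : 0 < A := Real.log_pos (by linarith)
  have hlog2 : 0 < Real.log 2 := Real.log_pos (by norm_num)
  have hlog21 : Real.log 2 ≤ 1 := by
    have := Real.log_two_lt_d9
    linarith
  have hne : ∀ z ∈ Z, z ≠ 0 := by
    rintro z hz rfl
    have := hbig 0 hz
    simp at this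
    linarith
  have hmem : ∀ z ∈ Z, G a b 1 z ∈ Z := fun z hz => (cyc_mem hZ hz _).2 ⟨1, rfl⟩
  have h0 := sum_step hZ (fun z => Real.log |(z : ℝ)| ^ 2)
  beta_reduce at h0
  have hstep : ∀ z ∈ Z, Real.log |((G a b 1 z : ℤ) : ℝ)| ^ 2 - Real.log |(z : ℝ)| ^ 2 ≤
      if z % 2 = 1 then (2 * A + A ^ 2) * Real.log |(z : ℝ)| else
        - (Real.log 2 * Real.log |(z : ℝ)|) := by
    intro z hz
    have hu := hbig z hz
    have hv := hbig _ (hmem z hz)
    have hz1 : 1 ≤ |z| := Int.one_le_abs (hne z hz)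
    have hzR : (1 : ℝ) ≤ |(z : ℝ)| := by rw [← Int.cast_abs]; exact_mod_cast hz1
    have hgR : (1 : ℝ) ≤ |((G a b 1 z : ℤ) : ℝ)| := by
      rw [← Int.cast_abs]; exact_mod_cast Int.one_le_abs (hne _ (hmem z hz))
    split_ifs with ho
    · have h3 := G_odd ha hb (r := 1) le_rfl ho
      rw [pow_one] at h3
      have h4 : 2 * |G a b 1 z| = |a * z + b| := by rw [← h3, abs_mul, abs_two]
      have h5 := abs_add_le (a * z) b
      rw [abs_mul] at h5
      have h6 := abs_nonneg (G a b 1 z)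
      have h7 : |G a b 1 z| ≤ (|a| + |b|) * |z| := by
        have hb1 : 0 ≤ |b| := abs_nonneg b
        nlinarith
      have h8 : |((G a b 1 z : ℤ) : ℝ)| ≤ (|(a : ℝ)| + |(b : ℝ)|) * |(z : ℝ)| := by
        rw [← Int.cast_abs, ← Int.cast_abs, ← Int.cast_abs, ← Int.cast_abs]
        exact_mod_cast h7
      have h9 := Real.log_le_log (by linarith) h8
      rw [Real.log_mul (by linarith) (by linarith)] at h9
      have h10 : Real.log |((G a b 1 z : ℤ) : ℝ)| ^ 2 ≤ (A + Real.log |(z : ℝ)|) ^ 2 :=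
        pow_le_pow_left₀ (by linarith) h9 2
      nlinarith [mul_nonneg (sq_nonneg A) (by linarith : 0 ≤ Real.log |(z : ℝ)| - 1)]
    · have h3 := G_even (a := a) (b := b) (r := 1) (show z % 2 = 0 by omega)
      have h4 : 2 * |G a b 1 z| = |z| := by conv_rhs => rw [← h3, abs_mul, abs_two]
      have h5 : |(z : ℝ)| = 2 * |((G a b 1 z : ℤ) : ℝ)| := by
        rw [← Int.cast_abs, ← Int.cast_abs]
        exact_mod_cast h4.symm
      have h6 : Real.log |(z : ℝ)| = Real.log 2 + Real.log |((G a b 1 z : ℤ) : ℝ)| := by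
        rw [h5, Real.log_mul (by norm_num) (by linarith)]
      have h7 : Real.log |((G a b 1 z : ℤ) : ℝ)| = Real.log |(z : ℝ)| - Real.log 2 := by linarith
      rw [h7]
      nlinarith
  have h1 := Finset.sum_le_sum hstep
  rw [Finset.sum_sub_distrib, h0, sub_self, Finset.sum_ite, Finset.sum_neg_distrib,
    ← Finset.mul_sum, ← Finset.mul_sum] at h1
  have h2 : ∑ z ∈ Z, Real.log |(z : ℝ)| = ∑ z ∈ Z.filter (fun z => z % 2 = 1), Real.log |(z : ℝ)| +
      ∑ z ∈ Z.filter (fun z => ¬ z % 2 = 1), Real.log |(z : ℝ)| :=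
    (Finset.sum_filter_add_sum_filter_not _ _ _).symm
  rw [h2, add_mul, one_mul, add_le_add_iff_left, div_mul_eq_mul_div, le_div_iff₀ hlog2]
  linarith

open Classical in
include ha hb in
/-- **The `S`-part of the product of the odd elements of a cycle.** -/
theorem sprod (S : Finset ℕ) (δ : ℝ) (hδ : 0 < δ) :
    {Z : Finset ℤ | IsCyc (G a b 1) Z ∧
      (∏ z ∈ Z.filter (fun z => z % 2 = 1), |(z : ℝ)|) ^ δ <
        ∏ z ∈ Z.filter (fun z => z % 2 = 1), (sPart S z : ℝ)}.Finite := by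
  set A : ℝ := Real.log (|(a : ℝ)| + |(b : ℝ)|) with hA
  have ha0 : a ≠ 0 := by rintro rfl; omega
  have hb0 : b ≠ 0 := by rintro rfl; omega
  have hA1 : (2 : ℝ) ≤ |(a : ℝ)| + |(b : ℝ)| := by
    have h1 : (1 : ℝ) ≤ |(a : ℝ)| := by
      rw [← Int.cast_abs]; exact_mod_cast Int.one_le_abs ha0
    have h2 : (1 : ℝ) ≤ |(b : ℝ)| := by rw [← Int.cast_abs]; exact_mod_cast Int.one_le_abs hb0
    linarith
  have hA0 : 0 < A := Real.log_pos (by linarith)
  have hlog2 : 0 < Real.log 2 := Real.log_pos (by norm_num)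
  set C : ℝ := 1 + (2 * A + A ^ 2) / Real.log 2 with hC
  have hC1 : 1 ≤ C := by
    have : 0 ≤ (2 * A + A ^ 2) / Real.log 2 := by positivity
    linarith
  set η : ℝ := δ / (2 * C) with hη
  have hη0 : 0 < η := by positivity
  obtain ⟨c, hc, x₀, hW⟩ := traj_count ha hb (r := 1) le_rfl S η hη0
  obtain ⟨w, hw⟩ := exists_nat_gt (8 * C / (η * δ))
  have hw0 : (0 : ℝ) < w := lt_trans (by positivity) hw
  have hw1 : 1 ≤ w := by
    have : 0 < w := by exact_mod_cast hw0
    omega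
  -- the size of the elements
  obtain ⟨M, hM⟩ := exists_nat_gt (max (max x₀ |(b : ℝ)|) (Real.exp (1 + w / c + 2 * w * Real.log 2 +
    w * A)))
  have hMx : x₀ ≤ M := ((le_max_left _ _).trans (le_max_left _ _)).trans hM.le
  have hMb : |b| ≤ (M : ℤ) := by
    have h1 : |(b : ℝ)| ≤ M := ((le_max_right _ _).trans (le_max_left _ _)).trans hM.le
    rw [← Int.cast_abs] at h1
    exact_mod_cast h1
  have hMe : Real.exp (1 + w / c + 2 * w * Real.log 2 + w * A) ≤ M := (le_max_right _ _).trans hM.le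
  have hMpos : (0 : ℝ) < M := lt_of_lt_of_le (Real.exp_pos _) hMe
  have hlogM : 1 + w / c + 2 * w * Real.log 2 + w * A ≤ Real.log M :=
    (Real.le_log_iff_exp_le hMpos).2 hMe
  have e1 : 0 ≤ (w : ℝ) / c := by positivity
  have e2 : 0 ≤ 2 * (w : ℝ) * Real.log 2 := by positivity
  have e3 : 0 ≤ (w : ℝ) * A := by positivity
  have hM1 : 1 ≤ M := by
    have : 0 < M := by exact_mod_cast hMpos
    omega
  apply (small_finite (G a b 1) M).subset
  rintro Z ⟨hZ, hlt⟩
  refine ⟨hZ, ?_⟩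
  by_contra hcon
  push Not at hcon
  refine absurd hlt (not_lt.2 ?_)
  have hbigR : ∀ z ∈ Z, (M : ℝ) ≤ |(z : ℝ)| := by
    intro z hz
    rw [← Int.cast_abs]
    exact_mod_cast hcon z hz
  have hlogZ : ∀ z ∈ Z, Real.log M ≤ Real.log |(z : ℝ)| := fun z hz =>
    Real.log_le_log hMpos (hbigR z hz)
  have hsz := window_sizes ha hb hZ M hM1 hMb hcon w (by linarith) (by
    rw [← hA]
    linarith)
  -- one window
  have hwin : ∀ z ∈ Z, ∑ j ∈ range w, phi S ((G a b 1)^[j] z) ≤
      (4 / (η * w) + η) * ∑ j ∈ range w, Real.log |(((G a b 1)^[j] z : ℤ) : ℝ)| := by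
    intro z hz
    have hcount := hW z (hMx.trans (hbigR z hz)) (w - 1) (by
      have h6 : (((w - 1 : ℕ)) : ℝ) ≤ w := by exact_mod_cast Nat.sub_le _ _
      have h7 := hlogZ z hz
      have h8 : (w : ℝ) / c ≤ Real.log |(z : ℝ)| := by linarith
      rw [div_le_iff₀ hc] at h8
      linarith)
    rw [Nat.sub_add_cancel hw1] at hcount
    have hpw : ∀ j ∈ range w, phi S ((G a b 1)^[j] z) ≤
        (if Large S η ((G a b 1)^[j] z) then 2 * Real.log |(z : ℝ)| else 0) +
          η * Real.log |(((G a b 1)^[j] z : ℤ) : ℝ)| := by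
      intro j hj
      obtain ⟨h1, h2⟩ := hsz z hz j (Finset.mem_range.1 hj)
      have h3 : 0 ≤ Real.log |(z : ℝ)| := by linarith [hlogZ z hz]
      split_ifs with hL
      · have h4 := phi_le S ((G a b 1)^[j] z)
        have h5 : 0 ≤ η * Real.log |(((G a b 1)^[j] z : ℤ) : ℝ)| :=
          mul_nonneg hη0.le (by linarith)
        linarith
      · rw [zero_add]
        exact phi_small S η hη0.le _ hL
    refine (Finset.sum_le_sum hpw).trans ?_
    rw [Finset.sum_add_distrib, ← Finset.mul_sum, ← Finset.sum_filter, Finset.sum_const,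
      nsmul_eq_mul, add_mul]
    apply add_le_add_left
    have h1 : (w : ℝ) * (Real.log |(z : ℝ)| / 2) ≤
        ∑ j ∈ range w, Real.log |(((G a b 1)^[j] z : ℤ) : ℝ)| := by
      have := Finset.card_nsmul_le_sum (range w)
        (fun j => Real.log |(((G a b 1)^[j] z : ℤ) : ℝ)|) (Real.log |(z : ℝ)| / 2)
        (fun j hj => (hsz z hz j (Finset.mem_range.1 hj)).1)
      rwa [Finset.card_range, nsmul_eq_mul] at this
    have h2 : (((range w).filter fun j => Large S η ((G a b 1)^[j] z)).card : ℝ) ≤ 1 / η := by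
      rw [le_div_iff₀ hη0, mul_comm]
      exact hcount
    have h3 : 0 ≤ Real.log |(z : ℝ)| := by linarith [hlogZ z hz]
    calc (((range w).filter fun j => Large S η ((G a b 1)^[j] z)).card : ℝ) *
          (2 * Real.log |(z : ℝ)|) ≤ 1 / η * (2 * Real.log |(z : ℝ)|) :=
          mul_le_mul_of_nonneg_right h2 (by linarith)
      _ = 4 / (η * w) * (w * (Real.log |(z : ℝ)| / 2)) := by
          field_simp
          ring
      _ ≤ _ := mul_le_mul_of_nonneg_left h1 (by positivity)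
  -- all windows
  have hall := Finset.sum_le_sum hwin
  rw [Finset.sum_comm, ← Finset.mul_sum, Finset.sum_comm (s := Z) (t := range w)] at hall
  rw [Finset.sum_congr rfl fun j _ => sum_iter hZ (phi S) j,
    Finset.sum_congr rfl fun j _ => sum_iter hZ (fun z => Real.log |(z : ℝ)|) j,
    Finset.sum_const, Finset.sum_const, Finset.card_range, nsmul_eq_mul, nsmul_eq_mul] at hall
  have hall2 : ∑ z ∈ Z, phi S z ≤ (4 / (η * w) + η) * ∑ z ∈ Z, Real.log |(z : ℝ)| := by
    have h1 : (w : ℝ) * ∑ z ∈ Z, phi S z ≤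
        w * ((4 / (η * w) + η) * ∑ z ∈ Z, Real.log |(z : ℝ)|) := by
      refine hall.trans (le_of_eq ?_)
      ring
    exact le_of_mul_le_mul_left h1 hw0
  have hodd := all_le_odd ha hb hZ (fun z hz => by linarith [hlogZ z hz])
  rw [← hA, ← hC] at hodd
  have hcoef : (4 / (η * w) + η) * C ≤ δ := by
    have h1 : η * C = δ / 2 := by
      rw [hη]
      field_simp
    have h2 : 4 / (η * w) * C ≤ δ / 2 := by
      rw [div_mul_eq_mul_div, div_le_iff₀ (by positivity)]
      rw [div_lt_iff₀ (by positivity)] at hw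
      linarith
    linarith
  have hphi : ∑ z ∈ Z, phi S z =
      ∑ z ∈ Z.filter (fun z => z % 2 = 1), Real.log (sPart S z) := by
    rw [Finset.sum_filter]
    rfl
  have hoddnn : 0 ≤ ∑ z ∈ Z.filter (fun z => z % 2 = 1), Real.log |(z : ℝ)| := by
    apply Finset.sum_nonneg
    intro z hz
    linarith [hlogZ z (Finset.mem_filter.1 hz).1]
  have hfinal : ∑ z ∈ Z.filter (fun z => z % 2 = 1), Real.log (sPart S z) ≤
      δ * ∑ z ∈ Z.filter (fun z => z % 2 = 1), Real.log |(z : ℝ)| := by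
    rw [← hphi]
    calc _ ≤ (4 / (η * w) + η) * ∑ z ∈ Z, Real.log |(z : ℝ)| := hall2
      _ ≤ (4 / (η * w) + η) * (C * ∑ z ∈ Z.filter (fun z => z % 2 = 1), Real.log |(z : ℝ)|) :=
          mul_le_mul_of_nonneg_left hodd (by positivity)
      _ = ((4 / (η * w) + η) * C) * ∑ z ∈ Z.filter (fun z => z % 2 = 1), Real.log |(z : ℝ)| := by
          ring
      _ ≤ _ := mul_le_mul_of_nonneg_right hcoef hoddnn
  have hpos1 : 0 < ∏ z ∈ Z.filter (fun z => z % 2 = 1), |(z : ℝ)| :=
    Finset.prod_pos fun z hz => lt_of_lt_of_le hMpos (hbigR z (Finset.mem_filter.1 hz).1)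
  have hpos2 : 0 < ∏ z ∈ Z.filter (fun z => z % 2 = 1), (sPart S z : ℝ) :=
    Finset.prod_pos fun z _ => by exact_mod_cast sPart_pos S z
  rw [← Real.log_le_log_iff hpos2 (Real.rpow_pos_of_pos hpos1 δ), Real.log_rpow hpos1,
    Real.log_prod (fun z _ => by
      have := sPart_pos S z
      positivity),
    Real.log_prod (fun z hz => by
      have := lt_of_lt_of_le hMpos (hbigR z (Finset.mem_filter.1 hz).1)
      exact this.ne')]
  exact hfinal

end Pool.Agent.H977.PW
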