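import Mathlib
import Pool.Agent.H977.PW.SProd

set_option autoImplicit false

/-!
The `S`-part of the product of the numbers `z - c` over the elements of a cycle.
-/

open Finset Filter Topology

namespace Pool.Agent.H977.PW

open Pool.Agent.H977.SP

/-- `z` does not follow the whole period of `c` -/
def Away (a b c z : ℤ) : Prop :=
  ∀ n : ℕ, 1 ≤ n → (G a b 1)^[n] c = c → ¬ ((2 : ℤ) ^ n ∣ z - c)

variable {a b : ℤ} (ha : a % 2 = 1) (hb : b % 2 = 1)

include ha hb in
theorem branch (y c : ℤ) (l : ℕ) (h : (2 : ℤ) ^ l ∣ y - c) :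
    (2 : ℤ) ^ l * ((G a b 1)^[l] y - (G a b 1)^[l] c) = a ^ (kk a b 1 y l) * (y - c) := by
  induction l with
  | zero => simp [kk]
  | succ l ih =>
    have h1 := ih (Dvd.dvd.trans (pow_dvd_pow 2 (Nat.le_succ l)) h)
    obtain ⟨q, hq⟩ := h
    have h2 : (G a b 1)^[l] y - (G a b 1)^[l] c = 2 * (a ^ (kk a b 1 y l) * q) := by
      apply mul_left_cancel₀ (pow_ne_zero l (two_ne_zero : (2 : ℤ) ≠ 0))
      rw [h1, hq]
      ring
    rw [Function.iterate_succ_apply', Function.iterate_succ_apply', kk]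
    set u := (G a b 1)^[l] y
    set v := (G a b 1)^[l] c
    rcases Int.emod_two_eq_zero_or_one u with he | ho
    · have hv : v % 2 = 0 := by omega
      have e1 := G_even (a := a) (b := b) (r := 1) he
      have e2 := G_even (a := a) (b := b) (r := 1) hv
      rw [if_pos he, add_zero, pow_succ]
      linear_combination (2 : ℤ) ^ l * (e1 - e2) + h1
    · have hv : v % 2 = 1 := by omega
      have e1 := G_odd ha hb (r := 1) le_rfl ho
      have e2 := G_odd ha hb (r := 1) le_rfl hv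
      rw [if_neg (by omega), pow_succ, pow_succ]
      linear_combination (2 : ℤ) ^ l * (e1 - e2) + a * h1

theorem hh1 (x : ℤ) (n : ℕ) : hh a b 1 x n = n := by
  induction n with
  | zero => rfl
  | succ n ih =>
    rw [hh, ih]
    split_ifs <;> rfl

theorem kk_add (x : ℤ) (i l : ℕ) :
    kk a b 1 x (i + l) = kk a b 1 x i + kk a b 1 ((G a b 1)^[i] x) l := by
  induction l with
  | zero => simp [kk]
  | succ l ih =>
    have h1 : (G a b 1)^[i + l] x = (G a b 1)^[l] ((G a b 1)^[i] x) := by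
      rw [add_comm i l, Function.iterate_add_apply]
    rw [← add_assoc, kk, ih, h1, kk, add_assoc]

include ha hb in
theorem partsc (c x : ℤ) (n : ℕ) : ∃ X : ℤ, ∃ F : ℕ → ℤ,
    |x| ≤ |X| ∧ |X| ≤ (|a| + 2) ^ n * |x| ∧
    (∀ i ≤ n, |F i - X| ≤ (|b| + |c|) * (|a| + 2) ^ n) ∧
    (∀ i ≤ n, (G a b 1)^[i] x ≠ c → F i ≠ 0 ∧ ((G a b 1)^[i] x - c) ∣ F i) ∧
    (∀ i ≤ n, ∀ j ≤ n, Away a b c ((G a b 1)^[i] x) → Away a b c ((G a b 1)^[j] x) →
      F i = F j → i = j) := by
  have ha1 : 1 ≤ |a| := Int.one_le_abs (by rintro rfl; omega)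
  have ha0 : a ≠ 0 := by rintro rfl; omega
  set K := kk a b 1 x n with hK
  have hKn : K ≤ n := by
    have := (kk_mono (a := a) (b := b) (r := 1) x (Nat.zero_le n)).2
    rw [kk] at this
    omega
  refine ⟨a ^ K * x, fun i => a ^ (K - kk a b 1 x i) * (2 ^ i * ((G a b 1)^[i] x - c)),
    ?_, ?_, ?_, ?_, ?_⟩
  · rw [abs_mul, abs_pow]
    have h1 : 1 ≤ |a| ^ K := one_le_pow₀ ha1
    have := abs_nonneg x
    nlinarith
  · rw [abs_mul, abs_pow]
    apply mul_le_mul_of_nonneg_right _ (abs_nonneg x)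
    calc |a| ^ K ≤ (|a| + 2) ^ K := pow_le_pow_left₀ (abs_nonneg a) (by omega) K
      _ ≤ (|a| + 2) ^ n := pow_le_pow_right₀ (by omega) hKn
  · intro i hi
    obtain ⟨e, h1, h2⟩ := form ha hb (r := 1) le_rfl x i
    rw [hh1] at h1
    obtain ⟨h3, h4⟩ := kk_mono (a := a) (b := b) (r := 1) x hi
    beta_reduce
    have h5 : a ^ (K - kk a b 1 x i) * (2 ^ i * ((G a b 1)^[i] x - c)) - a ^ K * x =
        a ^ (K - kk a b 1 x i) * (e - 2 ^ i * c) := by
      have h6 : a ^ K = a ^ (K - kk a b 1 x i) * a ^ (kk a b 1 x i) := by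
        rw [← pow_add, Nat.sub_add_cancel h3]
      rw [h6]
      linear_combination a ^ (K - kk a b 1 x i) * h1
    rw [h5, abs_mul, abs_pow]
    have h7 : |a| ^ (K - kk a b 1 x i) ≤ (|a| + 2) ^ (n - i) :=
      calc |a| ^ (K - kk a b 1 x i) ≤ (|a| + 2) ^ (K - kk a b 1 x i) :=
            pow_le_pow_left₀ (abs_nonneg a) (by omega) _
        _ ≤ (|a| + 2) ^ (n - i) := pow_le_pow_right₀ (by omega) h4
    have h8 : |e - 2 ^ i * c| ≤ (|b| + |c|) * (|a| + 2) ^ i := by
      refine (abs_sub _ _).trans ?_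
      rw [abs_mul, abs_pow, abs_two]
      have h9 : (2 : ℤ) ^ i ≤ (|a| + 2) ^ i := pow_le_pow_left₀ (by norm_num) (by omega) i
      have h10 := mul_le_mul_of_nonneg_right h9 (abs_nonneg c)
      linarith
    calc |a| ^ (K - kk a b 1 x i) * |e - 2 ^ i * c| ≤
          (|a| + 2) ^ (n - i) * ((|b| + |c|) * (|a| + 2) ^ i) := by gcongr
      _ = (|b| + |c|) * ((|a| + 2) ^ (n - i) * (|a| + 2) ^ i) := by ring
      _ = (|b| + |c|) * (|a| + 2) ^ n := by rw [← pow_add, Nat.sub_add_cancel hi]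
  · intro i _ ho
    refine ⟨?_, ?_⟩
    · apply mul_ne_zero (pow_ne_zero _ ha0)
      apply mul_ne_zero (by positivity)
      intro h
      exact ho (by linarith)
    · exact Dvd.dvd.mul_left (Dvd.dvd.mul_left dvd_rfl _) _
  · -- injectivity
    have key : ∀ i j, i < j → j ≤ n → Away a b c ((G a b 1)^[i] x) →
        a ^ (K - kk a b 1 x i) * (2 ^ i * ((G a b 1)^[i] x - c)) ≠
        a ^ (K - kk a b 1 x j) * (2 ^ j * ((G a b 1)^[j] x - c)) := by
      intro i j hij hj hi h
      obtain ⟨l, hl⟩ := Nat.exists_eq_add_of_lt hij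
      have hj' : j = i + (l + 1) := by omega
      have h3 := (kk_mono (a := a) (b := b) (r := 1) x hj).1
      have hk : K - kk a b 1 x i = (K - kk a b 1 x j) + kk a b 1 ((G a b 1)^[i] x) (l + 1) := by
        have h4 := kk_add (a := a) (b := b) x i (l + 1)
        rw [← hj'] at h4
        omega
      rw [hk, pow_add, mul_assoc] at h
      have h5 := mul_left_cancel₀ (pow_ne_zero _ ha0) h
      have h6 : a ^ (kk a b 1 ((G a b 1)^[i] x) (l + 1)) * ((G a b 1)^[i] x - c) =
          2 ^ (l + 1) * ((G a b 1)^[j] x - c) := by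
        apply mul_left_cancel₀ (pow_ne_zero i (two_ne_zero : (2 : ℤ) ≠ 0))
        have h7 : (2 : ℤ) ^ j = 2 ^ i * 2 ^ (l + 1) := by rw [← pow_add, ← hj']
        rw [h7] at h5
        linear_combination h5
      have hcop : IsCoprime ((2 : ℤ) ^ (l + 1)) (a ^ (kk a b 1 ((G a b 1)^[i] x) (l + 1))) := by
        apply IsCoprime.pow
        exact ⟨-(a / 2), 1, by omega⟩
      have hdvd : (2 : ℤ) ^ (l + 1) ∣ (G a b 1)^[i] x - c :=
        hcop.dvd_of_dvd_mul_left ⟨_, h6⟩
      have h8 := branch ha hb _ c (l + 1) hdvd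
      rw [h6] at h8
      have h9 := mul_left_cancel₀ (pow_ne_zero (l + 1) (two_ne_zero : (2 : ℤ) ≠ 0)) h8
      have h10 : (G a b 1)^[l + 1] ((G a b 1)^[i] x) = (G a b 1)^[j] x := by
        rw [← Function.iterate_add_apply, hj', add_comm]
      rw [h10] at h9
      exact hi (l + 1) (by omega) (by linarith) hdvd
    intro i hi j hj ho1 ho2 h
    rcases Nat.lt_trichotomy i j with h1 | h1 | h1
    · exact absurd h (key i j h1 hj ho1)
    · exact h1
    · exact absurd h.symm (key j i h1 hi ho2)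

include ha hb in
/-- **The product of the `S`-parts of `m` numbers `z - c` in a short piece of a trajectory.** -/
theorem traj_windowsc (c : ℤ) (S : Finset ℕ) (m : ℕ) :
    ∃ γ : ℝ, 0 < γ ∧ ∃ x₀ : ℝ, ∀ x : ℤ, x₀ ≤ |(x : ℝ)| → ∀ n : ℕ,
      (n : ℝ) ≤ γ * Real.log |(x : ℝ)| → ∀ I : Finset ℕ, I.card = m →
      (∀ i ∈ I, i ≤ n ∧ (G a b 1)^[i] x ≠ c ∧ Away a b c ((G a b 1)^[i] x)) →
      ∑ i ∈ I, Real.log (sPart S ((G a b 1)^[i] x - c)) ≤ 2 * Real.log |(x : ℝ)| := by
  obtain ⟨s, q, hq, hinj, hlog⟩ := exists_places S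
  obtain ⟨δ, hδ, X₀, hW⟩ := windows q hq hinj m (1 / 2) (by positivity)
  have hb0 : b ≠ 0 := by rintro rfl; omega
  set A : ℝ := Real.log (|(a : ℝ)| + 2) with hA
  have hA0 : 0 < A := Real.log_pos (by have := abs_nonneg (a : ℝ); linarith)
  set B : ℝ := |(b : ℝ)| + |(c : ℝ)| with hB
  have hbR : (1 : ℝ) ≤ B := by
    have h1 : (1 : ℝ) ≤ |(b : ℝ)| := by rw [← Int.cast_abs]; exact_mod_cast Int.one_le_abs hb0
    have := abs_nonneg (c : ℝ)
    linarith
  set κ : ℝ := min (δ / 4) (1 / 8) with hκ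
  have hκ0 : 0 < κ := lt_min (by positivity) (by positivity)
  refine ⟨κ / A, by positivity, max 1 (max X₀ (Real.exp (2 / δ * Real.log B))), ?_⟩
  intro x hx n hn I hI hodd
  have hx1 : 1 ≤ |(x : ℝ)| := (le_max_left _ _).trans hx
  have hx2 : X₀ ≤ |(x : ℝ)| := (le_max_left _ _).trans ((le_max_right _ _).trans hx)
  have hx3 : Real.exp (2 / δ * Real.log B) ≤ |(x : ℝ)| :=
    (le_max_right _ _).trans ((le_max_right _ _).trans hx)
  set L := Real.log |(x : ℝ)| with hL
  have hL0 : 0 ≤ L := Real.log_nonneg hx1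
  have hbL : Real.log B ≤ δ / 2 * L := by
    have h1 : 2 / δ * Real.log B ≤ L := (Real.le_log_iff_exp_le (by linarith)).2 hx3
    have h2 := mul_le_mul_of_nonneg_left h1 (show 0 ≤ δ / 2 by positivity)
    have h3 : δ / 2 * (2 / δ * Real.log B) = Real.log B := by field_simp
    linarith
  have hnA : (n : ℝ) * A ≤ κ * L := by
    have h1 := mul_le_mul_of_nonneg_right hn hA0.le
    have h2 : κ / A * L * A = κ * L := by field_simp
    linarith
  obtain ⟨X, F, h1, h2, h3, h4, h5⟩ := partsc ha hb c x n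
  have h1R : |(x : ℝ)| ≤ |(X : ℝ)| := by
    rw [← Int.cast_abs, ← Int.cast_abs]; exact_mod_cast h1
  have hX1 : 1 ≤ |(X : ℝ)| := hx1.trans h1R
  have hXlog : Real.log |(X : ℝ)| ≤ (1 + κ) * L := by
    have h6 : |(X : ℝ)| ≤ (|(a : ℝ)| + 2) ^ n * |(x : ℝ)| := by
      rw [← Int.cast_abs, ← Int.cast_abs, ← Int.cast_abs]; exact_mod_cast h2
    have h7 := Real.log_le_log (by linarith) h6
    rw [Real.log_mul (by positivity) (by positivity), Real.log_pow] at h7
    have : (n : ℝ) * A ≤ κ * L := hnA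
    linarith
  have hclose : ∀ i ≤ n, |((F i - X : ℤ) : ℝ)| ≤ |(X : ℝ)| ^ δ := by
    intro i hi
    have h6 : |((F i - X : ℤ) : ℝ)| ≤ B * (|(a : ℝ)| + 2) ^ n := by
      rw [hB, ← Int.cast_abs, ← Int.cast_abs, ← Int.cast_abs, ← Int.cast_abs]
      exact_mod_cast h3 i hi
    refine h6.trans ?_
    have h7 : B * (|(a : ℝ)| + 2) ^ n = Real.exp (Real.log B + n * A) := by
      rw [Real.exp_add, Real.exp_log (by linarith), Real.exp_nat_mul,
        Real.exp_log (by have := abs_nonneg (a : ℝ); linarith)]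
    have h8 : |(X : ℝ)| ^ δ = Real.exp (δ * Real.log |(X : ℝ)|) := by
      rw [Real.rpow_def_of_pos (by linarith), mul_comm]
    rw [h7, h8]
    apply Real.exp_le_exp.2
    have h9 : L ≤ Real.log |(X : ℝ)| := Real.log_le_log (by linarith) h1R
    have h10 : κ ≤ δ / 4 := min_le_left _ _
    have h11 : κ * L ≤ δ / 4 * L := mul_le_mul_of_nonneg_right h10 hL0
    have h12 : δ * L ≤ δ * Real.log |(X : ℝ)| := mul_le_mul_of_nonneg_left h9 hδ.le
    nlinarith
  set e := I.orderIsoOfFin hI with he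
  have hemem : ∀ j, ((e j : ℕ)) ∈ I := fun j => (e j).2
  have hmain := hW X (hx2.trans h1R) (fun j => F (e j))
    (fun j => (h4 _ (hodd _ (hemem j)).1 (hodd _ (hemem j)).2.1).1)
    (by
      intro j j' h
      have h6 := h5 _ (hodd _ (hemem j)).1 _ (hodd _ (hemem j')).1 (hodd _ (hemem j)).2.2
        (hodd _ (hemem j')).2.2 h
      exact e.injective (Subtype.ext h6))
    (fun j => hclose _ (hodd _ (hemem j)).1)
  have h6 : ∑ i ∈ I, Real.log (sPart S ((G a b 1)^[i] x - c)) =
      ∑ j : Fin m, Real.log (sPart S ((G a b 1)^[(e j : ℕ)] x - c)) := by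
    rw [← Finset.sum_coe_sort I]
    exact (Equiv.sum_comp e.toEquiv
      (fun i : {i // i ∈ I} => Real.log (sPart S ((G a b 1)^[(i : ℕ)] x - c)))).symm
  rw [h6]
  have h7 : ∑ j : Fin m, Real.log (sPart S ((G a b 1)^[(e j : ℕ)] x - c)) ≤
      ∑ j : Fin m, ∑ v, (vp (q v) (F (e j)) : ℝ) * Real.log (q v) := by
    refine Finset.sum_le_sum fun j _ => ?_
    rw [hlog]
    refine Finset.sum_le_sum fun v _ => ?_
    apply mul_le_mul_of_nonneg_right _ (Real.log_nonneg (by exact_mod_cast (hq v).one_le))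
    obtain ⟨h8, h9⟩ := h4 _ (hodd _ (hemem j)).1 (hodd _ (hemem j)).2.1
    exact_mod_cast vp_mono h8 h9
  refine h7.trans (hmain.trans ?_)
  have h8 : κ ≤ 1 / 8 := min_le_right _ _
  calc (1 + 1 / 2) * Real.log |(X : ℝ)| ≤ (1 + 1 / 2) * ((1 + κ) * L) :=
        mul_le_mul_of_nonneg_left hXlog (by positivity)
    _ = ((1 + 1 / 2) * (1 + κ)) * L := by ring
    _ ≤ 2 * L := mul_le_mul_of_nonneg_right (by linarith) hL0

open Classical in
/-- the logarithm of the `S`-part of `z - c` -/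
noncomputable def phic (a b : ℤ) (S : Finset ℕ) (c z : ℤ) : ℝ :=
  if Away a b c z then Real.log (sPart S (z - c)) else 0

theorem phic_le (S : Finset ℕ) (c z : ℤ) (hz : 2 ≤ |z|) (hc : |c| ≤ |z|) :
    phic a b S c z ≤ 2 * Real.log |(z : ℝ)| := by
  have hzR : (2 : ℝ) ≤ |(z : ℝ)| := by rw [← Int.cast_abs]; exact_mod_cast hz
  have h0 : 0 ≤ Real.log |(z : ℝ)| := Real.log_nonneg (by linarith)
  unfold phic
  split_ifs with h
  · rcases eq_or_ne (z - c) 0 with h1 | h1
    · have : sPart S (z - c) = 1 := by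
        rw [h1]
        unfold sPart
        simp
      rw [this, Nat.cast_one, Real.log_one]
      linarith
    · have h2 := sPart_le S (z - c) h1
      have h3 : ((z - c).natAbs : ℤ) ≤ |z| * |z| := by
        rw [Int.natCast_natAbs]
        refine (abs_sub _ _).trans ?_
        nlinarith
      have h4 : (sPart S (z - c) : ℝ) ≤ |(z : ℝ)| * |(z : ℝ)| := by
        have h5 : ((sPart S (z - c) : ℕ) : ℤ) ≤ |z| * |z| := le_trans (by exact_mod_cast h2) h3
        rw [← Int.cast_abs]
        exact_mod_cast h5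
      have h6 := Real.log_le_log (by exact_mod_cast sPart_pos S (z - c)) h4
      rw [Real.log_mul (by linarith) (by linarith)] at h6
      linarith
  · linarith

open Classical in
include ha hb in
/-- **The `S`-part of the product of the numbers `z - c` for the elements `z` of a cycle.** -/
theorem sprodc (c : ℤ) (S : Finset ℕ) (δ : ℝ) (hδ : 0 < δ) :
    {Z : Finset ℤ | IsCyc (G a b 1) Z ∧
      (∏ z ∈ Z.filter (fun z => z % 2 = 1), |(z : ℝ)|) ^ δ <
        ∏ z ∈ Z.filter (Away a b c), (sPart S (z - c) : ℝ)}.Finite := by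
  set A : ℝ := Real.log (|(a : ℝ)| + |(b : ℝ)|) with hA
  have ha0 : a ≠ 0 := by rintro rfl; omega
  have hb0 : b ≠ 0 := by rintro rfl; omega
  have hA1 : (2 : ℝ) ≤ |(a : ℝ)| + |(b : ℝ)| := by
    have h1 : (1 : ℝ) ≤ |(a : ℝ)| := by
      rw [← Int.cast_abs]; exact_mod_cast Int.one_le_abs ha0
    have h2 : (1 : ℝ) ≤ |(b : ℝ)| := by rw [← Int.cast_abs]; exact_mod_cast Int.one_le_abs hb0
    linarith
  have hA0 : 0 < A := Real.log_pos (by linarith)
  have hlog2 : 0 < Real.log 2 := Real.log_pos (by norm_num)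
  set C : ℝ := 1 + (2 * A + A ^ 2) / Real.log 2 with hC
  have hC1 : 1 ≤ C := by
    have : 0 ≤ (2 * A + A ^ 2) / Real.log 2 := by positivity
    linarith
  set η : ℝ := δ / (2 * C) with hη
  have hη0 : 0 < η := by positivity
  obtain ⟨m, hm⟩ := exists_nat_gt (4 / η)
  have hm0 : (0 : ℝ) < m := lt_trans (by positivity) hm
  obtain ⟨γ, hγ, x₀, hW⟩ := traj_windowsc ha hb c S m
  obtain ⟨w, hw⟩ := exists_nat_gt (16 * m * C / δ)
  have hw0 : (0 : ℝ) < w := lt_trans (by positivity) hw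
  have hw1 : 1 ≤ w := by
    have : 0 < w := by exact_mod_cast hw0
    omega
  -- the size of the elements
  obtain ⟨M, hM⟩ := exists_nat_gt (max (max (max x₀ |(b : ℝ)|) (max |(c : ℝ)| 2))
    (Real.exp (1 + w / γ + 2 * w * Real.log 2 + w * A)))
  have hMx : x₀ ≤ M :=
    (((le_max_left _ _).trans (le_max_left _ _)).trans (le_max_left _ _)).trans hM.le
  have hMb : |b| ≤ (M : ℤ) := by
    have h1 : |(b : ℝ)| ≤ M :=
      (((le_max_right _ _).trans (le_max_left _ _)).trans (le_max_left _ _)).trans hM.le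
    rw [← Int.cast_abs] at h1
    exact_mod_cast h1
  have hMc : |c| < (M : ℤ) := by
    have h1 : |(c : ℝ)| < M := lt_of_le_of_lt
      (((le_max_left _ _).trans (le_max_right _ _)).trans (le_max_left _ _)) hM
    rw [← Int.cast_abs] at h1
    exact_mod_cast h1
  have hM2 : 2 ≤ M := by
    have h1 : (2 : ℝ) ≤ M :=
      (((le_max_right _ _).trans (le_max_right _ _)).trans (le_max_left _ _)).trans hM.le
    exact_mod_cast h1
  have hMe : Real.exp (1 + w / γ + 2 * w * Real.log 2 + w * A) ≤ M := (le_max_right _ _).trans hM.le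
  have hMpos : (0 : ℝ) < M := lt_of_lt_of_le (Real.exp_pos _) hMe
  have hlogM : 1 + w / γ + 2 * w * Real.log 2 + w * A ≤ Real.log M :=
    (Real.le_log_iff_exp_le hMpos).2 hMe
  have e1 : 0 ≤ (w : ℝ) / γ := by positivity
  have e2 : 0 ≤ 2 * (w : ℝ) * Real.log 2 := by positivity
  have e3 : 0 ≤ (w : ℝ) * A := by positivity
  apply (small_finite (G a b 1) M).subset
  rintro Z ⟨hZ, hlt⟩
  refine ⟨hZ, ?_⟩
  by_contra hcon
  push Not at hcon
  refine absurd hlt (not_lt.2 ?_)
  have hbigR : ∀ z ∈ Z, (M : ℝ) ≤ |(z : ℝ)| := by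
    intro z hz
    rw [← Int.cast_abs]
    exact_mod_cast hcon z hz
  have hne : ∀ z ∈ Z, z ≠ c := by
    rintro z hz rfl
    have := hcon z hz
    linarith
  have hlogZ : ∀ z ∈ Z, Real.log M ≤ Real.log |(z : ℝ)| := fun z hz =>
    Real.log_le_log hMpos (hbigR z hz)
  have hsz := window_sizes ha hb hZ M (by omega) hMb hcon w (by linarith) (by
    rw [← hA]
    linarith)
  have hmem : ∀ z ∈ Z, ∀ i : ℕ, (G a b 1)^[i] z ∈ Z := fun z hz i => (cyc_mem hZ hz _).2 ⟨i, rfl⟩
  -- one window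
  have hwin : ∀ z ∈ Z, ∑ j ∈ range w, phic a b S c ((G a b 1)^[j] z) ≤
      (8 * m / w + η) * ∑ j ∈ range w, Real.log |(((G a b 1)^[j] z : ℤ) : ℝ)| := by
    intro z hz
    have hzlog : 0 < Real.log |(z : ℝ)| := by linarith [hlogZ z hz]
    set J := (range w).filter (fun j => Away a b c ((G a b 1)^[j] z) ∧
      η * Real.log |(((G a b 1)^[j] z : ℤ) : ℝ)| <
        Real.log (sPart S ((G a b 1)^[j] z - c))) with hJ
    have hcount : J.card ≤ m := by
      by_contra hcard
      push Not at hcard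
      obtain ⟨I, hI1, hI2⟩ := Finset.exists_subset_card_eq hcard.le
      have h1 := hW z (hMx.trans (hbigR z hz)) (w - 1) (by
        have h6 : (((w - 1 : ℕ)) : ℝ) ≤ w := by exact_mod_cast Nat.sub_le _ _
        have h7 := hlogZ z hz
        have h8 : (w : ℝ) / γ ≤ Real.log |(z : ℝ)| := by linarith
        rw [div_le_iff₀ hγ] at h8
        linarith) I hI2 (by
        intro i hi
        have h2 := hI1 hi
        rw [hJ, Finset.mem_filter, Finset.mem_range] at h2
        exact ⟨by omega, hne _ (hmem z hz i), h2.2.1⟩)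
      have h2 : (m : ℝ) * (η * (Real.log |(z : ℝ)| / 2)) ≤
          ∑ i ∈ I, Real.log (sPart S ((G a b 1)^[i] z - c)) := by
        have := Finset.card_nsmul_le_sum I
          (fun i => Real.log (sPart S ((G a b 1)^[i] z - c) : ℝ)) (η * (Real.log |(z : ℝ)| / 2))
          (fun i hi => by
            have h3 := hI1 hi
            rw [hJ, Finset.mem_filter, Finset.mem_range] at h3
            have h4 := (hsz z hz i h3.1).1
            exact (mul_le_mul_of_nonneg_left h4 hη0.le).trans h3.2.2.le)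
        rwa [hI2, nsmul_eq_mul] at this
      have h3 : 4 < m * η := by rwa [div_lt_iff₀ hη0] at hm
      have h4 := mul_lt_mul_of_pos_right h3 hzlog
      nlinarith
    have hpw : ∀ j ∈ range w, phic a b S c ((G a b 1)^[j] z) ≤
        (if j ∈ J then 4 * Real.log |(z : ℝ)| else 0) +
          η * Real.log |(((G a b 1)^[j] z : ℤ) : ℝ)| := by
      intro j hj
      obtain ⟨h1, h2⟩ := hsz z hz j (Finset.mem_range.1 hj)
      have h5 : 0 ≤ η * Real.log |(((G a b 1)^[j] z : ℤ) : ℝ)| :=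
        mul_nonneg hη0.le (by linarith)
      split_ifs with hL
      · have hzz := hcon _ (hmem z hz j)
        have hM2' : (2 : ℤ) ≤ M := by exact_mod_cast hM2
        have h4 := phic_le (a := a) (b := b) S c ((G a b 1)^[j] z) (by linarith) (by linarith)
        linarith
      · rw [zero_add]
        unfold phic
        split_ifs with hAw
        · by_contra hcon2
          push Not at hcon2
          exact hL (Finset.mem_filter.2 ⟨hj, hAw, hcon2⟩)
        · exact h5
    refine (Finset.sum_le_sum hpw).trans ?_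
    rw [Finset.sum_add_distrib, ← Finset.mul_sum, ← Finset.sum_filter, Finset.sum_const,
      nsmul_eq_mul, add_mul]
    apply add_le_add_left
    have h1 : (w : ℝ) * (Real.log |(z : ℝ)| / 2) ≤
        ∑ j ∈ range w, Real.log |(((G a b 1)^[j] z : ℤ) : ℝ)| := by
      have := Finset.card_nsmul_le_sum (range w)
        (fun j => Real.log |(((G a b 1)^[j] z : ℤ) : ℝ)|) (Real.log |(z : ℝ)| / 2)
        (fun j hj => (hsz z hz j (Finset.mem_range.1 hj)).1)
      rwa [Finset.card_range, nsmul_eq_mul] at this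
    have h2 : (((range w).filter fun j => j ∈ J).card : ℝ) ≤ m := by
      have h3 : ((range w).filter fun j => j ∈ J) ⊆ J := by
        intro j hj
        exact (Finset.mem_filter.1 hj).2
      exact_mod_cast (Finset.card_le_card h3).trans hcount
    calc (((range w).filter fun j => j ∈ J).card : ℝ) *
          (4 * Real.log |(z : ℝ)|) ≤ m * (4 * Real.log |(z : ℝ)|) :=
          mul_le_mul_of_nonneg_right h2 (by linarith)
      _ = 8 * m / w * (w * (Real.log |(z : ℝ)| / 2)) := by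
          field_simp
          ring
      _ ≤ _ := mul_le_mul_of_nonneg_left h1 (by positivity)
  -- all windows
  have hall := Finset.sum_le_sum hwin
  rw [Finset.sum_comm, ← Finset.mul_sum, Finset.sum_comm (s := Z) (t := range w)] at hall
  rw [Finset.sum_congr rfl fun j _ => sum_iter hZ (phic a b S c) j,
    Finset.sum_congr rfl fun j _ => sum_iter hZ (fun z => Real.log |(z : ℝ)|) j,
    Finset.sum_const, Finset.sum_const, Finset.card_range, nsmul_eq_mul, nsmul_eq_mul] at hall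
  have hall2 : ∑ z ∈ Z, phic a b S c z ≤ (8 * m / w + η) * ∑ z ∈ Z, Real.log |(z : ℝ)| := by
    have h1 : (w : ℝ) * ∑ z ∈ Z, phic a b S c z ≤
        w * ((8 * m / w + η) * ∑ z ∈ Z, Real.log |(z : ℝ)|) := by
      refine hall.trans (le_of_eq ?_)
      ring
    exact le_of_mul_le_mul_left h1 hw0
  have hodd := all_le_odd ha hb hZ (fun z hz => by linarith [hlogZ z hz])
  rw [← hA, ← hC] at hodd
  have hcoef : (8 * m / w + η) * C ≤ δ := by
    have h1 : η * C = δ / 2 := by
      rw [hη]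
      field_simp
    have h2 : 8 * m / w * C ≤ δ / 2 := by
      rw [div_mul_eq_mul_div, div_le_iff₀ hw0]
      rw [div_lt_iff₀ hδ] at hw
      linarith
    linarith
  have hphi : ∑ z ∈ Z, phic a b S c z =
      ∑ z ∈ Z.filter (Away a b c), Real.log (sPart S (z - c)) := by
    rw [Finset.sum_filter]
    rfl
  have hoddnn : 0 ≤ ∑ z ∈ Z.filter (fun z => z % 2 = 1), Real.log |(z : ℝ)| := by
    apply Finset.sum_nonneg
    intro z hz
    linarith [hlogZ z (Finset.mem_filter.1 hz).1]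
  have hfinal : ∑ z ∈ Z.filter (Away a b c), Real.log (sPart S (z - c)) ≤
      δ * ∑ z ∈ Z.filter (fun z => z % 2 = 1), Real.log |(z : ℝ)| := by
    rw [← hphi]
    calc _ ≤ (8 * m / w + η) * ∑ z ∈ Z, Real.log |(z : ℝ)| := hall2
      _ ≤ (8 * m / w + η) * (C * ∑ z ∈ Z.filter (fun z => z % 2 = 1), Real.log |(z : ℝ)|) :=
          mul_le_mul_of_nonneg_left hodd (by positivity)
      _ = ((8 * m / w + η) * C) * ∑ z ∈ Z.filter (fun z => z % 2 = 1), Real.log |(z : ℝ)| := by
          ring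
      _ ≤ _ := mul_le_mul_of_nonneg_right hcoef hoddnn
  have hpos1 : 0 < ∏ z ∈ Z.filter (fun z => z % 2 = 1), |(z : ℝ)| :=
    Finset.prod_pos fun z hz => lt_of_lt_of_le hMpos (hbigR z (Finset.mem_filter.1 hz).1)
  have hpos2 : 0 < ∏ z ∈ Z.filter (Away a b c), (sPart S (z - c) : ℝ) :=
    Finset.prod_pos fun z _ => by exact_mod_cast sPart_pos S (z - c)
  rw [← Real.log_le_log_iff hpos2 (Real.rpow_pos_of_pos hpos1 δ), Real.log_rpow hpos1,
    Real.log_prod (fun z _ => by
      have := sPart_pos S (z - c)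
      positivity),
    Real.log_prod (fun z hz => by
      have := lt_of_lt_of_le hMpos (hbigR z (Finset.mem_filter.1 hz).1)
      exact this.ne')]
  exact hfinal

end Pool.Agent.H977.PW
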