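import Mathlib
import Pool.Agent.H977.PW.Shift

set_option autoImplicit false

/-!
The `S`-part of the product of the numbers `z - c` along a divergent trajectory.
-/

open Finset Filter Topology

namespace Pool.Agent.H977.PW

open Pool.Agent.H977.SP

variable {a b : ℤ} (ha : a % 2 = 1) (hb : b % 2 = 1)

include ha hb in
theorem step_up (y : ℤ) (hy : y ≠ 0) : |G a b 1 y| ≤ (|a| + |b|) * |y| := by
  have ha0 : a ≠ 0 := by rintro rfl; omega
  have hb0 : b ≠ 0 := by rintro rfl; omega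
  have hy1 : 1 ≤ |y| := Int.one_le_abs hy
  have ha1 : 1 ≤ |a| := Int.one_le_abs ha0
  have hb1 : 1 ≤ |b| := Int.one_le_abs hb0
  by_cases ho : y % 2 = 1
  · have h3 := G_odd ha hb (r := 1) le_rfl ho
    rw [pow_one] at h3
    have h4 : 2 * |G a b 1 y| = |a * y + b| := by rw [← h3, abs_mul, abs_two]
    have h5 := abs_add_le (a * y) b
    rw [abs_mul] at h5
    have h6 := abs_nonneg (G a b 1 y)
    nlinarith
  · have h3 := G_even (a := a) (b := b) (r := 1) (show y % 2 = 0 by omega)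
    have h4 : 2 * |G a b 1 y| = |y| := by conv_rhs => rw [← h3, abs_mul, abs_two]
    have h6 := abs_nonneg (G a b 1 y)
    nlinarith

include ha hb in
/-- the logarithms in a window starting at `z` -/
theorem window_sizes' (M : ℕ) (hM1 : 1 ≤ M) (hMb : |b| ≤ M) (z : ℤ)
    (hbig : ∀ i : ℕ, (M : ℤ) ≤ |(G a b 1)^[i] z|) (w : ℕ)
    (hw1 : (w : ℝ) * Real.log 2 ≤ Real.log M / 2)
    (hw2 : (w : ℝ) * Real.log (|(a : ℝ)| + |(b : ℝ)|) ≤ Real.log M) (j : ℕ)
    (hj : j < w) :
    Real.log |(z : ℝ)| / 2 ≤ Real.log |(((G a b 1)^[j] z : ℤ) : ℝ)| ∧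
      Real.log |(((G a b 1)^[j] z : ℤ) : ℝ)| ≤ 2 * Real.log |(z : ℝ)| := by
  have hMR : (1 : ℝ) ≤ M := by exact_mod_cast hM1
  have hbigR : ∀ i : ℕ, (M : ℝ) ≤ |(((G a b 1)^[i] z : ℤ) : ℝ)| := by
    intro i
    rw [← Int.cast_abs]
    exact_mod_cast hbig i
  have hzM : (M : ℝ) ≤ |(z : ℝ)| := hbigR 0
  have hlogM : Real.log M ≤ Real.log |(z : ℝ)| := Real.log_le_log (by linarith) hzM
  have hlog2 : 0 < Real.log 2 := Real.log_pos (by norm_num)
  have ha0 : a ≠ 0 := by rintro rfl; omega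
  have hb0 : b ≠ 0 := by rintro rfl; omega
  have hA1 : (2 : ℝ) ≤ |(a : ℝ)| + |(b : ℝ)| := by
    have h1 : (1 : ℝ) ≤ |(a : ℝ)| := by
      rw [← Int.cast_abs]; exact_mod_cast Int.one_le_abs ha0
    have h2 : (1 : ℝ) ≤ |(b : ℝ)| := by rw [← Int.cast_abs]; exact_mod_cast Int.one_le_abs hb0
    linarith
  constructor
  · have h1 := lower ha hb (r := 1) le_rfl z j
    have h2 : |z| ≤ 2 ^ j * (|(G a b 1)^[j] z| + |(G a b 1)^[j] z|) := by
      refine h1.trans (mul_le_mul_of_nonneg_left ?_ (by positivity))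
      have := hbig j
      linarith
    have h3 : |(z : ℝ)| ≤ 2 ^ (j + 1) * |(((G a b 1)^[j] z : ℤ) : ℝ)| := by
      rw [← Int.cast_abs, ← Int.cast_abs]
      have : |z| ≤ 2 ^ (j + 1) * |(G a b 1)^[j] z| := by
        rw [pow_succ]
        linarith
      exact_mod_cast this
    have h4 := Real.log_le_log (by linarith) h3
    rw [Real.log_mul (by positivity) (by have := hbigR j; exact (by linarith : (0 : ℝ) <
      |(((G a b 1)^[j] z : ℤ) : ℝ)|).ne'), Real.log_pow] at h4
    have h5 : (((j + 1 : ℕ)) : ℝ) ≤ w := by exact_mod_cast hj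
    have h6 := mul_le_mul_of_nonneg_right h5 hlog2.le
    linarith
  · have h1 : ∀ i : ℕ, |(((G a b 1)^[i] z : ℤ) : ℝ)| ≤ (|(a : ℝ)| + |(b : ℝ)|) ^ i * |(z : ℝ)| := by
      intro i
      induction i with
      | zero => simp
      | succ i ih =>
        rw [Function.iterate_succ_apply']
        have h2 := step_up ha hb ((G a b 1)^[i] z) (by
          intro h0
          have h1 := hbig i
          rw [h0, abs_zero] at h1
          have : (1 : ℤ) ≤ M := by exact_mod_cast hM1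
          linarith)
        have h3 : |((G a b 1 ((G a b 1)^[i] z) : ℤ) : ℝ)| ≤
            (|(a : ℝ)| + |(b : ℝ)|) * |(((G a b 1)^[i] z : ℤ) : ℝ)| := by
          rw [← Int.cast_abs, ← Int.cast_abs, ← Int.cast_abs, ← Int.cast_abs]
          exact_mod_cast h2
        calc _ ≤ (|(a : ℝ)| + |(b : ℝ)|) * |(((G a b 1)^[i] z : ℤ) : ℝ)| := h3
          _ ≤ (|(a : ℝ)| + |(b : ℝ)|) * ((|(a : ℝ)| + |(b : ℝ)|) ^ i * |(z : ℝ)|) :=
              mul_le_mul_of_nonneg_left ih (by linarith)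
          _ = _ := by ring
    have h2 := Real.log_le_log (by have := hbigR j; linarith) (h1 j)
    rw [Real.log_mul (pow_pos (by linarith) j).ne' (by linarith : (0 : ℝ) < |(z : ℝ)|).ne',
      Real.log_pow] at h2
    have h3 : (j : ℝ) * Real.log (|(a : ℝ)| + |(b : ℝ)|) ≤
        w * Real.log (|(a : ℝ)| + |(b : ℝ)|) := by
      apply mul_le_mul_of_nonneg_right _ (Real.log_nonneg (by linarith))
      exact_mod_cast hj.le
    linarith

open Classical in
include ha hb in
/-- one window -/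
theorem window_bound (c : ℤ) (S : Finset ℕ) (δ : ℝ) (hδ : 0 < δ) :
    ∃ w M : ℕ, 1 ≤ w ∧ 3 ≤ M ∧ ∀ z : ℤ, (∀ i : ℕ, (M : ℤ) ≤ |(G a b 1)^[i] z|) →
      ∑ j ∈ range w, phic a b S c ((G a b 1)^[j] z) ≤
        δ * ∑ j ∈ range w, Real.log |(((G a b 1)^[j] z : ℤ) : ℝ)| := by
  set A : ℝ := Real.log (|(a : ℝ)| + |(b : ℝ)|) with hA
  have ha0 : a ≠ 0 := by rintro rfl; omega
  have hb0 : b ≠ 0 := by rintro rfl; omega
  have hA1 : (2 : ℝ) ≤ |(a : ℝ)| + |(b : ℝ)| := by
    have h1 : (1 : ℝ) ≤ |(a : ℝ)| := by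
      rw [← Int.cast_abs]; exact_mod_cast Int.one_le_abs ha0
    have h2 : (1 : ℝ) ≤ |(b : ℝ)| := by rw [← Int.cast_abs]; exact_mod_cast Int.one_le_abs hb0
    linarith
  have hA0 : 0 < A := Real.log_pos (by linarith)
  have hlog2 : 0 < Real.log 2 := Real.log_pos (by norm_num)
  set η : ℝ := δ / 2 with hη
  have hη0 : 0 < η := by positivity
  obtain ⟨m, hm⟩ := exists_nat_gt (4 / η)
  have hm0 : (0 : ℝ) < m := lt_trans (by positivity) hm
  obtain ⟨γ, hγ, x₀, hW⟩ := traj_windowsc ha hb c S m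
  obtain ⟨w, hw⟩ := exists_nat_gt (16 * m / δ)
  have hw0 : (0 : ℝ) < w := lt_trans (by positivity) hw
  have hw1 : 1 ≤ w := by
    have : 0 < w := by exact_mod_cast hw0
    omega
  obtain ⟨M, hM⟩ := exists_nat_gt (max (max (max x₀ |(b : ℝ)|) (max |(c : ℝ)| 3))
    (Real.exp (1 + w / γ + 2 * w * Real.log 2 + w * A)))
  have hMx : x₀ ≤ M :=
    (((le_max_left _ _).trans (le_max_left _ _)).trans (le_max_left _ _)).trans hM.le
  have hMb : |b| ≤ (M : ℤ) := by
    have h1 : |(b : ℝ)| ≤ M :=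
      (((le_max_right _ _).trans (le_max_left _ _)).trans (le_max_left _ _)).trans hM.le
    rw [← Int.cast_abs] at h1
    exact_mod_cast h1
  have hMc : |c| < (M : ℤ) := by
    have h1 : |(c : ℝ)| < M := lt_of_le_of_lt
      (((le_max_left _ _).trans (le_max_right _ _)).trans (le_max_left _ _)) hM
    rw [← Int.cast_abs] at h1
    exact_mod_cast h1
  have hM3 : 3 ≤ M := by
    have h1 : (3 : ℝ) ≤ M :=
      (((le_max_right _ _).trans (le_max_right _ _)).trans (le_max_left _ _)).trans hM.le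
    exact_mod_cast h1
  have hMe : Real.exp (1 + w / γ + 2 * w * Real.log 2 + w * A) ≤ M := (le_max_right _ _).trans hM.le
  have hMpos : (0 : ℝ) < M := lt_of_lt_of_le (Real.exp_pos _) hMe
  have hlogM : 1 + w / γ + 2 * w * Real.log 2 + w * A ≤ Real.log M :=
    (Real.le_log_iff_exp_le hMpos).2 hMe
  have e1 : 0 ≤ (w : ℝ) / γ := by positivity
  have e2 : 0 ≤ 2 * (w : ℝ) * Real.log 2 := by positivity
  have e3 : 0 ≤ (w : ℝ) * A := by positivity
  refine ⟨w, M, hw1, hM3, ?_⟩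
  intro z hbig
  have hbigR : ∀ i : ℕ, (M : ℝ) ≤ |(((G a b 1)^[i] z : ℤ) : ℝ)| := by
    intro i
    rw [← Int.cast_abs]
    exact_mod_cast hbig i
  have hne : ∀ i : ℕ, (G a b 1)^[i] z ≠ c := by
    intro i h
    have := hbig i
    rw [h] at this
    linarith
  have hlogz : Real.log M ≤ Real.log |(z : ℝ)| := Real.log_le_log hMpos (hbigR 0)
  have hsz := window_sizes' ha hb M (by omega) hMb z hbig w (by linarith) (by
    rw [← hA]
    linarith)
  have hzlog : 0 < Real.log |(z : ℝ)| := by linarith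
  set J := (range w).filter (fun j => Away a b c ((G a b 1)^[j] z) ∧
    η * Real.log |(((G a b 1)^[j] z : ℤ) : ℝ)| <
      Real.log (sPart S ((G a b 1)^[j] z - c))) with hJ
  have hcount : J.card ≤ m := by
    by_contra hcard
    push Not at hcard
    obtain ⟨I, hI1, hI2⟩ := Finset.exists_subset_card_eq hcard.le
    have h1 := hW z (hMx.trans (hbigR 0)) (w - 1) (by
      have h6 : (((w - 1 : ℕ)) : ℝ) ≤ w := by exact_mod_cast Nat.sub_le _ _
      have h8 : (w : ℝ) / γ ≤ Real.log |(z : ℝ)| := by linarith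
      rw [div_le_iff₀ hγ] at h8
      linarith) I hI2 (by
      intro i hi
      have h2 := hI1 hi
      rw [hJ, Finset.mem_filter, Finset.mem_range] at h2
      exact ⟨by omega, hne i, h2.2.1⟩)
    have h2 : (m : ℝ) * (η * (Real.log |(z : ℝ)| / 2)) ≤
        ∑ i ∈ I, Real.log (sPart S ((G a b 1)^[i] z - c)) := by
      have := Finset.card_nsmul_le_sum I
        (fun i => Real.log (sPart S ((G a b 1)^[i] z - c) : ℝ)) (η * (Real.log |(z : ℝ)| / 2))
        (fun i hi => by
          have h3 := hI1 hi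
          rw [hJ, Finset.mem_filter, Finset.mem_range] at h3
          have h4 := (hsz i h3.1).1
          exact (mul_le_mul_of_nonneg_left h4 hη0.le).trans h3.2.2.le)
      rwa [hI2, nsmul_eq_mul] at this
    have h3 : 4 < m * η := by rwa [div_lt_iff₀ hη0] at hm
    have h4 := mul_lt_mul_of_pos_right h3 hzlog
    nlinarith
  have hpw : ∀ j ∈ range w, phic a b S c ((G a b 1)^[j] z) ≤
      (if j ∈ J then 4 * Real.log |(z : ℝ)| else 0) +
        η * Real.log |(((G a b 1)^[j] z : ℤ) : ℝ)| := by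
    intro j hj
    obtain ⟨h1, h2⟩ := hsz j (Finset.mem_range.1 hj)
    have h5 : 0 ≤ η * Real.log |(((G a b 1)^[j] z : ℤ) : ℝ)| :=
      mul_nonneg hη0.le (by linarith)
    split_ifs with hL
    · have hzz := hbig j
      have hM2' : (3 : ℤ) ≤ M := by exact_mod_cast hM3
      have h4 := phic_le (a := a) (b := b) S c ((G a b 1)^[j] z) (by linarith) (by linarith)
      linarith
    · rw [zero_add]
      unfold phic
      split_ifs with hAw
      · by_contra hcon2
        push Not at hcon2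
        exact hL (Finset.mem_filter.2 ⟨hj, hAw, hcon2⟩)
      · exact h5
  refine (Finset.sum_le_sum hpw).trans ?_
  rw [Finset.sum_add_distrib, ← Finset.mul_sum, ← Finset.sum_filter, Finset.sum_const,
    nsmul_eq_mul]
  have h1 : (w : ℝ) * (Real.log |(z : ℝ)| / 2) ≤
      ∑ j ∈ range w, Real.log |(((G a b 1)^[j] z : ℤ) : ℝ)| := by
    have := Finset.card_nsmul_le_sum (range w)
      (fun j => Real.log |(((G a b 1)^[j] z : ℤ) : ℝ)|) (Real.log |(z : ℝ)| / 2)
      (fun j hj => (hsz j (Finset.mem_range.1 hj)).1)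
    rwa [Finset.card_range, nsmul_eq_mul] at this
  have h2 : (((range w).filter fun j => j ∈ J).card : ℝ) ≤ m := by
    have h3 : ((range w).filter fun j => j ∈ J) ⊆ J := by
      intro j hj
      exact (Finset.mem_filter.1 hj).2
    exact_mod_cast (Finset.card_le_card h3).trans hcount
  have h3 : (((range w).filter fun j => j ∈ J).card : ℝ) *
        (4 * Real.log |(z : ℝ)|) ≤ 8 * m / w *
          ∑ j ∈ range w, Real.log |(((G a b 1)^[j] z : ℤ) : ℝ)| := by
    calc _ ≤ m * (4 * Real.log |(z : ℝ)|) :=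
        mul_le_mul_of_nonneg_right h2 (by linarith)
      _ = 8 * m / w * (w * (Real.log |(z : ℝ)| / 2)) := by
        field_simp
        ring
      _ ≤ _ := mul_le_mul_of_nonneg_left h1 (by positivity)
  have h4 : 8 * m / w ≤ δ / 2 := by
    rw [div_le_iff₀ hw0]
    rw [div_lt_iff₀ hδ] at hw
    linarith
  have h5 : 0 ≤ ∑ j ∈ range w, Real.log |(((G a b 1)^[j] z : ℤ) : ℝ)| :=
    le_trans (by positivity) h1
  have h6 := mul_le_mul_of_nonneg_right h4 h5
  have h7 : η * ∑ j ∈ range w, Real.log |(((G a b 1)^[j] z : ℤ) : ℝ)| =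
      δ / 2 * ∑ j ∈ range w, Real.log |(((G a b 1)^[j] z : ℤ) : ℝ)| := rfl
  linarith

/-- a sequence that does not increase from block to block is bounded above -/
theorem bdd_of_blocks (h : ℕ → ℝ) (i₀ w : ℕ) (hw : 1 ≤ w) (hh : ∀ N, i₀ ≤ N → h (N + w) ≤ h N) :
    ∃ B : ℝ, ∀ N, h N ≤ B := by
  refine ⟨∑ i ∈ range (i₀ + w), |h i|, fun N => ?_⟩
  induction N using Nat.strong_induction_on with
  | _ N ih =>
    by_cases hN : N < i₀ + w
    · exact (le_abs_self _).trans
        (Finset.single_le_sum (f := fun i => |h i|) (fun i _ => abs_nonneg _)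
          (Finset.mem_range.2 hN))
    · push Not at hN
      have h1 := hh (N - w) (by omega)
      rw [Nat.sub_add_cancel (by omega)] at h1
      exact h1.trans (ih (N - w) (by omega))

include ha hb in
theorem div_all (x : ℤ) (hdiv : Tendsto (fun i : ℕ => |(G a b 1)^[i] x|) atTop atTop) (c : ℤ)
    (S : Finset ℕ) (δ : ℝ) (hδ : 0 < δ) : ∃ B : ℝ, ∀ N : ℕ,
      ∑ i ∈ range N, phic a b S c ((G a b 1)^[i] x) ≤
        δ * ∑ i ∈ range N, Real.log |(((G a b 1)^[i] x : ℤ) : ℝ)| + B := by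
  obtain ⟨w, M, hw1, -, hW⟩ := window_bound ha hb c S δ hδ
  obtain ⟨i₀, hi₀⟩ := Filter.eventually_atTop.1 (hdiv.eventually_ge_atTop (M : ℤ))
  obtain ⟨B, hB⟩ := bdd_of_blocks (fun N => ∑ i ∈ range N, phic a b S c ((G a b 1)^[i] x) -
    δ * ∑ i ∈ range N, Real.log |(((G a b 1)^[i] x : ℤ) : ℝ)|) i₀ w hw1 (by
    intro N hN
    beta_reduce
    rw [Finset.sum_range_add, Finset.sum_range_add, mul_add]
    have h1 := hW ((G a b 1)^[N] x) (by
      intro i
      rw [← Function.iterate_add_apply]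
      exact hi₀ (i + N) (by omega))
    have h2 : ∀ j : ℕ, (G a b 1)^[j] ((G a b 1)^[N] x) = (G a b 1)^[N + j] x := by
      intro j
      rw [← Function.iterate_add_apply, add_comm]
    simp only [h2] at h1
    linarith)
  refine ⟨B, fun N => ?_⟩
  have := hB N
  linarith

include ha hb in
/-- the even terms against the odd ones -/
theorem div_even (x : ℤ) (hdiv : Tendsto (fun i : ℕ => |(G a b 1)^[i] x|) atTop atTop)
    (h0 : ∀ i : ℕ, (G a b 1)^[i] x ≠ 0) :
    ∃ C D : ℝ, 0 < C ∧ ∀ N : ℕ, ∑ i ∈ range N, Real.log |(((G a b 1)^[i] x : ℤ) : ℝ)| ≤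
      C * ∑ i ∈ (range N).filter (fun i => (G a b 1)^[i] x % 2 = 1),
        Real.log |(((G a b 1)^[i] x : ℤ) : ℝ)| + D := by
  set A : ℝ := Real.log (|(a : ℝ)| + |(b : ℝ)|) with hA
  have ha0 : a ≠ 0 := by rintro rfl; omega
  have hb0 : b ≠ 0 := by rintro rfl; omega
  have hA1 : (2 : ℝ) ≤ |(a : ℝ)| + |(b : ℝ)| := by
    have h1 : (1 : ℝ) ≤ |(a : ℝ)| := by
      rw [← Int.cast_abs]; exact_mod_cast Int.one_le_abs ha0
    have h2 : (1 : ℝ) ≤ |(b : ℝ)| := by rw [← Int.cast_abs]; exact_mod_cast Int.one_le_abs hb0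
    linarith
  have hA0 : 0 < A := Real.log_pos (by linarith)
  have hlog2 : 0 < Real.log 2 := Real.log_pos (by norm_num)
  have hlog21 : Real.log 2 ≤ 1 := by
    have := Real.log_two_lt_d9
    linarith
  obtain ⟨i₀, hi₀⟩ := Filter.eventually_atTop.1 (hdiv.eventually_ge_atTop (3 : ℤ))
  set U : ℕ → ℝ := fun i => Real.log |(((G a b 1)^[i] x : ℤ) : ℝ)| with hU
  have hR : ∀ i, (1 : ℝ) ≤ |(((G a b 1)^[i] x : ℤ) : ℝ)| := by
    intro i
    rw [← Int.cast_abs]
    exact_mod_cast Int.one_le_abs (h0 i)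
  have hU0 : ∀ i, 0 ≤ U i := fun i => Real.log_nonneg (hR i)
  have hU1 : ∀ i, i₀ ≤ i → 1 ≤ U i := by
    intro i hi
    rw [hU, Real.le_log_iff_exp_le (by linarith [hR i])]
    have h1 : (3 : ℝ) ≤ |(((G a b 1)^[i] x : ℤ) : ℝ)| := by
      rw [← Int.cast_abs]
      exact_mod_cast hi₀ i hi
    have := Real.exp_one_lt_d9
    linarith
  have hstep : ∀ i, U (i + 1) ^ 2 + Real.log 2 * (if (G a b 1)^[i] x % 2 = 1 then 0 else U i) ≤
      U i ^ 2 + (2 * A + A ^ 2) * (if (G a b 1)^[i] x % 2 = 1 then U i else 0) +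
        (if i < i₀ then A ^ 2 + 1 else 0) := by
    intro i
    have hui := hU0 i
    have hui1 := hU0 (i + 1)
    have hit : (G a b 1)^[i + 1] x = G a b 1 ((G a b 1)^[i] x) :=
      Function.iterate_succ_apply' _ _ _
    by_cases ho : (G a b 1)^[i] x % 2 = 1
    · rw [if_pos ho, if_pos ho, mul_zero, add_zero]
      have h7 := step_up ha hb ((G a b 1)^[i] x) (h0 i)
      have h8 : |((G a b 1 ((G a b 1)^[i] x) : ℤ) : ℝ)| ≤
          (|(a : ℝ)| + |(b : ℝ)|) * |(((G a b 1)^[i] x : ℤ) : ℝ)| := by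
        rw [← Int.cast_abs, ← Int.cast_abs, ← Int.cast_abs, ← Int.cast_abs]
        exact_mod_cast h7
      have h9 := Real.log_le_log (by rw [← hit]; linarith [hR (i + 1)]) h8
      rw [Real.log_mul (by linarith) (by linarith [hR i]), ← hit] at h9
      have h9' : U (i + 1) ≤ A + U i := h9
      have h10 : U (i + 1) ^ 2 ≤ (A + U i) ^ 2 := pow_le_pow_left₀ hui1 h9' 2
      split_ifs with hi
      · nlinarith [mul_nonneg (sq_nonneg A) hui]
      · have h11 := hU1 i (by omega)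
        nlinarith [mul_nonneg (sq_nonneg A) (by linarith : 0 ≤ U i - 1)]
    · rw [if_neg ho, if_neg ho, mul_zero, add_zero]
      have h3 := G_even (a := a) (b := b) (r := 1)
        (show (G a b 1)^[i] x % 2 = 0 by omega)
      have h4 : 2 * |G a b 1 ((G a b 1)^[i] x)| = |(G a b 1)^[i] x| := by
        conv_rhs => rw [← h3, abs_mul, abs_two]
      have h5 : |(((G a b 1)^[i] x : ℤ) : ℝ)| = 2 * |((G a b 1 ((G a b 1)^[i] x) : ℤ) : ℝ)| := by
        rw [← Int.cast_abs, ← Int.cast_abs]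
        exact_mod_cast h4.symm
      have h6 : U i = Real.log 2 + U (i + 1) := by
        rw [hU]
        beta_reduce
        rw [h5, Real.log_mul (by norm_num) (by rw [← hit]; linarith [hR (i + 1)]), hit]
      have h7 : U (i + 1) = U i - Real.log 2 := by linarith
      rw [h7]
      split_ifs with hi
      · nlinarith [sq_nonneg A]
      · have h11 := hU1 i (by omega)
        nlinarith
  have hind : ∀ N : ℕ, U N ^ 2 + Real.log 2 *
      ∑ i ∈ range N, (if (G a b 1)^[i] x % 2 = 1 then 0 else U i) ≤ U 0 ^ 2 +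
      (2 * A + A ^ 2) * ∑ i ∈ range N, (if (G a b 1)^[i] x % 2 = 1 then U i else 0) +
        ∑ i ∈ range N, (if i < i₀ then A ^ 2 + 1 else 0) := by
    intro N
    induction N with
    | zero => simp
    | succ N ih =>
      rw [Finset.sum_range_succ, Finset.sum_range_succ, Finset.sum_range_succ]
      have := hstep N
      linarith
  have hconst : ∀ N : ℕ, ∑ i ∈ range N, (if i < i₀ then A ^ 2 + 1 else 0 : ℝ) ≤
      i₀ * (A ^ 2 + 1) := by
    intro N
    rw [← Finset.sum_filter, Finset.sum_const, nsmul_eq_mul]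
    apply mul_le_mul_of_nonneg_right _ (by positivity)
    have : (range N).filter (fun i => i < i₀) ⊆ range i₀ := by
      intro i hi
      exact Finset.mem_range.2 (Finset.mem_filter.1 hi).2
    have h := Finset.card_le_card this
    rw [Finset.card_range] at h
    exact_mod_cast h
  refine ⟨1 + (2 * A + A ^ 2) / Real.log 2, (U 0 ^ 2 + i₀ * (A ^ 2 + 1)) / Real.log 2,
    by positivity, ?_⟩
  intro N
  have h1 := hind N
  have h2 := hconst N
  have h3 : ∑ i ∈ range N, U i = ∑ i ∈ range N, (if (G a b 1)^[i] x % 2 = 1 then U i else 0) +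
      ∑ i ∈ range N, (if (G a b 1)^[i] x % 2 = 1 then 0 else U i) := by
    rw [← Finset.sum_add_distrib]
    refine Finset.sum_congr rfl fun i _ => ?_
    split_ifs <;> ring
  rw [Finset.sum_filter]
  change ∑ i ∈ range N, U i ≤ (1 + (2 * A + A ^ 2) / Real.log 2) *
    ∑ i ∈ range N, (if (G a b 1)^[i] x % 2 = 1 then U i else 0) +
    (U 0 ^ 2 + i₀ * (A ^ 2 + 1)) / Real.log 2
  rw [h3]
  set O := ∑ i ∈ range N, (if (G a b 1)^[i] x % 2 = 1 then U i else 0)
  set E := ∑ i ∈ range N, (if (G a b 1)^[i] x % 2 = 1 then 0 else U i)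
  have h4 : E ≤ ((2 * A + A ^ 2) * O + (U 0 ^ 2 + i₀ * (A ^ 2 + 1))) / Real.log 2 := by
    rw [le_div_iff₀ hlog2]
    have := sq_nonneg (U N)
    linarith
  have h5 : ((2 * A + A ^ 2) * O + (U 0 ^ 2 + i₀ * (A ^ 2 + 1))) / Real.log 2 =
      (2 * A + A ^ 2) / Real.log 2 * O + (U 0 ^ 2 + i₀ * (A ^ 2 + 1)) / Real.log 2 := by
    rw [add_div]
    ring
  rw [h5] at h4
  linarith

end Pool.Agent.H977.PW
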