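import Mathlib
import Pool.Agent.H977.PW.SDiv

set_option autoImplicit false

/-!
The `S`-parts of the numbers `z - c` along trajectories, uniformly in `b` and `c`.
-/

open Finset Filter Topology

namespace Pool.Agent.H977.PW

open Pool.Agent.H977.SP

/-- **The product of the `S`-parts of `m` numbers `z - c` in a short piece of a trajectory**, uniformly
in `b` and `c`. -/
theorem traj_windowsu {a : ℤ} (ha : a % 2 = 1) (S : Finset ℕ) (m : ℕ) :
    ∃ γ : ℝ, 0 < γ ∧ ∃ K M : ℕ, 1 ≤ K ∧ ∀ b c : ℤ, b % 2 = 1 → ∀ x : ℤ, (M : ℤ) ≤ |x| →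
      (|b| + |c|) ^ K ≤ |x| → ∀ n : ℕ,
      (n : ℝ) ≤ γ * Real.log |(x : ℝ)| → ∀ I : Finset ℕ, I.card = m →
      (∀ i ∈ I, i ≤ n ∧ (G a b 1)^[i] x ≠ c ∧ Away a b c ((G a b 1)^[i] x)) →
      ∑ i ∈ I, Real.log (sPart S ((G a b 1)^[i] x - c)) ≤ 2 * Real.log |(x : ℝ)| := by
  obtain ⟨s, q, hq, hinj, hlog⟩ := exists_places S
  obtain ⟨δ, hδ, X₀, hW⟩ := windows q hq hinj m (1 / 2) (by positivity)
  set A : ℝ := Real.log (|(a : ℝ)| + 2) with hA
  have hA0 : 0 < A := Real.log_pos (by have := abs_nonneg (a : ℝ); linarith)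
  set κ : ℝ := min (δ / 4) (1 / 8) with hκ
  have hκ0 : 0 < κ := lt_min (by positivity) (by positivity)
  obtain ⟨K, hK⟩ := exists_nat_gt (2 / δ)
  obtain ⟨M, hM⟩ := exists_nat_gt (max 1 X₀)
  have hK0 : (0 : ℝ) < K := lt_trans (by positivity) hK
  refine ⟨κ / A, by positivity, K, M, by
    have : 0 < K := by exact_mod_cast hK0
    omega, ?_⟩
  intro b c hb x hxM hxK n hn I hI hodd
  have hb0 : b ≠ 0 := by rintro rfl; omega
  set B : ℝ := |(b : ℝ)| + |(c : ℝ)| with hB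
  have hbR : (1 : ℝ) ≤ B := by
    have h1 : (1 : ℝ) ≤ |(b : ℝ)| := by rw [← Int.cast_abs]; exact_mod_cast Int.one_le_abs hb0
    have := abs_nonneg (c : ℝ)
    linarith
  have hx : (M : ℝ) ≤ |(x : ℝ)| := by rw [← Int.cast_abs]; exact_mod_cast hxM
  have hx1 : 1 ≤ |(x : ℝ)| := ((le_max_left _ _).trans hM.le).trans hx
  have hx2 : X₀ ≤ |(x : ℝ)| := ((le_max_right _ _).trans hM.le).trans hx
  set L := Real.log |(x : ℝ)| with hL
  have hL0 : 0 ≤ L := Real.log_nonneg hx1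
  have hbL : Real.log B ≤ δ / 2 * L := by
    have h1 : B ^ K ≤ |(x : ℝ)| := by
      rw [hB, ← Int.cast_abs, ← Int.cast_abs, ← Int.cast_abs]
      exact_mod_cast hxK
    have h2 := Real.log_le_log (by positivity) h1
    rw [Real.log_pow] at h2
    have hlB : 0 ≤ Real.log B := Real.log_nonneg hbR
    have h3 : 2 / δ * Real.log B ≤ L := (mul_le_mul_of_nonneg_right hK.le hlB).trans h2
    have h4 := mul_le_mul_of_nonneg_left h3 (show 0 ≤ δ / 2 by positivity)
    have h5 : δ / 2 * (2 / δ * Real.log B) = Real.log B := by field_simp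
    linarith
  have hnA : (n : ℝ) * A ≤ κ * L := by
    have h1 := mul_le_mul_of_nonneg_right hn hA0.le
    have h2 : κ / A * L * A = κ * L := by field_simp
    linarith
  obtain ⟨X, F, h1, h2, h3, h4, h5⟩ := partsc ha hb c x n
  have h1R : |(x : ℝ)| ≤ |(X : ℝ)| := by
    rw [← Int.cast_abs, ← Int.cast_abs]; exact_mod_cast h1
  have hX1 : 1 ≤ |(X : ℝ)| := hx1.trans h1R
  have hXlog : Real.log |(X : ℝ)| ≤ (1 + κ) * L := by
    have h6 : |(X : ℝ)| ≤ (|(a : ℝ)| + 2) ^ n * |(x : ℝ)| := by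
      rw [← Int.cast_abs, ← Int.cast_abs, ← Int.cast_abs]; exact_mod_cast h2
    have h7 := Real.log_le_log (by linarith) h6
    rw [Real.log_mul (by positivity) (by positivity), Real.log_pow] at h7
    have : (n : ℝ) * A ≤ κ * L := hnA
    linarith
  have hclose : ∀ i ≤ n, |((F i - X : ℤ) : ℝ)| ≤ |(X : ℝ)| ^ δ := by
    intro i hi
    have h6 : |((F i - X : ℤ) : ℝ)| ≤ B * (|(a : ℝ)| + 2) ^ n := by
      rw [hB, ← Int.cast_abs, ← Int.cast_abs, ← Int.cast_abs, ← Int.cast_abs]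
      exact_mod_cast h3 i hi
    refine h6.trans ?_
    have h7 : B * (|(a : ℝ)| + 2) ^ n = Real.exp (Real.log B + n * A) := by
      rw [Real.exp_add, Real.exp_log (by linarith), Real.exp_nat_mul,
        Real.exp_log (by have := abs_nonneg (a : ℝ); linarith)]
    have h8 : |(X : ℝ)| ^ δ = Real.exp (δ * Real.log |(X : ℝ)|) := by
      rw [Real.rpow_def_of_pos (by linarith), mul_comm]
    rw [h7, h8]
    apply Real.exp_le_exp.2
    have h9 : L ≤ Real.log |(X : ℝ)| := Real.log_le_log (by linarith) h1R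
    have h10 : κ ≤ δ / 4 := min_le_left _ _
    have h11 : κ * L ≤ δ / 4 * L := mul_le_mul_of_nonneg_right h10 hL0
    have h12 : δ * L ≤ δ * Real.log |(X : ℝ)| := mul_le_mul_of_nonneg_left h9 hδ.le
    nlinarith
  set e := I.orderIsoOfFin hI with he
  have hemem : ∀ j, ((e j : ℕ)) ∈ I := fun j => (e j).2
  have hmain := hW X (hx2.trans h1R) (fun j => F (e j))
    (fun j => (h4 _ (hodd _ (hemem j)).1 (hodd _ (hemem j)).2.1).1)
    (by
      intro j j' h
      have h6 := h5 _ (hodd _ (hemem j)).1 _ (hodd _ (hemem j')).1 (hodd _ (hemem j)).2.2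
        (hodd _ (hemem j')).2.2 h
      exact e.injective (Subtype.ext h6))
    (fun j => hclose _ (hodd _ (hemem j)).1)
  have h6 : ∑ i ∈ I, Real.log (sPart S ((G a b 1)^[i] x - c)) =
      ∑ j : Fin m, Real.log (sPart S ((G a b 1)^[(e j : ℕ)] x - c)) := by
    rw [← Finset.sum_coe_sort I]
    exact (Equiv.sum_comp e.toEquiv
      (fun i : {i // i ∈ I} => Real.log (sPart S ((G a b 1)^[(i : ℕ)] x - c)))).symm
  rw [h6]
  have h7 : ∑ j : Fin m, Real.log (sPart S ((G a b 1)^[(e j : ℕ)] x - c)) ≤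
      ∑ j : Fin m, ∑ v, (vp (q v) (F (e j)) : ℝ) * Real.log (q v) := by
    refine Finset.sum_le_sum fun j _ => ?_
    rw [hlog]
    refine Finset.sum_le_sum fun v _ => ?_
    apply mul_le_mul_of_nonneg_right _ (Real.log_nonneg (by exact_mod_cast (hq v).one_le))
    obtain ⟨h8, h9⟩ := h4 _ (hodd _ (hemem j)).1 (hodd _ (hemem j)).2.1
    exact_mod_cast vp_mono h8 h9
  refine h7.trans (hmain.trans ?_)
  have h8 : κ ≤ 1 / 8 := min_le_right _ _
  calc (1 + 1 / 2) * Real.log |(X : ℝ)| ≤ (1 + 1 / 2) * ((1 + κ) * L) :=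
        mul_le_mul_of_nonneg_left hXlog (by positivity)
    _ = ((1 + 1 / 2) * (1 + κ)) * L := by ring
    _ ≤ 2 * L := mul_le_mul_of_nonneg_right (by linarith) hL0

variable {a b : ℤ} (ha : a % 2 = 1) (hb : b % 2 = 1)

include ha hb in
theorem step_upu (y : ℤ) (hy : |b| ≤ |y|) : |G a b 1 y| ≤ (|a| + 1) * |y| := by
  have ha0 : a ≠ 0 := by rintro rfl; omega
  have hy1 : 0 ≤ |y| := abs_nonneg y
  have ha1 : 1 ≤ |a| := Int.one_le_abs ha0
  by_cases ho : y % 2 = 1
  · have h3 := G_odd ha hb (r := 1) le_rfl ho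
    rw [pow_one] at h3
    have h4 : 2 * |G a b 1 y| = |a * y + b| := by rw [← h3, abs_mul, abs_two]
    have h5 := abs_add_le (a * y) b
    rw [abs_mul] at h5
    have h6 := abs_nonneg (G a b 1 y)
    nlinarith
  · have h3 := G_even (a := a) (b := b) (r := 1) (show y % 2 = 0 by omega)
    have h4 : 2 * |G a b 1 y| = |y| := by conv_rhs => rw [← h3, abs_mul, abs_two]
    have h6 := abs_nonneg (G a b 1 y)
    nlinarith

include ha hb in
/-- the logarithms in a window starting at `z` -/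
theorem window_sizesu (M : ℕ) (hM1 : 1 ≤ M) (z : ℤ) (w : ℕ) (hw0 : 1 ≤ w)
    (hbig : ∀ i < w, (M : ℤ) ≤ |(G a b 1)^[i] z| ∧ |b| ≤ |(G a b 1)^[i] z|)
    (hw1 : (w : ℝ) * Real.log 2 ≤ Real.log M / 2)
    (hw2 : (w : ℝ) * Real.log (|(a : ℝ)| + 1) ≤ Real.log M) (j : ℕ)
    (hj : j < w) :
    Real.log |(z : ℝ)| / 2 ≤ Real.log |(((G a b 1)^[j] z : ℤ) : ℝ)| ∧
      Real.log |(((G a b 1)^[j] z : ℤ) : ℝ)| ≤ 2 * Real.log |(z : ℝ)| := by
  have hMR : (1 : ℝ) ≤ M := by exact_mod_cast hM1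
  have hbigR : ∀ i < w, (M : ℝ) ≤ |(((G a b 1)^[i] z : ℤ) : ℝ)| := by
    intro i hi
    rw [← Int.cast_abs]
    exact_mod_cast (hbig i hi).1
  have hzM : (M : ℝ) ≤ |(z : ℝ)| := hbigR 0 (by omega)
  have hlogM : Real.log M ≤ Real.log |(z : ℝ)| := Real.log_le_log (by linarith) hzM
  have hlog2 : 0 < Real.log 2 := Real.log_pos (by norm_num)
  have ha0 : a ≠ 0 := by rintro rfl; omega
  have hA1 : (2 : ℝ) ≤ |(a : ℝ)| + 1 := by
    have h1 : (1 : ℝ) ≤ |(a : ℝ)| := by
      rw [← Int.cast_abs]; exact_mod_cast Int.one_le_abs ha0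
    linarith
  constructor
  · have h1 := lower ha hb (r := 1) le_rfl z j
    have h2 : |z| ≤ 2 ^ j * (|(G a b 1)^[j] z| + |(G a b 1)^[j] z|) := by
      refine h1.trans (mul_le_mul_of_nonneg_left ?_ (by positivity))
      have := (hbig j hj).2
      linarith
    have h3 : |(z : ℝ)| ≤ 2 ^ (j + 1) * |(((G a b 1)^[j] z : ℤ) : ℝ)| := by
      rw [← Int.cast_abs, ← Int.cast_abs]
      have : |z| ≤ 2 ^ (j + 1) * |(G a b 1)^[j] z| := by
        rw [pow_succ]
        linarith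
      exact_mod_cast this
    have h4 := Real.log_le_log (by linarith) h3
    rw [Real.log_mul (by positivity) (by have := hbigR j hj; exact (by linarith : (0 : ℝ) <
      |(((G a b 1)^[j] z : ℤ) : ℝ)|).ne'), Real.log_pow] at h4
    have h5 : (((j + 1 : ℕ)) : ℝ) ≤ w := by exact_mod_cast hj
    have h6 := mul_le_mul_of_nonneg_right h5 hlog2.le
    linarith
  · have h1 : ∀ i : ℕ, i < w → |(((G a b 1)^[i] z : ℤ) : ℝ)| ≤
        (|(a : ℝ)| + 1) ^ i * |(z : ℝ)| := by
      intro i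
      induction i with
      | zero => intro _; simp
      | succ i ih =>
        intro hi
        rw [Function.iterate_succ_apply']
        have h2 := step_upu ha hb ((G a b 1)^[i] z) (hbig i (by omega)).2
        have h3 : |((G a b 1 ((G a b 1)^[i] z) : ℤ) : ℝ)| ≤
            (|(a : ℝ)| + 1) * |(((G a b 1)^[i] z : ℤ) : ℝ)| := by
          rw [← Int.cast_abs, ← Int.cast_abs, ← Int.cast_abs]
          exact_mod_cast h2
        calc _ ≤ (|(a : ℝ)| + 1) * |(((G a b 1)^[i] z : ℤ) : ℝ)| := h3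
          _ ≤ (|(a : ℝ)| + 1) * ((|(a : ℝ)| + 1) ^ i * |(z : ℝ)|) :=
              mul_le_mul_of_nonneg_left (ih (by omega)) (by linarith)
          _ = _ := by ring
    have h2 := Real.log_le_log (by have := hbigR j hj; linarith) (h1 j hj)
    rw [Real.log_mul (pow_pos (by linarith) j).ne' (by linarith : (0 : ℝ) < |(z : ℝ)|).ne',
      Real.log_pow] at h2
    have h3 : (j : ℝ) * Real.log (|(a : ℝ)| + 1) ≤ w * Real.log (|(a : ℝ)| + 1) := by
      apply mul_le_mul_of_nonneg_right _ (Real.log_nonneg (by linarith))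
      exact_mod_cast hj.le
    linarith

open Classical in
/-- one window, uniformly in `b` and `c` -/
theorem window_boundu {a : ℤ} (ha : a % 2 = 1) (S : Finset ℕ) (δ : ℝ) (hδ : 0 < δ) :
    ∃ w K M : ℕ, 1 ≤ w ∧ 1 ≤ K ∧ 3 ≤ M ∧ ((w : ℝ) * Real.log 2 ≤ Real.log M / 2 ∧
      (w : ℝ) * Real.log (|(a : ℝ)| + 1) ≤ Real.log M) ∧ ∀ b c : ℤ, b % 2 = 1 → ∀ z : ℤ,
      (∀ i < w, (M : ℤ) ≤ |(G a b 1)^[i] z| ∧ (|b| + |c|) ^ K ≤ |(G a b 1)^[i] z|) →
      ∑ j ∈ range w, phic a b S c ((G a b 1)^[j] z) ≤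
        δ * ∑ j ∈ range w, Real.log |(((G a b 1)^[j] z : ℤ) : ℝ)| := by
  set A : ℝ := Real.log (|(a : ℝ)| + 1) with hA
  have ha0 : a ≠ 0 := by rintro rfl; omega
  have hA1 : (2 : ℝ) ≤ |(a : ℝ)| + 1 := by
    have h1 : (1 : ℝ) ≤ |(a : ℝ)| := by
      rw [← Int.cast_abs]; exact_mod_cast Int.one_le_abs ha0
    linarith
  have hA0 : 0 < A := Real.log_pos (by linarith)
  have hlog2 : 0 < Real.log 2 := Real.log_pos (by norm_num)
  set η : ℝ := δ / 2 with hη
  have hη0 : 0 < η := by positivity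
  obtain ⟨m, hm⟩ := exists_nat_gt (4 / η)
  have hm0 : (0 : ℝ) < m := lt_trans (by positivity) hm
  obtain ⟨γ, hγ, K, M₀, hK, hW⟩ := traj_windowsu ha S m
  obtain ⟨w, hw⟩ := exists_nat_gt (16 * m / δ)
  have hw0 : (0 : ℝ) < w := lt_trans (by positivity) hw
  have hw1 : 1 ≤ w := by
    have : 0 < w := by exact_mod_cast hw0
    omega
  obtain ⟨M, hM⟩ := exists_nat_gt (max (max (M₀ : ℝ) 3)
    (Real.exp (1 + w / γ + 2 * w * Real.log 2 + w * A)))
  have hMM : M₀ ≤ M := by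
    have h1 : (M₀ : ℝ) ≤ M := ((le_max_left _ _).trans (le_max_left _ _)).trans hM.le
    exact_mod_cast h1
  have hM3 : 3 ≤ M := by
    have h1 : (3 : ℝ) ≤ M := ((le_max_right _ _).trans (le_max_left _ _)).trans hM.le
    exact_mod_cast h1
  have hMe : Real.exp (1 + w / γ + 2 * w * Real.log 2 + w * A) ≤ M := (le_max_right _ _).trans hM.le
  have hMpos : (0 : ℝ) < M := lt_of_lt_of_le (Real.exp_pos _) hMe
  have hlogM : 1 + w / γ + 2 * w * Real.log 2 + w * A ≤ Real.log M :=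
    (Real.le_log_iff_exp_le hMpos).2 hMe
  have e1 : 0 ≤ (w : ℝ) / γ := by positivity
  have e2 : 0 ≤ 2 * (w : ℝ) * Real.log 2 := by positivity
  have e3 : 0 ≤ (w : ℝ) * A := by positivity
  refine ⟨w, K, M, hw1, hK, hM3, ⟨by linarith, by linarith⟩, ?_⟩
  intro b c hb z hbig
  have hb0 : b ≠ 0 := by rintro rfl; omega
  have hb1 : 1 ≤ |b| := Int.one_le_abs hb0
  have hc0 : 0 ≤ |c| := abs_nonneg c
  have hbc : |b| + |c| ≤ (|b| + |c|) ^ K := le_self_pow₀ (by linarith) (by omega)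
  have hbigR : ∀ i < w, (M : ℝ) ≤ |(((G a b 1)^[i] z : ℤ) : ℝ)| := by
    intro i hi
    rw [← Int.cast_abs]
    exact_mod_cast (hbig i hi).1
  have hbigb : ∀ i < w, (M : ℤ) ≤ |(G a b 1)^[i] z| ∧ |b| ≤ |(G a b 1)^[i] z| := by
    intro i hi
    obtain ⟨h1, h2⟩ := hbig i hi
    exact ⟨h1, by linarith⟩
  have hbigc : ∀ i < w, |c| < |(G a b 1)^[i] z| := by
    intro i hi
    obtain ⟨h1, h2⟩ := hbig i hi
    linarith
  have hne : ∀ i < w, (G a b 1)^[i] z ≠ c := by
    intro i hi h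
    have := hbigc i hi
    rw [h] at this
    exact lt_irrefl _ this
  have hlogz : Real.log M ≤ Real.log |(z : ℝ)| := Real.log_le_log hMpos (hbigR 0 (by omega))
  have hsz := window_sizesu ha hb M (by omega) z w hw1 hbigb (by linarith) (by
    rw [← hA]
    linarith)
  have hzlog : 0 < Real.log |(z : ℝ)| := by linarith
  have hsingle : ∀ j < w, phic a b S c ((G a b 1)^[j] z) ≤ 4 * Real.log |(z : ℝ)| := by
    intro j hj
    obtain ⟨h1, h2⟩ := hsz j hj
    have hzz := (hbig j hj).1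
    have hM2' : (3 : ℤ) ≤ M := by exact_mod_cast hM3
    have h4 := phic_le (a := a) (b := b) S c ((G a b 1)^[j] z) (by linarith) (hbigc j hj).le
    linarith
  set J := (range w).filter (fun j => Away a b c ((G a b 1)^[j] z) ∧
    η * Real.log |(((G a b 1)^[j] z : ℤ) : ℝ)| <
      Real.log (sPart S ((G a b 1)^[j] z - c))) with hJ
  have hcount : J.card ≤ m := by
    by_contra hcard
    push Not at hcard
    obtain ⟨I, hI1, hI2⟩ := Finset.exists_subset_card_eq hcard.le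
    have h0w := hbig 0 (by omega)
    have hMM' : (M₀ : ℤ) ≤ M := by exact_mod_cast hMM
    have h1 := hW b c hb z (hMM'.trans h0w.1) h0w.2 (w - 1) (by
      have h6 : (((w - 1 : ℕ)) : ℝ) ≤ w := by exact_mod_cast Nat.sub_le _ _
      have h8 : (w : ℝ) / γ ≤ Real.log |(z : ℝ)| := by linarith
      rw [div_le_iff₀ hγ] at h8
      linarith) I hI2 (by
      intro i hi
      have h2 := hI1 hi
      rw [hJ, Finset.mem_filter, Finset.mem_range] at h2
      exact ⟨by omega, hne i h2.1, h2.2.1⟩)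
    have h2 : (m : ℝ) * (η * (Real.log |(z : ℝ)| / 2)) ≤
        ∑ i ∈ I, Real.log (sPart S ((G a b 1)^[i] z - c)) := by
      have := Finset.card_nsmul_le_sum I
        (fun i => Real.log (sPart S ((G a b 1)^[i] z - c) : ℝ)) (η * (Real.log |(z : ℝ)| / 2))
        (fun i hi => by
          have h3 := hI1 hi
          rw [hJ, Finset.mem_filter, Finset.mem_range] at h3
          have h4 := (hsz i h3.1).1
          exact (mul_le_mul_of_nonneg_left h4 hη0.le).trans h3.2.2.le)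
      rwa [hI2, nsmul_eq_mul] at this
    have h3 : 4 < m * η := by rwa [div_lt_iff₀ hη0] at hm
    have h4 := mul_lt_mul_of_pos_right h3 hzlog
    nlinarith
  have hpw : ∀ j ∈ range w, phic a b S c ((G a b 1)^[j] z) ≤
      (if j ∈ J then 4 * Real.log |(z : ℝ)| else 0) +
        η * Real.log |(((G a b 1)^[j] z : ℤ) : ℝ)| := by
    intro j hj
    obtain ⟨h1, h2⟩ := hsz j (Finset.mem_range.1 hj)
    have h5 : 0 ≤ η * Real.log |(((G a b 1)^[j] z : ℤ) : ℝ)| :=
      mul_nonneg hη0.le (by linarith)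
    split_ifs with hL
    · have h4 := hsingle j (Finset.mem_range.1 hj)
      linarith
    · rw [zero_add]
      unfold phic
      split_ifs with hAw
      · by_contra hcon2
        push Not at hcon2
        exact hL (Finset.mem_filter.2 ⟨hj, hAw, hcon2⟩)
      · exact h5
  refine (Finset.sum_le_sum hpw).trans ?_
  rw [Finset.sum_add_distrib, ← Finset.mul_sum, ← Finset.sum_filter, Finset.sum_const,
    nsmul_eq_mul]
  have h1 : (w : ℝ) * (Real.log |(z : ℝ)| / 2) ≤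
      ∑ j ∈ range w, Real.log |(((G a b 1)^[j] z : ℤ) : ℝ)| := by
    have := Finset.card_nsmul_le_sum (range w)
      (fun j => Real.log |(((G a b 1)^[j] z : ℤ) : ℝ)|) (Real.log |(z : ℝ)| / 2)
      (fun j hj => (hsz j (Finset.mem_range.1 hj)).1)
    rwa [Finset.card_range, nsmul_eq_mul] at this
  have h2 : (((range w).filter fun j => j ∈ J).card : ℝ) ≤ m := by
    have h3 : ((range w).filter fun j => j ∈ J) ⊆ J := by
      intro j hj
      exact (Finset.mem_filter.1 hj).2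
    exact_mod_cast (Finset.card_le_card h3).trans hcount
  have h3 : (((range w).filter fun j => j ∈ J).card : ℝ) *
        (4 * Real.log |(z : ℝ)|) ≤ 8 * m / w *
          ∑ j ∈ range w, Real.log |(((G a b 1)^[j] z : ℤ) : ℝ)| := by
    calc _ ≤ m * (4 * Real.log |(z : ℝ)|) :=
        mul_le_mul_of_nonneg_right h2 (by linarith)
      _ = 8 * m / w * (w * (Real.log |(z : ℝ)| / 2)) := by
        field_simp
        ring
      _ ≤ _ := mul_le_mul_of_nonneg_left h1 (by positivity)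
  have h4 : 8 * m / w ≤ δ / 2 := by
    rw [div_le_iff₀ hw0]
    rw [div_lt_iff₀ hδ] at hw
    linarith
  have h5 : 0 ≤ ∑ j ∈ range w, Real.log |(((G a b 1)^[j] z : ℤ) : ℝ)| :=
    le_trans (by positivity) h1
  have h6 := mul_le_mul_of_nonneg_right h4 h5
  have h7 : η * ∑ j ∈ range w, Real.log |(((G a b 1)^[j] z : ℤ) : ℝ)| =
      δ / 2 * ∑ j ∈ range w, Real.log |(((G a b 1)^[j] z : ℤ) : ℝ)| := rfl
  linarith

theorem log_abs_nonneg (z : ℤ) : 0 ≤ Real.log |(z : ℝ)| := by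
  rcases eq_or_ne z 0 with rfl | hz
  · simp
  · apply Real.log_nonneg
    rw [← Int.cast_abs]
    exact_mod_cast Int.one_le_abs hz

/-- finite trajectories, uniformly in `b` and `c` -/
theorem finite_traj {a : ℤ} (ha : a % 2 = 1) (S : Finset ℕ) (δ : ℝ) (hδ : 0 < δ) :
    ∃ K M C : ℕ, 1 ≤ K ∧ 3 ≤ M ∧ ∀ b c : ℤ, b % 2 = 1 → ∀ (x : ℤ) (N : ℕ),
      (∀ k < N, (M : ℤ) ≤ |(G a b 1)^[k] x| ∧ (|b| + |c|) ^ K ≤ |(G a b 1)^[k] x|) →
      ∑ k ∈ range N, phic a b S c ((G a b 1)^[k] x) ≤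
        δ * ∑ k ∈ range N, Real.log |(((G a b 1)^[k] x : ℤ) : ℝ)| + C * Real.log |(x : ℝ)| := by
  obtain ⟨w, K, M, hw1, hK, hM3, ⟨hM1, hM2⟩, hW⟩ := window_boundu ha S δ hδ
  refine ⟨K, M, 4 * w, hK, hM3, ?_⟩
  intro b c hb x N
  have hb0 : b ≠ 0 := by rintro rfl; omega
  have hb1 : 1 ≤ |b| := Int.one_le_abs hb0
  have hc0 : 0 ≤ |c| := abs_nonneg c
  have hbc : |b| + |c| ≤ (|b| + |c|) ^ K := le_self_pow₀ (by linarith) (by omega)
  have hA : 0 ≤ Real.log (|(a : ℝ)| + 1) :=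
    Real.log_nonneg (by have := abs_nonneg (a : ℝ); linarith)
  have hlog2 : 0 ≤ Real.log 2 := Real.log_nonneg (by norm_num)
  have hx := log_abs_nonneg x
  induction N using Nat.strong_induction_on with
  | _ N ih =>
    intro hbig
    rcases le_or_gt N w with hN | hN
    · -- a short trajectory
      have hU : 0 ≤ δ * ∑ k ∈ range N, Real.log |(((G a b 1)^[k] x : ℤ) : ℝ)| :=
        mul_nonneg hδ.le (Finset.sum_nonneg fun k _ => log_abs_nonneg _)
      have hNw : (N : ℝ) ≤ w := by exact_mod_cast hN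
      have hle : ∀ k ∈ range N, phic a b S c ((G a b 1)^[k] x) ≤ 4 * Real.log |(x : ℝ)| := by
        intro k hk
        rw [Finset.mem_range] at hk
        obtain ⟨h1, h2⟩ := window_sizesu ha hb M (by omega) x N (by omega)
          (fun i hi => ⟨(hbig i hi).1, by have := (hbig i hi).2; linarith⟩)
          (le_trans (mul_le_mul_of_nonneg_right hNw hlog2) hM1)
          (le_trans (mul_le_mul_of_nonneg_right hNw hA) hM2) k hk
        have h3 := hbig k hk
        have hM3' : (3 : ℤ) ≤ M := by exact_mod_cast hM3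
        have h4 := phic_le (a := a) (b := b) S c ((G a b 1)^[k] x) (by linarith) (by linarith)
        linarith
      have h1 := Finset.sum_le_sum hle
      rw [Finset.sum_const, Finset.card_range, nsmul_eq_mul] at h1
      have h2 : (N : ℝ) * (4 * Real.log |(x : ℝ)|) ≤ w * (4 * Real.log |(x : ℝ)|) :=
        mul_le_mul_of_nonneg_right hNw (by linarith)
      push_cast
      linarith
    · have h1 := ih (N - w) (by omega) (fun k hk => hbig k (by omega))
      have h2 := hW b c hb ((G a b 1)^[N - w] x) (by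
        intro i hi
        rw [← Function.iterate_add_apply]
        exact hbig (i + (N - w)) (by omega))
      have h3 : ∀ j : ℕ, (G a b 1)^[j] ((G a b 1)^[N - w] x) = (G a b 1)^[N - w + j] x := by
        intro j
        rw [← Function.iterate_add_apply, add_comm]
      simp only [h3] at h2
      have h4 : N = (N - w) + w := by omega
      rw [h4, Finset.sum_range_add, Finset.sum_range_add, mul_add]
      linarith

include ha hb in
/-- the sum over all elements is bounded by the one over the odd elements -/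
theorem all_le_oddu {Z : Finset ℤ} (hZ : IsCyc (G a b 1) Z)
    (hbig : ∀ z ∈ Z, 3 ≤ |z| ∧ |b| ≤ |z|) :
    ∑ z ∈ Z, Real.log |(z : ℝ)| ≤
      (1 + (2 * Real.log (|(a : ℝ)| + 1) + Real.log (|(a : ℝ)| + 1) ^ 2) /
        Real.log 2) * ∑ z ∈ Z.filter (fun z => z % 2 = 1), Real.log |(z : ℝ)| := by
  set A : ℝ := Real.log (|(a : ℝ)| + 1) with hA
  have ha0 : a ≠ 0 := by rintro rfl; omega
  have hA1 : (2 : ℝ) ≤ |(a : ℝ)| + 1 := by
    have h1 : (1 : ℝ) ≤ |(a : ℝ)| := by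
      rw [← Int.cast_abs]; exact_mod_cast Int.one_le_abs ha0
    linarith
  have hA0 : 0 < A := Real.log_pos (by linarith)
  have hlog2 : 0 < Real.log 2 := Real.log_pos (by norm_num)
  have hlog21 : Real.log 2 ≤ 1 := by
    have := Real.log_two_lt_d9
    linarith
  have hR : ∀ z ∈ Z, (3 : ℝ) ≤ |(z : ℝ)| := by
    intro z hz
    rw [← Int.cast_abs]
    exact_mod_cast (hbig z hz).1
  have hU1 : ∀ z ∈ Z, 1 ≤ Real.log |(z : ℝ)| := by
    intro z hz
    rw [Real.le_log_iff_exp_le (by linarith [hR z hz])]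
    have := Real.exp_one_lt_d9
    linarith [hR z hz]
  have hmem : ∀ z ∈ Z, G a b 1 z ∈ Z := fun z hz => (cyc_mem hZ hz _).2 ⟨1, rfl⟩
  have h0 := sum_step hZ (fun z => Real.log |(z : ℝ)| ^ 2)
  beta_reduce at h0
  have hstep : ∀ z ∈ Z, Real.log |((G a b 1 z : ℤ) : ℝ)| ^ 2 - Real.log |(z : ℝ)| ^ 2 ≤
      if z % 2 = 1 then (2 * A + A ^ 2) * Real.log |(z : ℝ)| else
        - (Real.log 2 * Real.log |(z : ℝ)|) := by
    intro z hz
    have hu := hU1 z hz
    have hv := hU1 _ (hmem z hz)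
    have hzR := hR z hz
    have hgR := hR _ (hmem z hz)
    split_ifs with ho
    · have h7 := step_upu ha hb z (hbig z hz).2
      have h8 : |((G a b 1 z : ℤ) : ℝ)| ≤ (|(a : ℝ)| + 1) * |(z : ℝ)| := by
        rw [← Int.cast_abs, ← Int.cast_abs, ← Int.cast_abs]
        exact_mod_cast h7
      have h9 := Real.log_le_log (by linarith) h8
      rw [Real.log_mul (by linarith) (by linarith)] at h9
      have h10 : Real.log |((G a b 1 z : ℤ) : ℝ)| ^ 2 ≤ (A + Real.log |(z : ℝ)|) ^ 2 :=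
        pow_le_pow_left₀ (by linarith) h9 2
      nlinarith [mul_nonneg (sq_nonneg A) (by linarith : 0 ≤ Real.log |(z : ℝ)| - 1)]
    · have h3 := G_even (a := a) (b := b) (r := 1) (show z % 2 = 0 by omega)
      have h4 : 2 * |G a b 1 z| = |z| := by conv_rhs => rw [← h3, abs_mul, abs_two]
      have h5 : |(z : ℝ)| = 2 * |((G a b 1 z : ℤ) : ℝ)| := by
        rw [← Int.cast_abs, ← Int.cast_abs]
        exact_mod_cast h4.symm
      have h6 : Real.log |(z : ℝ)| = Real.log 2 + Real.log |((G a b 1 z : ℤ) : ℝ)| := by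
        rw [h5, Real.log_mul (by norm_num) (by linarith)]
      have h7 : Real.log |((G a b 1 z : ℤ) : ℝ)| = Real.log |(z : ℝ)| - Real.log 2 := by linarith
      rw [h7]
      nlinarith
  have h1 := Finset.sum_le_sum hstep
  rw [Finset.sum_sub_distrib, h0, sub_self, Finset.sum_ite, Finset.sum_neg_distrib,
    ← Finset.mul_sum, ← Finset.mul_sum] at h1
  have h2 : ∑ z ∈ Z, Real.log |(z : ℝ)| = ∑ z ∈ Z.filter (fun z => z % 2 = 1), Real.log |(z : ℝ)| +
      ∑ z ∈ Z.filter (fun z => ¬ z % 2 = 1), Real.log |(z : ℝ)| :=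
    (Finset.sum_filter_add_sum_filter_not _ _ _).symm
  rw [h2, add_mul, one_mul, add_le_add_iff_left, div_mul_eq_mul_div, le_div_iff₀ hlog2]
  linarith

/-- cycles, uniformly in `b` and `c` -/
theorem cycles_u {a : ℤ} (ha : a % 2 = 1) (S : Finset ℕ) (δ : ℝ) (hδ : 0 < δ) :
    ∃ K M : ℕ, 1 ≤ K ∧ 3 ≤ M ∧ ∀ b c : ℤ, b % 2 = 1 → ∀ Z : Finset ℤ, IsCyc (G a b 1) Z →
      (∀ z ∈ Z, (M : ℤ) ≤ |z| ∧ (|b| + |c|) ^ K ≤ |z|) →
      ∑ z ∈ Z, phic a b S c z ≤
        δ * ∑ z ∈ Z.filter (fun z => z % 2 = 1), Real.log |(z : ℝ)| := by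
  set A : ℝ := Real.log (|(a : ℝ)| + 1) with hA
  have ha0 : a ≠ 0 := by rintro rfl; omega
  have hA1 : (2 : ℝ) ≤ |(a : ℝ)| + 1 := by
    have h1 : (1 : ℝ) ≤ |(a : ℝ)| := by
      rw [← Int.cast_abs]; exact_mod_cast Int.one_le_abs ha0
    linarith
  have hA0 : 0 < A := Real.log_pos (by linarith)
  have hlog2 : 0 < Real.log 2 := Real.log_pos (by norm_num)
  set C : ℝ := 1 + (2 * A + A ^ 2) / Real.log 2 with hC
  have hC1 : 1 ≤ C := by
    have : 0 ≤ (2 * A + A ^ 2) / Real.log 2 := by positivity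
    linarith
  obtain ⟨w, K, M, hw1, hK, hM3, -, hW⟩ := window_boundu ha S (δ / C) (by positivity)
  refine ⟨K, M, hK, hM3, ?_⟩
  intro b c hb Z hZ hbig
  have hb0 : b ≠ 0 := by rintro rfl; omega
  have hb1 : 1 ≤ |b| := Int.one_le_abs hb0
  have hc0 : 0 ≤ |c| := abs_nonneg c
  have hbc : |b| + |c| ≤ (|b| + |c|) ^ K := le_self_pow₀ (by linarith) (by omega)
  have hwin : ∀ z ∈ Z, ∑ j ∈ range w, phic a b S c ((G a b 1)^[j] z) ≤
      δ / C * ∑ j ∈ range w, Real.log |(((G a b 1)^[j] z : ℤ) : ℝ)| := by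
    intro z hz
    apply hW b c hb z
    intro i _
    exact hbig _ ((cyc_mem hZ hz _).2 ⟨i, rfl⟩)
  have hw0 : (0 : ℝ) < w := by exact_mod_cast hw1
  have hall := Finset.sum_le_sum hwin
  rw [Finset.sum_comm, ← Finset.mul_sum, Finset.sum_comm (s := Z) (t := range w)] at hall
  rw [Finset.sum_congr rfl fun j _ => sum_iter hZ (phic a b S c) j,
    Finset.sum_congr rfl fun j _ => sum_iter hZ (fun z => Real.log |(z : ℝ)|) j,
    Finset.sum_const, Finset.sum_const, Finset.card_range, nsmul_eq_mul, nsmul_eq_mul] at hall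
  have hall2 : ∑ z ∈ Z, phic a b S c z ≤ δ / C * ∑ z ∈ Z, Real.log |(z : ℝ)| := by
    have h1 : (w : ℝ) * ∑ z ∈ Z, phic a b S c z ≤
        w * (δ / C * ∑ z ∈ Z, Real.log |(z : ℝ)|) := by
      refine hall.trans (le_of_eq ?_)
      ring
    exact le_of_mul_le_mul_left h1 hw0
  have hM3' : (3 : ℤ) ≤ M := by exact_mod_cast hM3
  have hodd := all_le_oddu ha hb hZ (fun z hz => by
    obtain ⟨h1, h2⟩ := hbig z hz
    exact ⟨by linarith, by linarith⟩)
  rw [← hA, ← hC] at hodd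
  calc ∑ z ∈ Z, phic a b S c z ≤ δ / C * ∑ z ∈ Z, Real.log |(z : ℝ)| := hall2
    _ ≤ δ / C * (C * ∑ z ∈ Z.filter (fun z => z % 2 = 1), Real.log |(z : ℝ)|) :=
        mul_le_mul_of_nonneg_left hodd (by positivity)
    _ = _ := by field_simp

end Pool.Agent.H977.PW
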