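import Mathlib
import Pool.Agent.H977.PW.Unif
import Pool.Agent.H977.PW.Win

set_option autoImplicit false

/-!
Numbers `c + u y ^ k` in short pieces of the trajectories of Collatz type maps, uniformly in `b` and `c`.
-/

open Finset Filter Topology

namespace Pool.Agent.H977.PW

open Pool.Agent.H977.SP

section

variable {a b : ℤ} (ha : a % 2 = 1) (hb : b % 2 = 1)

include ha hb in
theorem partsc2 (c x : ℤ) (n : ℕ) : ∃ X : ℤ, ∃ F : ℕ → ℤ,
    |x| ≤ |X| ∧ |X| ≤ (|a| + 2) ^ n * |x| ∧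
    (∀ i ≤ n, |F i - X| ≤ (|b| + |c|) * (|a| + 2) ^ n) ∧
    (∀ i ≤ n, ∃ e f : ℕ, F i = a ^ e * (2 ^ f * ((G a b 1)^[i] x - c))) ∧
    (∀ i ≤ n, ∀ j ≤ n, Away a b c ((G a b 1)^[i] x) → Away a b c ((G a b 1)^[j] x) →
      F i = F j → i = j) := by
  have ha1 : 1 ≤ |a| := Int.one_le_abs (by rintro rfl; omega)
  have ha0 : a ≠ 0 := by rintro rfl; omega
  set K := kk a b 1 x n with hK
  have hKn : K ≤ n := by
    have := (kk_mono (a := a) (b := b) (r := 1) x (Nat.zero_le n)).2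
    rw [kk] at this
    omega
  refine ⟨a ^ K * x, fun i => a ^ (K - kk a b 1 x i) * (2 ^ i * ((G a b 1)^[i] x - c)),
    ?_, ?_, ?_, ?_, ?_⟩
  · rw [abs_mul, abs_pow]
    have h1 : 1 ≤ |a| ^ K := one_le_pow₀ ha1
    have := abs_nonneg x
    nlinarith
  · rw [abs_mul, abs_pow]
    apply mul_le_mul_of_nonneg_right _ (abs_nonneg x)
    calc |a| ^ K ≤ (|a| + 2) ^ K := pow_le_pow_left₀ (abs_nonneg a) (by omega) K
      _ ≤ (|a| + 2) ^ n := pow_le_pow_right₀ (by omega) hKn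
  · intro i hi
    obtain ⟨e, h1, h2⟩ := form ha hb (r := 1) le_rfl x i
    rw [hh1] at h1
    obtain ⟨h3, h4⟩ := kk_mono (a := a) (b := b) (r := 1) x hi
    beta_reduce
    have h5 : a ^ (K - kk a b 1 x i) * (2 ^ i * ((G a b 1)^[i] x - c)) - a ^ K * x =
        a ^ (K - kk a b 1 x i) * (e - 2 ^ i * c) := by
      have h6 : a ^ K = a ^ (K - kk a b 1 x i) * a ^ (kk a b 1 x i) := by
        rw [← pow_add, Nat.sub_add_cancel h3]
      rw [h6]
      linear_combination a ^ (K - kk a b 1 x i) * h1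
    rw [h5, abs_mul, abs_pow]
    have h7 : |a| ^ (K - kk a b 1 x i) ≤ (|a| + 2) ^ (n - i) :=
      calc |a| ^ (K - kk a b 1 x i) ≤ (|a| + 2) ^ (K - kk a b 1 x i) :=
            pow_le_pow_left₀ (abs_nonneg a) (by omega) _
        _ ≤ (|a| + 2) ^ (n - i) := pow_le_pow_right₀ (by omega) h4
    have h8 : |e - 2 ^ i * c| ≤ (|b| + |c|) * (|a| + 2) ^ i := by
      refine (abs_sub _ _).trans ?_
      rw [abs_mul, abs_pow, abs_two]
      have h9 : (2 : ℤ) ^ i ≤ (|a| + 2) ^ i := pow_le_pow_left₀ (by norm_num) (by omega) i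
      have h10 := mul_le_mul_of_nonneg_right h9 (abs_nonneg c)
      linarith
    calc |a| ^ (K - kk a b 1 x i) * |e - 2 ^ i * c| ≤
          (|a| + 2) ^ (n - i) * ((|b| + |c|) * (|a| + 2) ^ i) := by gcongr
      _ = (|b| + |c|) * ((|a| + 2) ^ (n - i) * (|a| + 2) ^ i) := by ring
      _ = (|b| + |c|) * (|a| + 2) ^ n := by rw [← pow_add, Nat.sub_add_cancel hi]
  · intro i _
    exact ⟨_, _, rfl⟩
  · -- injectivity
    have key : ∀ i j, i < j → j ≤ n → Away a b c ((G a b 1)^[i] x) →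
        a ^ (K - kk a b 1 x i) * (2 ^ i * ((G a b 1)^[i] x - c)) ≠
        a ^ (K - kk a b 1 x j) * (2 ^ j * ((G a b 1)^[j] x - c)) := by
      intro i j hij hj hi h
      obtain ⟨l, hl⟩ := Nat.exists_eq_add_of_lt hij
      have hj' : j = i + (l + 1) := by omega
      have h3 := (kk_mono (a := a) (b := b) (r := 1) x hj).1
      have hk : K - kk a b 1 x i = (K - kk a b 1 x j) + kk a b 1 ((G a b 1)^[i] x) (l + 1) := by
        have h4 := kk_add (a := a) (b := b) x i (l + 1)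
        rw [← hj'] at h4
        omega
      rw [hk, pow_add, mul_assoc] at h
      have h5 := mul_left_cancel₀ (pow_ne_zero _ ha0) h
      have h6 : a ^ (kk a b 1 ((G a b 1)^[i] x) (l + 1)) * ((G a b 1)^[i] x - c) =
          2 ^ (l + 1) * ((G a b 1)^[j] x - c) := by
        apply mul_left_cancel₀ (pow_ne_zero i (two_ne_zero : (2 : ℤ) ≠ 0))
        have h7 : (2 : ℤ) ^ j = 2 ^ i * 2 ^ (l + 1) := by rw [← pow_add, ← hj']
        rw [h7] at h5
        linear_combination h5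
      have hcop : IsCoprime ((2 : ℤ) ^ (l + 1)) (a ^ (kk a b 1 ((G a b 1)^[i] x) (l + 1))) := by
        apply IsCoprime.pow
        exact ⟨-(a / 2), 1, by omega⟩
      have hdvd : (2 : ℤ) ^ (l + 1) ∣ (G a b 1)^[i] x - c :=
        hcop.dvd_of_dvd_mul_left ⟨_, h6⟩
      have h8 := branch ha hb _ c (l + 1) hdvd
      rw [h6] at h8
      have h9 := mul_left_cancel₀ (pow_ne_zero (l + 1) (two_ne_zero : (2 : ℤ) ≠ 0)) h8
      have h10 : (G a b 1)^[l + 1] ((G a b 1)^[i] x) = (G a b 1)^[j] x := by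
        rw [← Function.iterate_add_apply, hj', add_comm]
      rw [h10] at h9
      exact hi (l + 1) (by omega) (by linarith) hdvd
    intro i hi j hj ho1 ho2 h
    rcases Nat.lt_trichotomy i j with h1 | h1 | h1
    · exact absurd h (key i j h1 hj ho1)
    · exact h1
    · exact absurd h.symm (key j i h1 hi ho2)

end

/-- the multiples of the numbers `z - c` of a short piece are close to each other -/
theorem nearu {a : ℤ} (ha : a % 2 = 1) : ∃ γ : ℝ, 0 < γ ∧ ∃ K M : ℕ, ∀ b c : ℤ, b % 2 = 1 →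
    ∀ x : ℤ, (M : ℤ) ≤ |x| → (|b| + |c|) ^ K ≤ |x| → ∀ n : ℕ,
    (n : ℝ) ≤ γ * Real.log |(x : ℝ)| → ∃ N : ℕ → ℕ,
      (∀ i ≤ n, (∃ e f : ℕ, N i = a.natAbs ^ e * (2 ^ f * ((G a b 1)^[i] x - c).natAbs)) ∧
        |(x : ℝ)| / 2 ≤ N i) ∧
      (∀ i ≤ n, ∀ j ≤ n, Away a b c ((G a b 1)^[i] x) → Away a b c ((G a b 1)^[j] x) →
        i ≠ j → N i ≠ N j) ∧
      (∀ i ≤ n, ∀ j ≤ n, |(N i : ℝ) - N j| ≤ (N i : ℝ) ^ (1 / 8 : ℝ)) := by
  set A : ℝ := Real.log (|(a : ℝ)| + 2) with hA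
  have hA0 : 0 < A := Real.log_pos (by have := abs_nonneg (a : ℝ); linarith)
  have hlog2 : 0 < Real.log 2 := Real.log_pos (by norm_num)
  obtain ⟨M, hM⟩ := exists_nat_gt (Real.exp (2 * (256 * Real.log 2 + 1)))
  refine ⟨1 / (64 * A), by positivity, 128, M, ?_⟩
  intro b c hb x hxM hxK n hn
  have hb0 : b ≠ 0 := by rintro rfl; omega
  set B : ℝ := |(b : ℝ)| + |(c : ℝ)| with hB
  have hbR : (1 : ℝ) ≤ B := by
    have h1 : (1 : ℝ) ≤ |(b : ℝ)| := by rw [← Int.cast_abs]; exact_mod_cast Int.one_le_abs hb0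
    have := abs_nonneg (c : ℝ)
    linarith
  have hlb0 : 0 ≤ Real.log B := Real.log_nonneg hbR
  have hxMR : Real.exp (2 * (256 * Real.log 2 + 1)) ≤ |(x : ℝ)| := by
    refine hM.le.trans ?_
    rw [← Int.cast_abs]
    exact_mod_cast hxM
  have hx0 : 0 < |(x : ℝ)| := lt_of_lt_of_le (Real.exp_pos _) hxMR
  set L := Real.log |(x : ℝ)| with hL
  have hLa : 2 * (256 * Real.log 2 + 1) ≤ L := (Real.le_log_iff_exp_le hx0).2 hxMR
  have hLb : 128 * Real.log B ≤ L := by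
    have h1 : B ^ 128 ≤ |(x : ℝ)| := by
      rw [hB, ← Int.cast_abs, ← Int.cast_abs, ← Int.cast_abs]
      exact_mod_cast hxK
    have h2 := Real.log_le_log (by positivity) h1
    rw [Real.log_pow] at h2
    have h3 : ((128 : ℕ) : ℝ) = 128 := by norm_num
    rw [h3] at h2
    exact h2
  have hL1 : 64 * (Real.log B + 4 * Real.log 2) + 1 ≤ L := by linarith
  have hxL : |(x : ℝ)| = Real.exp L := (Real.exp_log hx0).symm
  have hnA : (n : ℝ) * A ≤ L / 64 := by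
    have h1 := mul_le_mul_of_nonneg_right hn hA0.le
    have h2 : 1 / (64 * A) * L * A = L / 64 := by field_simp
    linarith
  obtain ⟨X, F, h1, h2, h3, h4, h5⟩ := partsc2 ha hb c x n
  have h1R : |(x : ℝ)| ≤ |(X : ℝ)| := by
    rw [← Int.cast_abs, ← Int.cast_abs]; exact_mod_cast h1
  set D : ℝ := B * (|(a : ℝ)| + 2) ^ n with hD
  have hDexp : D = Real.exp (Real.log B + n * A) := by
    rw [hD, Real.exp_add, Real.exp_log (by linarith), Real.exp_nat_mul,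
      Real.exp_log (by have := abs_nonneg (a : ℝ); linarith)]
  have hdist : ∀ i ≤ n, |(F i : ℝ) - X| ≤ D := by
    intro i hi
    have h6 := h3 i hi
    have h7 : (F i : ℝ) - X = ((F i - X : ℤ) : ℝ) := by push_cast; ring
    rw [h7, hD, hB, ← Int.cast_abs, ← Int.cast_abs, ← Int.cast_abs, ← Int.cast_abs]
    exact_mod_cast h6
  have hD4 : 4 * D ≤ Real.exp (L / 16) := by
    have h6 : (4 : ℝ) = Real.exp (2 * Real.log 2) := by
      rw [two_mul, Real.exp_add, Real.exp_log (by norm_num)]; norm_num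
    rw [h6, hDexp, ← Real.exp_add]
    apply Real.exp_le_exp.2
    nlinarith
  have hDX : D ≤ |(x : ℝ)| / 4 := by
    have h6 : Real.exp (L / 16) ≤ Real.exp L := Real.exp_le_exp.2 (by nlinarith)
    rw [hxL]; linarith
  have hDpos : 0 < D := by rw [hDexp]; exact Real.exp_pos _
  have hcast : ∀ i, (((F i).natAbs : ℕ) : ℝ) = |(F i : ℝ)| := by
    intro i
    rw [← Int.cast_abs, Int.abs_eq_natAbs, Int.cast_natCast]
  have hlow : ∀ i ≤ n, |(x : ℝ)| / 2 ≤ |(F i : ℝ)| := by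
    intro i hi
    have h6 := hdist i hi
    have h7 : |(X : ℝ)| ≤ |(F i : ℝ)| + |(F i : ℝ) - X| := by
      have := abs_sub_abs_le_abs_sub (X : ℝ) (F i)
      rw [abs_sub_comm] at this
      linarith
    linarith
  have hdiff : ∀ i ≤ n, ∀ j ≤ n, |(F i : ℝ) - F j| ≤ 2 * D := by
    intro i hi j hj
    have h6 := hdist i hi
    have h7 := hdist j hj
    have h8 : (F i : ℝ) - F j = (F i - X) - (F j - X) := by ring
    rw [h8]
    refine (abs_sub _ _).trans ?_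
    linarith
  refine ⟨fun i => (F i).natAbs, ?_, ?_, ?_⟩
  · intro i hi
    refine ⟨?_, ?_⟩
    · obtain ⟨e, f, hef⟩ := h4 i hi
      refine ⟨e, f, ?_⟩
      beta_reduce
      rw [hef, Int.natAbs_mul, Int.natAbs_mul, Int.natAbs_pow, Int.natAbs_pow]
      rfl
    · beta_reduce
      rw [hcast]; exact hlow i hi
  · intro i hi j hj ho1 ho2 hij heq
    apply hij
    apply h5 i hi j hj ho1 ho2
    beta_reduce at heq
    rcases Int.natAbs_eq_natAbs_iff.1 heq with h6 | h6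
    · exact h6
    · exfalso
      have h7 := hdiff i hi j hj
      have h8 : (F i : ℝ) - F j = 2 * F i := by
        have : (F i : ℝ) = -F j := by rw [h6]; push_cast; ring
        linarith
      rw [h8, abs_mul, abs_two] at h7
      have h9 := hlow i hi
      have h10 : D ≤ |(x : ℝ)| / 4 := hDX
      linarith
  · intro i hi j hj
    beta_reduce
    rw [hcast, hcast]
    refine (abs_abs_sub_abs_le _ _).trans ((hdiff i hi j hj).trans ?_)
    have h6 : Real.exp (L / 16) ≤ |(F i : ℝ)| ^ (1 / 8 : ℝ) := by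
      have h7 : Real.exp (L / 2) ≤ |(F i : ℝ)| := by
        refine le_trans ?_ (hlow i hi)
        rw [hxL, le_div_iff₀ (by norm_num)]
        have h8 : Real.exp (L / 2) * 2 = Real.exp (L / 2 + Real.log 2) := by
          rw [Real.exp_add, Real.exp_log (by norm_num)]
        rw [h8]
        apply Real.exp_le_exp.2
        nlinarith
      have h8 : Real.exp (L / 16) = Real.exp (L / 2) ^ (1 / 8 : ℝ) := by
        rw [← Real.exp_mul]; congr 1; ring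
      rw [h8]
      exact Real.rpow_le_rpow (Real.exp_pos _).le h7 (by norm_num)
    linarith

/-- `z` is away from `c` and `z - c ≠ 0` is the product of a number composed of primes of `S` and a
`q`-th power. -/
def UPc (a b c : ℤ) (S : Finset ℕ) (q : ℕ) (z : ℤ) : Prop :=
  Away a b c z ∧ z ≠ c ∧ ∃ u y : ℤ, z - c = u * y ^ q ∧ ∀ p : ℕ, p.Prime → (p : ℤ) ∣ u → p ∈ S

open Classical in
/-- the number of terms `c + u y ^ k` in a short piece of a trajectory -/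
theorem pow_countu {a : ℤ} (ha : a % 2 = 1) (S : Finset ℕ) (k : ℕ) (hk : 2 ≤ k) :
    ∃ γ : ℝ, 0 < γ ∧ ∃ K M : ℕ, ∀ b c : ℤ, b % 2 = 1 → ∀ x : ℤ, (M : ℤ) ≤ |x| →
      (|b| + |c|) ^ K ≤ |x| → ∀ n : ℕ, (n : ℝ) ≤ γ * Real.log |(x : ℝ)| →
      ((range (n + 1)).filter fun i => UPc a b c S k ((G a b 1)^[i] x)).card ≤
        if k = 2 then 2 else 1 := by
  obtain ⟨γ, hγ, K, M₁, hN⟩ := nearu ha
  obtain ⟨Bd, hBd⟩ := repr (S ∪ ({2} ∪ a.natAbs.primeFactors)) k (by omega)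
  have ha0 : a ≠ 0 := by rintro rfl; omega
  -- the representation of the terms
  have hrep : ∀ (b c x : ℤ) (n : ℕ) (N : ℕ → ℕ), (∀ i ≤ n, (∃ e f : ℕ, N i = a.natAbs ^ e *
      (2 ^ f * ((G a b 1)^[i] x - c).natAbs)) ∧ |(x : ℝ)| / 2 ≤ N i) →
      ∀ i ∈ (range (n + 1)).filter fun i => UPc a b c S k ((G a b 1)^[i] x),
      ∃ d Y : ℕ, 1 ≤ d ∧ d ≤ Bd ∧ N i = d * Y ^ k := by
    intro b c x n N hN1 i hi
    rw [Finset.mem_filter, Finset.mem_range] at hi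
    obtain ⟨hin, haw, hzc, u, y, huy, hu⟩ := hi
    obtain ⟨⟨e, f, hef⟩, -⟩ := hN1 i (by omega)
    have hz0 : (G a b 1)^[i] x - c ≠ 0 := sub_ne_zero.2 hzc
    have hu0 : u ≠ 0 := by rintro rfl; rw [zero_mul] at huy; exact hz0 huy
    have hw0 : a.natAbs ^ e * (2 ^ f * u.natAbs) ≠ 0 := by
      have h1 : a.natAbs ≠ 0 := Int.natAbs_ne_zero.2 ha0
      have h2 : u.natAbs ≠ 0 := Int.natAbs_ne_zero.2 hu0
      positivity
    obtain ⟨d, v, hd1, hd2, hdv⟩ := hBd _ hw0 (by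
      intro p hp hdiv
      rw [Finset.mem_union, Finset.mem_union, Finset.mem_singleton]
      rcases (hp.dvd_mul).1 hdiv with h | h
      · exact Or.inr (Or.inr (Nat.mem_primeFactors.2 ⟨hp, hp.dvd_of_dvd_pow h,
          Int.natAbs_ne_zero.2 ha0⟩))
      · rcases (hp.dvd_mul).1 h with h | h
        · exact Or.inr (Or.inl ((Nat.prime_dvd_prime_iff_eq hp Nat.prime_two).1
            (hp.dvd_of_dvd_pow h)))
        · exact Or.inl (hu p hp (Int.natCast_dvd.2 h)))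
    refine ⟨d, v * y.natAbs, hd1, hd2, ?_⟩
    rw [hef, huy, Int.natAbs_mul, Int.natAbs_pow, mul_pow]
    calc a.natAbs ^ e * (2 ^ f * (u.natAbs * y.natAbs ^ k)) =
        (a.natAbs ^ e * (2 ^ f * u.natAbs)) * y.natAbs ^ k := by ring
      _ = d * (v ^ k * y.natAbs ^ k) := by rw [hdv]; ring
  by_cases hk2 : k = 2
  · subst hk2
    rw [if_pos rfl]
    -- squares
    have hex : ∀ c₁ c₂ c₃ : ℕ, ∃ X₀ : ℝ, 1 ≤ c₁ → 1 ≤ c₂ → 1 ≤ c₃ → ∀ Y : Fin 3 → ℕ,
        X₀ ≤ (c₁ : ℝ) * (Y 0 : ℝ) ^ 2 → c₁ * Y 0 ^ 2 ≠ c₂ * Y 1 ^ 2 →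
        c₁ * Y 0 ^ 2 ≠ c₃ * Y 2 ^ 2 → c₂ * Y 1 ^ 2 ≠ c₃ * Y 2 ^ 2 → ¬ Near c₁ c₂ c₃ Y := by
      intro c₁ c₂ c₃
      by_cases h : 1 ≤ c₁ ∧ 1 ≤ c₂ ∧ 1 ≤ c₃
      · obtain ⟨X₀, hX⟩ := three c₁ c₂ c₃ h.1 h.2.1 h.2.2
        exact ⟨X₀, fun _ _ _ => hX⟩
      · exact ⟨0, fun h1 h2 h3 => absurd ⟨h1, h2, h3⟩ h⟩
    choose X₀ hX₀ using hex
    set T : ℝ := ∑ c₁ ∈ range (Bd + 1), ∑ c₂ ∈ range (Bd + 1), ∑ c₃ ∈ range (Bd + 1), |X₀ c₁ c₂ c₃|
      with hT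
    have hTle : ∀ c₁ c₂ c₃, c₁ ≤ Bd → c₂ ≤ Bd → c₃ ≤ Bd → X₀ c₁ c₂ c₃ ≤ T := by
      intro c₁ c₂ c₃ h1 h2 h3
      refine (le_abs_self _).trans ?_
      refine (Finset.single_le_sum (f := fun c₃ => |X₀ c₁ c₂ c₃|) (fun _ _ => abs_nonneg _)
        (Finset.mem_range.2 (Nat.lt_succ_of_le h3))).trans ?_
      refine (Finset.single_le_sum (f := fun c₂ => ∑ c₃ ∈ range (Bd + 1), |X₀ c₁ c₂ c₃|)
        (fun _ _ => Finset.sum_nonneg fun _ _ => abs_nonneg _)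
        (Finset.mem_range.2 (Nat.lt_succ_of_le h2))).trans ?_
      exact Finset.single_le_sum (f := fun c₁ => ∑ c₂ ∈ range (Bd + 1), ∑ c₃ ∈ range (Bd + 1),
        |X₀ c₁ c₂ c₃|) (fun _ _ => Finset.sum_nonneg fun _ _ => Finset.sum_nonneg fun _ _ =>
          abs_nonneg _) (Finset.mem_range.2 (Nat.lt_succ_of_le h1))
    obtain ⟨M₂, hM₂⟩ := exists_nat_gt (2 * T)
    refine ⟨γ, hγ, K, max M₁ M₂, ?_⟩
    intro b c hb x hxM hxK n hn
    have hxM1 : (M₁ : ℤ) ≤ |x| := le_trans (by exact_mod_cast le_max_left _ _) hxM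
    have hxM2 : 2 * T ≤ |(x : ℝ)| := by
      have h1 : (M₂ : ℤ) ≤ |x| := le_trans (by exact_mod_cast le_max_right _ _) hxM
      refine hM₂.le.trans ?_
      rw [← Int.cast_abs]
      exact_mod_cast h1
    obtain ⟨N, hN1, hN2, hN3⟩ := hN b c hb x hxM1 hxK n hn
    by_contra hcon
    rw [not_le] at hcon
    obtain ⟨i, j, l, hi, hj, hl, hij, hil, hjl⟩ := Finset.two_lt_card_iff.1 hcon
    obtain ⟨d₁, Y₁, h1, h1', h1''⟩ := hrep b c x n N hN1 i hi
    obtain ⟨d₂, Y₂, h2, h2', h2''⟩ := hrep b c x n N hN1 j hj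
    obtain ⟨d₃, Y₃, h3, h3', h3''⟩ := hrep b c x n N hN1 l hl
    rw [Finset.mem_filter, Finset.mem_range] at hi hj hl
    have e1 : ((N i : ℕ) : ℝ) = (d₁ : ℝ) * (Y₁ : ℝ) ^ 2 := by rw [h1'']; push_cast; ring
    have e2 : ((N j : ℕ) : ℝ) = (d₂ : ℝ) * (Y₂ : ℝ) ^ 2 := by rw [h2'']; push_cast; ring
    have e3 : ((N l : ℕ) : ℝ) = (d₃ : ℝ) * (Y₃ : ℝ) ^ 2 := by rw [h3'']; push_cast; ring
    refine hX₀ d₁ d₂ d₃ h1 h2 h3 ![Y₁, Y₂, Y₃] ?_ ?_ ?_ ?_ ⟨?_, ?_⟩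
    · have h4 := (hN1 i (by omega)).2
      have h6 := hTle d₁ d₂ d₃ h1' h2' h3'
      have : X₀ d₁ d₂ d₃ ≤ ((N i : ℕ) : ℝ) := by linarith
      rw [e1] at this
      simpa using this
    · have := hN2 i (by omega) j (by omega) hi.2.1 hj.2.1 hij
      rw [h1'', h2''] at this
      simpa using this
    · have := hN2 i (by omega) l (by omega) hi.2.1 hl.2.1 hil
      rw [h1'', h3''] at this
      simpa using this
    · have := hN2 j (by omega) l (by omega) hj.2.1 hl.2.1 hjl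
      rw [h2'', h3''] at this
      simpa using this
    · have := hN3 i (by omega) j (by omega)
      rw [e1, e2] at this
      simpa using this
    · have := hN3 i (by omega) l (by omega)
      rw [e1, e3] at this
      simpa using this
  · rw [if_neg hk2]
    have hex : ∀ c₁ c₂ : ℕ, ∃ X₀ : ℝ, 1 ≤ c₁ → 1 ≤ c₂ → ∀ Y Z : ℕ, X₀ ≤ (c₁ : ℝ) * (Y : ℝ) ^ k →
        c₁ * Y ^ k ≠ c₂ * Z ^ k →
        ((c₁ : ℝ) * (Y : ℝ) ^ k) ^ (1 / 4 : ℝ) < |(c₁ : ℝ) * (Y : ℝ) ^ k - (c₂ : ℝ) * (Z : ℝ) ^ k| := by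
      intro c₁ c₂
      by_cases h : 1 ≤ c₁ ∧ 1 ≤ c₂
      · obtain ⟨X₀, hX⟩ := two k (by omega) c₁ c₂ h.1 h.2
        exact ⟨X₀, fun _ _ => hX⟩
      · exact ⟨0, fun h1 h2 => absurd ⟨h1, h2⟩ h⟩
    choose X₀ hX₀ using hex
    set T : ℝ := ∑ c₁ ∈ range (Bd + 1), ∑ c₂ ∈ range (Bd + 1), |X₀ c₁ c₂| with hT
    have hT0 : 0 ≤ T := Finset.sum_nonneg fun _ _ => Finset.sum_nonneg fun _ _ => abs_nonneg _
    have hTle : ∀ c₁ c₂, c₁ ≤ Bd → c₂ ≤ Bd → X₀ c₁ c₂ ≤ T := by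
      intro c₁ c₂ h1 h2
      refine (le_abs_self _).trans ?_
      refine (Finset.single_le_sum (f := fun c₂ => |X₀ c₁ c₂|) (fun _ _ => abs_nonneg _)
        (Finset.mem_range.2 (Nat.lt_succ_of_le h2))).trans ?_
      exact Finset.single_le_sum (f := fun c₁ => ∑ c₂ ∈ range (Bd + 1), |X₀ c₁ c₂|)
        (fun _ _ => Finset.sum_nonneg fun _ _ => abs_nonneg _)
        (Finset.mem_range.2 (Nat.lt_succ_of_le h1))
    obtain ⟨M₂, hM₂⟩ := exists_nat_gt (2 * (T + 1))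
    refine ⟨γ, hγ, K, max M₁ M₂, ?_⟩
    intro b c hb x hxM hxK n hn
    have hxM1 : (M₁ : ℤ) ≤ |x| := le_trans (by exact_mod_cast le_max_left _ _) hxM
    have h5 : 2 * (T + 1) ≤ |(x : ℝ)| := by
      have h1 : (M₂ : ℤ) ≤ |x| := le_trans (by exact_mod_cast le_max_right _ _) hxM
      refine hM₂.le.trans ?_
      rw [← Int.cast_abs]
      exact_mod_cast h1
    obtain ⟨N, hN1, hN2, hN3⟩ := hN b c hb x hxM1 hxK n hn
    by_contra hcon
    rw [not_le] at hcon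
    obtain ⟨i, j, hi, hj, hij⟩ := Finset.one_lt_card_iff.1 hcon
    obtain ⟨d₁, Y₁, h1, h1', h1''⟩ := hrep b c x n N hN1 i hi
    obtain ⟨d₂, Y₂, h2, h2', h2''⟩ := hrep b c x n N hN1 j hj
    rw [Finset.mem_filter, Finset.mem_range] at hi hj
    have e1 : ((N i : ℕ) : ℝ) = (d₁ : ℝ) * (Y₁ : ℝ) ^ k := by rw [h1'']; push_cast; ring
    have e2 : ((N j : ℕ) : ℝ) = (d₂ : ℝ) * (Y₂ : ℝ) ^ k := by rw [h2'']; push_cast; ring
    have h4 := (hN1 i (by omega)).2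
    have h6 := hTle d₁ d₂ h1' h2'
    have h7 : (1 : ℝ) ≤ N i := by linarith
    have h8 := hX₀ d₁ d₂ h1 h2 Y₁ Y₂ (by rw [← e1]; linarith) (by
      have := hN2 i (by omega) j (by omega) hi.2.1 hj.2.1 hij
      rwa [h1'', h2''] at this)
    rw [← e1, ← e2] at h8
    have h9 := hN3 i (by omega) j (by omega)
    have h10 : ((N i : ℕ) : ℝ) ^ (1 / 8 : ℝ) ≤ ((N i : ℕ) : ℝ) ^ (1 / 4 : ℝ) :=
      Real.rpow_le_rpow_of_exponent_le h7 (by norm_num)
    linarith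

end Pool.Agent.H977.PW
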