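import Mathlib
import Pool.Agent.H977.PW.PUnif

set_option autoImplicit false

/-!
Numbers `c + u y ^ k` in trajectories and cycles of Collatz type maps, uniformly in `b` and `c`.
-/

open Finset Filter Topology

namespace Pool.Agent.H977.PW

open Pool.Agent.H977.SP

/-- `z` is away from `c` and `z - c ≠ 0` is the product of a number composed of primes of `S` and a
`q`-th power, `2 ≤ q ≤ E`. -/
def UPKc (a b c : ℤ) (S : Finset ℕ) (E : ℕ) (z : ℤ) : Prop :=
  Away a b c z ∧ z ≠ c ∧ ∃ q : ℕ, 2 ≤ q ∧ q ≤ E ∧ ∃ u y : ℤ, z - c = u * y ^ q ∧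
    ∀ p : ℕ, p.Prime → (p : ℤ) ∣ u → p ∈ S

theorem upkc_iff (a b c : ℤ) (S : Finset ℕ) (E : ℕ) (z : ℤ) :
    UPKc a b c S E z ↔ ∃ q : ℕ, q.Prime ∧ q ≤ E ∧ UPc a b c S q z := by
  constructor
  · rintro ⟨h0, h1, k, h2, h3, u, y, h4, h5⟩
    refine ⟨k.minFac, Nat.minFac_prime (by omega), (Nat.minFac_le (by omega)).trans h3, h0, h1, u,
      y ^ (k / k.minFac), ?_, h5⟩
    rw [← pow_mul, Nat.div_mul_cancel (Nat.minFac_dvd k)]
    exact h4
  · rintro ⟨q, h1, h2, h0, h3, u, y, h4, h5⟩
    exact ⟨h0, h3, q, h1.two_le, h2, u, y, h4, h5⟩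

open Classical in
theorem count_allu {a : ℤ} (ha : a % 2 = 1) (S : Finset ℕ) (E : ℕ) :
    ∃ γ : ℝ, 0 < γ ∧ ∃ K M : ℕ, ∀ b c : ℤ, b % 2 = 1 → ∀ x : ℤ, (M : ℤ) ≤ |x| →
      (|b| + |c|) ^ K ≤ |x| → ∀ n : ℕ, (n : ℝ) ≤ γ * Real.log |(x : ℝ)| →
      ((range (n + 1)).filter fun i => UPKc a b c S E ((G a b 1)^[i] x)).card ≤
        Nat.primeCounting E + 1 := by
  have key : ∀ E : ℕ, ∃ γ : ℝ, 0 < γ ∧ ∃ K M : ℕ, ∀ b c : ℤ, b % 2 = 1 → ∀ x : ℤ, (M : ℤ) ≤ |x| →
      (|b| + |c|) ^ K ≤ |x| → ∀ n : ℕ, (n : ℝ) ≤ γ * Real.log |(x : ℝ)| →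
      ((range (n + 1)).filter fun i => ∃ q : ℕ, q.Prime ∧ q ≤ E ∧
        UPc a b c S q ((G a b 1)^[i] x)).card ≤
        ∑ q ∈ (range (E + 1)).filter Nat.Prime, if q = 2 then 2 else 1 := by
    intro E
    induction E with
    | zero =>
      refine ⟨1, one_pos, 0, 0, fun b c _ x _ _ n _ => ?_⟩
      rw [Finset.filter_false_of_mem]
      · simp
      · rintro i _ ⟨q, hq, hq0, _⟩
        have := hq.two_le
        omega
    | succ E ih =>
      obtain ⟨γ, hγ, K, M, h⟩ := ih
      by_cases hp : (E + 1).Prime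
      · obtain ⟨γ', hγ', K', M', h'⟩ := pow_countu ha S (E + 1) hp.two_le
        refine ⟨min γ γ', lt_min hγ hγ', max K K', max M M', fun b c hb x hxM hxK n hn => ?_⟩
        have hb0 : b ≠ 0 := by rintro rfl; omega
        have hb1 : 1 ≤ |b| := Int.one_le_abs hb0
        have hc0 : 0 ≤ |c| := abs_nonneg c
        have hL0 : 0 ≤ Real.log |(x : ℝ)| := log_abs_nonneg x
        have h1 := h b c hb x (le_trans (by exact_mod_cast le_max_left _ _) hxM)
          (le_trans (pow_le_pow_right₀ (by linarith) (le_max_left _ _)) hxK) n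
          (hn.trans (mul_le_mul_of_nonneg_right (min_le_left _ _) hL0))
        have h2 := h' b c hb x (le_trans (by exact_mod_cast le_max_right _ _) hxM)
          (le_trans (pow_le_pow_right₀ (by linarith) (le_max_right _ _)) hxK) n
          (hn.trans (mul_le_mul_of_nonneg_right (min_le_right _ _) hL0))
        have h3 : ((range (n + 1)).filter fun i => ∃ q : ℕ, q.Prime ∧ q ≤ E + 1 ∧
            UPc a b c S q ((G a b 1)^[i] x)) ⊆
            ((range (n + 1)).filter fun i => ∃ q : ℕ, q.Prime ∧ q ≤ E ∧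
              UPc a b c S q ((G a b 1)^[i] x)) ∪
            ((range (n + 1)).filter fun i => UPc a b c S (E + 1) ((G a b 1)^[i] x)) := by
          intro i hi
          rw [Finset.mem_filter] at hi
          obtain ⟨h4, q, h5, h6, h7⟩ := hi
          rw [Finset.mem_union, Finset.mem_filter, Finset.mem_filter]
          rcases Nat.lt_or_ge E q with h8 | h8
          · have : q = E + 1 := by omega
            subst this
            exact Or.inr ⟨h4, h7⟩
          · exact Or.inl ⟨h4, q, h5, h8, h7⟩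
        refine (Finset.card_le_card h3).trans ((Finset.card_union_le _ _).trans ?_)
        have hs : (range (E + 1 + 1)).filter Nat.Prime =
            insert (E + 1) ((range (E + 1)).filter Nat.Prime) := by
          rw [Finset.range_add_one (n := E + 1), Finset.filter_insert, if_pos hp]
        rw [hs, Finset.sum_insert (by simp)]
        omega
      · refine ⟨γ, hγ, K, M, fun b c hb x hxM hxK n hn => ?_⟩
        have h1 := h b c hb x hxM hxK n hn
        have h3 : ((range (n + 1)).filter fun i => ∃ q : ℕ, q.Prime ∧ q ≤ E + 1 ∧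
            UPc a b c S q ((G a b 1)^[i] x)) ⊆
            ((range (n + 1)).filter fun i => ∃ q : ℕ, q.Prime ∧ q ≤ E ∧
              UPc a b c S q ((G a b 1)^[i] x)) := by
          intro i hi
          rw [Finset.mem_filter] at hi
          obtain ⟨h4, q, h5, h6, h7⟩ := hi
          rw [Finset.mem_filter]
          have : q ≠ E + 1 := by rintro rfl; exact hp h5
          exact ⟨h4, q, h5, by omega, h7⟩
        have hs : (range (E + 1 + 1)).filter Nat.Prime = (range (E + 1)).filter Nat.Prime := by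
          rw [Finset.range_add_one (n := E + 1), Finset.filter_insert, if_neg hp]
        rw [hs]
        exact (Finset.card_le_card h3).trans h1
  obtain ⟨γ, hγ, K, M, h⟩ := key E
  refine ⟨γ, hγ, K, M, fun b c hb x hxM hxK n hn => ?_⟩
  have h1 := h b c hb x hxM hxK n hn
  have h2 : ((range (n + 1)).filter fun i => UPKc a b c S E ((G a b 1)^[i] x)) =
      ((range (n + 1)).filter fun i => ∃ q : ℕ, q.Prime ∧ q ≤ E ∧
        UPc a b c S q ((G a b 1)^[i] x)) := by
    apply Finset.filter_congr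
    intro i _
    exact upkc_iff a b c S E _
  rw [h2]
  refine h1.trans ?_
  have h3 : ∀ s : Finset ℕ, ∑ q ∈ s, (if q = 2 then 2 else 1) ≤ s.card + 1 := by
    intro s
    have h4 : ∀ q ∈ s, (if q = 2 then 2 else 1) = 1 + (if q = 2 then 1 else 0) := by
      intro q _; split_ifs <;> rfl
    rw [Finset.sum_congr rfl h4, Finset.sum_add_distrib, Finset.sum_ite_eq', Finset.sum_const,
      smul_eq_mul, mul_one]
    split_ifs <;> omega
  refine (h3 _).trans (le_of_eq ?_)
  rw [Nat.primeCounting, Nat.primeCounting', Nat.count_eq_card_filter_range]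

open Classical in
/-- trajectories and cycles above a threshold, uniformly in `b` and `c` -/
theorem powers_u {a : ℤ} (ha : a % 2 = 1) (S : Finset ℕ) (E : ℕ) :
    ∃ C : ℝ, ∃ K M : ℕ, 0 < C ∧ ∀ b c : ℤ, b % 2 = 1 → ∀ m : ℕ, 2 ≤ m → M ≤ m →
      (|b| + |c|) ^ K ≤ m →
      (∀ (x : ℤ) (N : ℕ), (∀ i < N, (m : ℤ) ≤ |(G a b 1)^[i] x|) →
        (((range N).filter fun i => UPKc a b c S E ((G a b 1)^[i] x)).card : ℝ) ≤
          C * (N / Real.log m + 1)) ∧
      (∀ Z : Finset ℤ, IsCyc (G a b 1) Z → (∀ z ∈ Z, (m : ℤ) ≤ |z|) →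
        ((Z.filter (UPKc a b c S E)).card : ℝ) ≤ C * Z.card / Real.log m) := by
  obtain ⟨γ, hγ, K, M, h⟩ := count_allu ha S E
  set P := Nat.primeCounting E + 1 with hP
  have hP1 : (1 : ℝ) ≤ P := by
    have : 1 ≤ P := by omega
    exact_mod_cast this
  refine ⟨P * (2 / γ) + P, K, M, by positivity, ?_⟩
  intro b c hb m hm2 hmM hmK
  have hmR : (2 : ℝ) ≤ m := by exact_mod_cast hm2
  set L := Real.log m with hL
  have hL0 : 0 < L := Real.log_pos (by linarith)
  -- one window
  have hwin : ∀ w : ℕ, 1 ≤ w → ((w - 1 : ℕ) : ℝ) ≤ γ * L → ∀ z : ℤ, (m : ℤ) ≤ |z| →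
      ((range w).filter fun j => UPKc a b c S E ((G a b 1)^[j] z)).card ≤ P := by
    intro w hw1 hw z hz
    have hzR : (m : ℝ) ≤ |(z : ℝ)| := by rw [← Int.cast_abs]; exact_mod_cast hz
    have h1 := h b c hb z (le_trans (by exact_mod_cast hmM) hz) (hmK.trans hz) (w - 1)
      (hw.trans (mul_le_mul_of_nonneg_left (Real.log_le_log (by linarith) hzR) hγ.le))
    rwa [Nat.sub_add_cancel hw1] at h1
  have hP0 : (0 : ℝ) ≤ P := by linarith
  refine ⟨?_, ?_⟩
  · intro x N hbig
    have htriv : (((range N).filter fun i => UPKc a b c S E ((G a b 1)^[i] x)).card : ℝ) ≤ N := by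
      have := Finset.card_filter_le (range N) (fun i => UPKc a b c S E ((G a b 1)^[i] x))
      rw [Finset.card_range] at this
      exact_mod_cast this
    have hN0 : (0 : ℝ) ≤ N := Nat.cast_nonneg N
    have hNL : 0 ≤ (N : ℝ) / L := by positivity
    rcases lt_or_ge (γ * L) 2 with hcase | hcase
    · have h1 : (N : ℝ) ≤ 2 / γ * (N / L) := by
        rw [div_mul_div_comm, le_div_iff₀ (by positivity)]
        nlinarith
      have h2 : 2 / γ * ((N : ℝ) / L) ≤ P * (2 / γ) * (N / L) := by
        have h3 : 0 ≤ 2 / γ * ((N : ℝ) / L) := by positivity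
        nlinarith
      have h4 : 0 ≤ P * ((N : ℝ) / L) := by positivity
      have h5 : 0 ≤ (P : ℝ) * (2 / γ) + P := by positivity
      nlinarith
    · set w := ⌊γ * L⌋₊ with hw
      have hw1 : 1 ≤ w := by
        rw [hw, Nat.one_le_floor_iff]
        linarith
      have hwle : (w : ℝ) ≤ γ * L := Nat.floor_le (by linarith)
      have hwge : γ * L / 2 ≤ w := by
        have := Nat.lt_floor_add_one (γ * L)
        rw [← hw] at this
        linarith
      have hblock := blocks (fun i => UPKc a b c S E ((G a b 1)^[i] x)) w hw1 P 0 N (by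
        intro i _ hi
        have h1 := hwin w hw1 (le_trans (by exact_mod_cast Nat.sub_le _ _) hwle)
          ((G a b 1)^[i] x) (hbig i hi)
        refine le_trans (le_of_eq ?_) h1
        congr 1
        apply Finset.filter_congr
        intro j _
        rw [← Function.iterate_add_apply, add_comm i j])
      have h4 : ((range N).filter fun i => 0 ≤ i ∧ UPKc a b c S E ((G a b 1)^[i] x)) =
          ((range N).filter fun i => UPKc a b c S E ((G a b 1)^[i] x)) := by
        apply Finset.filter_congr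
        intro i _
        simp
      rw [h4] at hblock
      have hwpos : (0 : ℝ) < w := by exact_mod_cast hw1
      have h6 : (((N / w : ℕ)) : ℝ) ≤ (N : ℝ) / w := Nat.cast_div_le
      have h7 : (((range N).filter fun i => UPKc a b c S E ((G a b 1)^[i] x)).card : ℝ) ≤
          P * (((N / w : ℕ) : ℝ) + 1) := by exact_mod_cast hblock
      have h8 : (N : ℝ) / w ≤ 2 / γ * (N / L) := by
        rw [div_mul_div_comm, div_le_div_iff₀ hwpos (by positivity)]
        nlinarith
      have h9 : (P : ℝ) * (((N / w : ℕ) : ℝ) + 1) ≤ P * (2 / γ * (N / L) + 1) :=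
        mul_le_mul_of_nonneg_left (by linarith) hP0
      have h10 : 0 ≤ P * ((N : ℝ) / L) := by positivity
      have h11 : 0 ≤ (P : ℝ) * (2 / γ) := by positivity
      nlinarith
  · intro Z hZ hbig
    rw [le_div_iff₀ hL0]
    have htriv : ((Z.filter (UPKc a b c S E)).card : ℝ) ≤ Z.card := by
      exact_mod_cast Finset.card_filter_le _ _
    have hZ0 : (0 : ℝ) ≤ Z.card := Nat.cast_nonneg _
    rcases lt_or_ge (γ * L) 2 with hcase | hcase
    · have h1 : L ≤ 2 / γ := by
        rw [le_div_iff₀ hγ]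
        linarith
      have h2 : ((Z.filter (UPKc a b c S E)).card : ℝ) * L ≤ Z.card * (2 / γ) :=
        mul_le_mul htriv h1 hL0.le hZ0
      have h3 : 0 ≤ (Z.card : ℝ) * (2 / γ) := by positivity
      have h4 : 0 ≤ (P : ℝ) * Z.card := by positivity
      nlinarith
    · set w := ⌊γ * L⌋₊ with hw
      have hw1 : 1 ≤ w := by
        rw [hw, Nat.one_le_floor_iff]
        linarith
      have hwle : (w : ℝ) ≤ γ * L := Nat.floor_le (by linarith)
      have hwge : γ * L / 2 ≤ w := by
        have := Nat.lt_floor_add_one (γ * L)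
        rw [← hw] at this
        linarith
      have hwpos : (0 : ℝ) < w := by exact_mod_cast hw1
      set g : ℤ → ℝ := fun z => if UPKc a b c S E z then 1 else 0 with hg
      have h1 : ∀ z ∈ Z, ∑ j ∈ range w, g ((G a b 1)^[j] z) ≤ P := by
        intro z hz
        rw [hg, ← Finset.sum_filter, Finset.sum_const, nsmul_eq_mul, mul_one]
        exact_mod_cast hwin w hw1 (le_trans (by exact_mod_cast Nat.sub_le _ _) hwle) z (hbig z hz)
      have h2 := Finset.sum_le_sum h1
      rw [Finset.sum_comm, Finset.sum_congr rfl fun j _ => sum_iter hZ g j, Finset.sum_const,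
        Finset.card_range, nsmul_eq_mul, Finset.sum_const, nsmul_eq_mul] at h2
      have h3 : ∑ z ∈ Z, g z = ((Z.filter (UPKc a b c S E)).card : ℝ) := by
        rw [hg, ← Finset.sum_filter, Finset.sum_const, nsmul_eq_mul, mul_one]
      rw [h3] at h2
      have h4 : γ * L / 2 * ((Z.filter (UPKc a b c S E)).card : ℝ) ≤ Z.card * P :=
        (mul_le_mul_of_nonneg_right hwge (Nat.cast_nonneg _)).trans h2
      have h5 : ((Z.filter (UPKc a b c S E)).card : ℝ) * L ≤ P * (2 / γ) * Z.card := by
        have h6 := mul_le_mul_of_nonneg_left h4 (show 0 ≤ 2 / γ by positivity)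
        have h7 : 2 / γ * (γ * L / 2 * ((Z.filter (UPKc a b c S E)).card : ℝ)) =
            ((Z.filter (UPKc a b c S E)).card : ℝ) * L := by
          field_simp
        rw [h7] at h6
        linarith
      have h6 : 0 ≤ (P : ℝ) * Z.card := by positivity
      linarith

end Pool.Agent.H977.PW
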